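import Pool.Agent.P.MP_84b56d_ag.Q.Out

/-! Dominant images of punctured commutative algebraic groups. -/

open MvPolynomial TopologicalSpace Topology Pool.Agent.P.MP_84b56d_ag.Z
open scoped LinearAlgebra.Projectivization

namespace Pool.Agent.P.MP_84b56d_ag.Q

variable {k : Type*} {σ τ : Type} [Field k]

/-- projective space -/
def projRaw (k : Type*) [Field k] (τ : Type) : Raw k τ (ℙ k (τ → k)) where
  rep P := {v | ∃ h : v ≠ 0, Projectivization.mk k v h = P}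
  ne_zero _ _ hv := hv.1
  nonempty P := ⟨_, P.rep_nonzero, P.mk_rep⟩
  smul_mem := by
    rintro x v ⟨h, e⟩ a ha
    refine ⟨smul_ne_zero ha h, ?_⟩
    rw [← e, Projectivization.mk_eq_mk_iff']
    exact ⟨a, rfl⟩
  exists_smul := by
    rintro x v ⟨hv, e⟩ w ⟨hw, e'⟩
    obtain ⟨a, ha⟩ := (Projectivization.mk_eq_mk_iff' k w v hw hv).1 (e'.trans e.symm)
    exact ⟨a, ha.symm⟩
  eq_of_mem := by
    rintro x y v ⟨hv, e⟩ ⟨_, e'⟩
    exact e.symm.trans e'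

theorem rep_mem (P : ℙ k (τ → k)) : P.rep ∈ (projRaw k τ).rep P := ⟨P.rep_nonzero, P.mk_rep⟩

/-- projective space with the Zariski topology -/
def projPV [Infinite k] {t : TopologicalSpace (ℙ k (τ → k))}
    (ht : t = generateFrom {U | ∃ (f : MvPolynomial τ k) (d : ℕ), f.IsHomogeneous d ∧
      U = {x | eval x.rep f ≠ 0}}) : PV k τ (ℙ k (τ → k)) where
  toRaw := projRaw k τ
  isClosed_iff Y := by
    constructor
    · intro hY x hx
      by_contra hxY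
      obtain ⟨f, n, hf, h1, h2⟩ := exists_hom_of_open ht hY.isOpen_compl hxY
      exact h1 (hx f (fun y hy w hw => (eval_mk_zero hf hw.2).2 (h2 _ (not_not.2 hy))) _
        (rep_mem x))
    · intro h
      refine isOpen_compl_iff.1 (isOpen_iff_forall_mem_open.2 fun x hx => ?_)
      have h1 := mt (h x) hx
      push Not at h1
      obtain ⟨f, hf, v, hv, hne⟩ := h1
      obtain ⟨n, hn⟩ := exists_homComp_ne hne
      refine ⟨{y | eval y.rep (homogeneousComponent n f) ≠ 0}, fun y hy hyY => ?_, ?_,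
        fun h0 => ?_⟩
      · exact hy ((projRaw k τ).homComp_mem (Y := Y) hf n y hyY _ (rep_mem y))
      · subst ht
        exact isOpen_generateFrom_of_mem ⟨_, n, homogeneousComponent_isHomogeneous n f, rfl⟩
      · exact hn ((eval_mk_zero (homogeneousComponent_isHomogeneous n f) hv.2).2 h0)

theorem final [IsAlgClosed k] [CharZero k] [Finite σ] [Finite τ] {G : Type*} [AddCommGroup G]
    [TopologicalSpace G] [IrreducibleSpace G] [Mk σ] (c : Ctx k σ G) {Z₀ : Set G}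
    (hZ₀ : IsClosed Z₀)
    (hcod : ∀ W, IsClosed W → IsIrreducible W → W ⊆ Z₀ → td (c.I W) + 2 ≤ td (c.I Set.univ))
    {t : TopologicalSpace (ℙ k (τ → k))}
    (ht : t = generateFrom {U | ∃ (f : MvPolynomial τ k) (d : ℕ), f.IsHomogeneous d ∧
      U = {x | eval x.rep f ≠ 0}}) (X Z : Set (ℙ k (τ → k))) (hZ : IsClosed Z)
    (φ : G → ℙ k (τ → k))
    (hφ : Reg (fun x : (Z₀ᶜ : Set G) => c.rep x) (projRaw k τ).rep fun x => φ x)
    (hmap : ∀ x, x ∉ Z₀ → φ x ∈ X \ Z) (hdom : X \ Z ⊆ closure (φ '' Z₀ᶜ)) :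
    ∃ R : Subring k, (∃ s : Finset k, R = Subring.closure (s : Set k)) ∧
      ∃ a b : Finset (MvPolynomial τ R), (∀ f ∈ a, ∃ d, f.IsHomogeneous d) ∧
        (∀ g ∈ b, ∃ d, g.IsHomogeneous d) ∧
        Ideal.span (map R.subtype '' (a : Set (MvPolynomial τ R))) =
          vanishingIdeal k {v | ∃ h : v ≠ 0, Projectivization.mk k v h ∈ X} ∧
        (∀ x ∈ X, x ∈ Z ↔ ∀ g ∈ b, eval x.rep (map R.subtype g) = 0) ∧
        X \ Z ⊆ closure {P | P ∈ X \ Z ∧
          (∃ (v : τ → R) (h : (fun i => (v i : k)) ≠ 0), Projectivization.mk k _ h = P) ∧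
          ∀ s : Ideal R, s.IsPrime → s.height = 1 →
            ∃ (v : τ → R) (h : (fun i => (v i : k)) ≠ 0), Projectivization.mk k _ h = P ∧
              (∃ i, v i ∉ s) ∧ ∃ g ∈ b, eval v g ∉ s} := by
  classical
  obtain ⟨Ta, hTa, hTa'⟩ := proj_gens X
  obtain ⟨Tb, hTb, hTb'⟩ := proj_gens Z
  obtain ⟨T₀, hT₀, hT₀'⟩ := c.exists_gens Z₀
  have hZb : ∀ x, x ∈ Z ↔ ∀ g ∈ Tb, eval x.rep g = 0 := fun x => by
    refine ⟨fun hx g hg => ?_, fun h => by_contra fun hx => ?_⟩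
    · have : g ∈ Ideal.span (Tb : Set (MvPolynomial τ k)) := Ideal.subset_span hg
      rw [hTb'] at this
      exact this _ ⟨x.rep_nonzero, by rwa [x.mk_rep]⟩
    obtain ⟨f, d, hf, h1, h2⟩ := exists_hom_of_open ht hZ.isOpen_compl hx
    refine h1 (eval_eq_zero_of_span h f (hTb' ▸ ?_))
    rintro v ⟨hv, hvZ⟩
    exact (eval_mk_zero hf rfl).2 (h2 _ (not_not.2 hvZ))
  have hφ' : ∀ x : (Z₀ᶜ : Set G), ∃ (D : MvPolynomial σ k) (F : τ → MvPolynomial σ k) (l : τ),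
      ∃ g ∈ Tb, (∃ d, (D * F l * aeval F g).IsHomogeneous d) ∧
      (∀ v ∈ c.rep x, eval v (D * F l * aeval F g) ≠ 0) ∧ ∀ y, ∀ v ∈ c.rep y, eval v D ≠ 0 →
        y ∉ Z₀ ∧ ∃ h : (fun l => eval v (F l)) ≠ 0, Projectivization.mk k _ h = φ y := by
    rintro ⟨x, hx⟩
    obtain ⟨D, F, d, e, h1, h2, h3, h4'⟩ := Reg.hom
      (c := c.toRaw.comap _ Subtype.val_injective) (c' := projRaw k τ) hφ ⟨x, hx⟩
    have h4 := fun y hy => h4' ⟨y, hy⟩
    obtain ⟨v, hv⟩ := c.nonempty x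
    obtain ⟨H, hH, h5⟩ : ∃ H ∈ T₀, eval v H ≠ 0 := by
      by_contra h
      push Not at h
      exact hx (c.mem_of_gens hZ₀ hT₀ hT₀' hv h)
    obtain ⟨h6, h7⟩ := h4 x hx v hv (h3 v hv)
    obtain ⟨l, hl⟩ := Function.ne_iff.1 h6
    obtain ⟨g, hg, h8⟩ : ∃ g ∈ Tb, eval (φ x).rep g ≠ 0 := by
      by_contra h
      push Not at h
      exact (hmap x hx).2 ((hZb _).2 h)
    obtain ⟨d', hd'⟩ := hT₀ H hH
    obtain ⟨e', he'⟩ := hTb g hg
    have h9 := ((h1.mul hd').mul (h2 l)).mul (he'.aeval F h2)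
    refine ⟨D * H, F, l, g, hg, ⟨_, h9⟩, fun w hw => ?_, fun y w hw h => ?_⟩
    · obtain ⟨a, ha, rfl⟩ := c.exists_smul_ne hv hw
      rw [eval_smul_of_hom h9, map_mul, map_mul, map_mul, eval_aeval']
      exact mul_ne_zero (pow_ne_zero _ ha) (mul_ne_zero (mul_ne_zero (mul_ne_zero (h3 v hv) h5) hl)
        fun h => h8 ((eval_mk_zero he' h7).1 h))
    · rw [map_mul] at h
      have hy : y ∉ Z₀ := fun hy => right_ne_zero_of_mul h
        ((hT₀' ▸ Ideal.subset_span hH : H ∈ c.I Z₀) y hy w hw)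
      exact ⟨hy, h4 y hy w hw (left_ne_zero_of_mul h)⟩
  choose D F l g hg hP1 hP2 hP3 using hφ'
  obtain ⟨S, hS, hspan⟩ := (Submodule.fg_span_iff_fg_span_finset_subset
    (Set.range fun x => D x * F x (l x) * aeval (F x) (g x))).1
    ((isNoetherianRing_iff_ideal_fg _).1 inferInstance (Ideal.span _))
  choose p hp using fun f : S => hS f.2
  have hZS : ZS c S ⊆ Z₀ := fun y hy => by_contra fun hy' => by
    obtain ⟨v, hv⟩ := c.nonempty y
    refine hP2 ⟨y, hy'⟩ v hv (eval_eq_zero_of_span (fun f hf => hy f hf v hv) _ ?_)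
    change _ ∈ Submodule.span _ _
    rw [← hspan]
    exact Submodule.subset_span ⟨_, rfl⟩
  obtain ⟨R, hR, hE, hdense⟩ := main c S S.finite_toSet
    (fun f hf => by obtain ⟨x, rfl⟩ := hS hf; exact hP1 x) 
    (fun W h1 h2 h3 => hcod W h1 h2 (h3.trans hZS))
    ((⋃ f ∈ Ta ∪ Tb, Set.range fun m => coeff m f) ∪ ⋃ f : S, (Set.range fun m =>
      coeff m (D (p f))) ∪ ⋃ j, Set.range fun m => coeff m (F (p f) j))
    (((Ta ∪ Tb).finite_toSet.biUnion fun f _ => finite_coeffs f).union (Set.finite_iUnion fun _ =>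
      (finite_coeffs _).union (Set.finite_iUnion fun _ => finite_coeffs _)))
  simp only [Set.union_subset_iff, Set.iUnion_subset_iff, Set.range_subset_iff,
    Finset.mem_union] at hE
  obtain ⟨a, ha, ha'⟩ := lift_gens R Ta hTa fun f hf => hE.1 f (Or.inl hf)
  obtain ⟨b, hb, hb'⟩ := lift_gens R Tb hTb fun f hf => hE.1 f (Or.inr hf)
  refine ⟨R, hR, a, b, ha, hb, ha' ▸ hTa', fun x _ => ?_, hdom.trans (closure_minimal ?_
    isClosed_closure)⟩
  · rw [hZb]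
    refine ⟨fun h g hg => h _ (Finset.mem_coe.1 (hb' ▸ Set.mem_image_of_mem _ hg)), fun h g hg => ?_⟩
    obtain ⟨g', hg', rfl⟩ : g ∈ map R.subtype '' (b : Set _) := hb' ▸ hg
    exact h g' hg'
  rintro _ ⟨x, hx, rfl⟩
  by_contra hcon
  obtain ⟨h, d, h1, h2, h3⟩ := exists_hom_of_open ht isClosed_closure.isOpen_compl hcon
  have h4 := closure_minimal (t := {y | ∀ f ∈ ({D ⟨x, hx⟩ * aeval (F ⟨x, hx⟩) h} : Set _),
    ∀ v ∈ c.rep y, eval v f = 0}) (s := _) ?_ (c.isClosed_zero _) (hdense x)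
  · obtain ⟨v, hv⟩ := c.nonempty x
    have h5 := hP2 ⟨x, hx⟩ v hv
    rw [map_mul, map_mul] at h5
    have h6 := left_ne_zero_of_mul (left_ne_zero_of_mul h5)
    have h7 := h4 _ rfl v hv
    rw [map_mul, eval_aeval'] at h7
    obtain ⟨-, h8, h9⟩ := hP3 _ x v hv h6
    exact h2 ((eval_mk_zero h1 h9).1 ((mul_eq_zero.1 h7).resolve_left h6))
  rintro y ⟨hy, ⟨v, hv, hvR⟩, hs⟩ _ rfl w hw
  rw [map_mul, eval_aeval']
  by_cases h5 : eval w (D ⟨x, hx⟩) = 0
  · rw [h5, zero_mul]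
  obtain ⟨h6, h7, h8⟩ := hP3 _ y w hw h5
  rw [(eval_mk_zero h1 h8).2 (h3 _ (not_not.2 (subset_closure ⟨hmap y h6, ?_, fun s h9 h10 => ?_⟩))),
    mul_zero]
  · obtain ⟨f, hf, hne⟩ : ∃ f ∈ S, eval v f ≠ 0 := by
      by_contra h
      push Not at h
      refine hy fun f hf u hu => ?_
      obtain ⟨β, rfl⟩ := c.exists_smul y v hv u hu
      obtain ⟨z, rfl⟩ := hS hf
      obtain ⟨e, he⟩ := hP1 z
      rw [eval_smul_of_hom he, h _ hf, mul_zero]
    rw [← show _ = f from hp ⟨f, hf⟩, map_mul, map_mul] at hne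
    exact ⟨fun j => ⟨_, eval_mem ((hE.2 ⟨f, hf⟩).2 j) hvR⟩,
      (hP3 _ y v hv (left_ne_zero_of_mul (left_ne_zero_of_mul hne))).2⟩
  · obtain ⟨u, hu, huR, f, hf, hne⟩ := hs s h9 h10
    obtain ⟨g', hg', e⟩ : g (p ⟨f, hf⟩) ∈ map R.subtype '' (b : Set _) := hb' ▸ hg _
    let u' : τ → R := fun j => ⟨_, eval_mem ((hE.2 ⟨f, hf⟩).2 j) huR⟩
    have h11 := hne (⟨_, eval_mem (hE.2 ⟨f, hf⟩).1 huR⟩ * u' (l _) * eval u' g') (by
      refine Eq.trans ?_ (congrArg (eval u) (hp ⟨f, hf⟩))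
      simp only [map_mul, eval_aeval', ← e]
      exact congrArg _ (map_eval R.subtype u' g'))
    obtain ⟨-, h12, h13⟩ := hP3 _ y u hu fun h => h11 (s.mul_mem_right _ (s.mul_mem_right _
      ((Subtype.ext h : (⟨_, eval_mem (hE.2 ⟨f, hf⟩).1 huR⟩ : R) = 0) ▸ s.zero_mem)))
    exact ⟨u', h12, h13, ⟨l _, fun h => h11 (s.mul_mem_right _ (s.mul_mem_left _ h))⟩,
      g', hg', fun h => h11 (s.mul_mem_left _ h)⟩

end Pool.Agent.P.MP_84b56d_ag.Q
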