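import Pool.Agent.P.MP_84b56d_ag.Q.Defs

open MvPolynomial TopologicalSpace

namespace Pool.Agent.P.MP_84b56d_ag.Q

variable {k : Type*} {σ : Type} {G : Type*} [Field k]

section Raw

variable (c : Raw k σ G)

theorem Raw.mem_I {Y : Set G} {f : MvPolynomial σ k} :
    f ∈ c.I Y ↔ ∀ y ∈ Y, ∀ w ∈ c.rep y, eval w f = 0 := Iff.rfl

theorem Raw.I_anti {Y Y' : Set G} (h : Y ⊆ Y') : c.I Y' ≤ c.I Y :=
  fun _ hf y hy w hw => hf y (h hy) w hw

theorem Raw.exists_smul_ne {x : G} {v w : σ → k} (hv : v ∈ c.rep x) (hw : w ∈ c.rep x) :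
    ∃ a : k, a ≠ 0 ∧ w = a • v := by
  obtain ⟨a, rfl⟩ := c.exists_smul x v hv w hw
  refine ⟨a, ?_, rfl⟩
  rintro rfl
  exact c.ne_zero x _ hw (zero_smul _ _)

theorem Raw.scale_mem {Y : Set G} {f : MvPolynomial σ k} (hf : f ∈ c.I Y) {a : k} (ha : a ≠ 0) :
    scale a f ∈ c.I Y := by
  intro y hy w hw
  rw [eval_scale]
  exact hf y hy _ (c.smul_mem y w hw a ha)

theorem Raw.eq_of_minor {x y : G} {v w : σ → k} (hv : v ∈ c.rep x) (hw : w ∈ c.rep y)
    (h : ∀ i j, v i * w j - v j * w i = 0) : x = y := by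
  obtain ⟨j, hj⟩ := Function.ne_iff.1 (c.ne_zero y w hw)
  have hj' : w j ≠ 0 := hj
  have hvw : v = (v j / w j) • w := by
    funext i
    have := h i j
    simp only [Pi.smul_apply, smul_eq_mul]
    field_simp
    linear_combination this
  have ha : v j / w j ≠ 0 := by
    intro h0
    rw [h0, zero_smul] at hvw
    exact c.ne_zero x v hv hvw
  exact c.eq_of_mem x y v hv (hvw ▸ c.smul_mem y w hw _ ha)

theorem Raw.homComp_mem [Infinite k] {Y : Set G} {f : MvPolynomial σ k} (hf : f ∈ c.I Y) (n : ℕ) :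
    homogeneousComponent n f ∈ c.I Y := fun y hy w hw =>
  eval_homComp_eq_zero f w (fun a ha => hf y hy _ (c.smul_mem y w hw a ha)) n

theorem Raw.exists_gens [Infinite k] [Finite σ] (Y : Set G) :
    ∃ T : Finset (MvPolynomial σ k), (∀ f ∈ T, ∃ d, f.IsHomogeneous d) ∧
      Ideal.span (T : Set (MvPolynomial σ k)) = c.I Y := by
  classical
  obtain ⟨S, hS⟩ := (isNoetherianRing_iff_ideal_fg _).1 inferInstance (c.I Y)
  refine ⟨S.biUnion fun f => (Finset.range (f.totalDegree + 1)).image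
    fun n => homogeneousComponent n f, ?_, le_antisymm ?_ ?_⟩
  · intro f hf
    simp only [Finset.mem_biUnion, Finset.mem_image] at hf
    obtain ⟨g, -, n, -, rfl⟩ := hf
    exact ⟨n, homogeneousComponent_isHomogeneous n g⟩
  · rw [Ideal.span_le]
    intro f hf
    simp only [Finset.coe_biUnion, Finset.coe_image, Set.mem_iUnion, Set.mem_image] at hf
    obtain ⟨g, hg, n, -, rfl⟩ := hf
    exact c.homComp_mem (hS ▸ Ideal.subset_span hg) n
  · rw [← hS, Ideal.span_le]
    intro f hf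
    rw [← sum_homogeneousComponent f]
    refine Ideal.sum_mem _ fun n hn => Ideal.subset_span ?_
    simp only [Finset.coe_biUnion, Finset.coe_image, Set.mem_iUnion, Set.mem_image]
    exact ⟨f, hf, n, hn, rfl⟩

theorem Raw.exists_one (x : G) : ∃ v ∈ c.rep x, ∃ i, v i = 1 := by
  obtain ⟨v, hv⟩ := c.nonempty x
  obtain ⟨i, hi⟩ := Function.ne_iff.1 (c.ne_zero x v hv)
  have hi' : v i ≠ 0 := hi
  exact ⟨(v i)⁻¹ • v, c.smul_mem x v hv _ (inv_ne_zero hi'), i, by simp [hi']⟩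

end Raw

variable [TopologicalSpace G]

section PV

variable (c : PV k σ G)

theorem PV.exists_I_ne {Y : Set G} (hY : IsClosed Y) {x : G} (hx : x ∉ Y) {v : σ → k}
    (hv : v ∈ c.rep x) : ∃ f ∈ c.I Y, eval v f ≠ 0 := by
  have := (c.isClosed_iff Y).1 hY x
  by_contra hcon
  push Not at hcon
  refine hx (this fun f hf w hw => ?_)
  obtain ⟨a, ha, rfl⟩ := c.exists_smul_ne hv hw
  rw [← eval_scale]
  exact hcon _ (c.scale_mem hf ha)

theorem PV.isClosed_of {Y : Set G}
    (h : ∀ x, x ∉ Y → ∃ v ∈ c.rep x, ∃ f ∈ c.I Y, eval v f ≠ 0) : IsClosed Y := by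
  refine (c.isClosed_iff Y).2 fun x hx => ?_
  by_contra hxY
  obtain ⟨v, hv, f, hf, hne⟩ := h x hxY
  exact hne (hx f hf v hv)

theorem PV.isClosed_zero (T : Set (MvPolynomial σ k)) :
    IsClosed {x | ∀ f ∈ T, ∀ v ∈ c.rep x, eval v f = 0} := by
  refine (c.isClosed_iff _).2 fun x hx f hf v hv => hx f (fun y hy w hw => hy f hf w hw) v hv

theorem PV.subset_of_I_le {Y Y' : Set G} (hY' : IsClosed Y') (h : c.I Y' ≤ c.I Y) : Y ⊆ Y' :=
  fun x hx => (c.isClosed_iff Y').1 hY' x fun _ hf v hv => h hf x hx v hv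

include c in
theorem PV.noetherianSpace [Finite σ] : NoetherianSpace G := by
  refine ((noetherianSpace_TFAE G).out 0 1).2 ?_
  have hwf : WellFoundedGT (Ideal (MvPolynomial σ k)) := inferInstance
  refine ⟨Subrelation.wf (r := InvImage (· > ·) fun Y : Closeds G => c.I (Y : Set G)) ?_
    (InvImage.wf _ hwf.wf)⟩
  intro Y Y' h
  refine lt_of_le_of_ne (c.I_anti h.le) fun he => h.ne ?_
  exact le_antisymm h.le (c.subset_of_I_le Y.isClosed he.ge)

include c in
theorem PV.t1Space : T1Space G := by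
  refine ⟨fun y => (c.isClosed_iff _).2 fun x hx => ?_⟩
  obtain ⟨w, hw⟩ := c.nonempty y
  obtain ⟨v, hv⟩ := c.nonempty x
  refine c.eq_of_minor hv hw fun i j => ?_
  have := hx (X i * C (w j) - X j * C (w i)) ?_ v hv
  · simpa using this
  · rintro y' rfl w' hw'
    obtain ⟨a, rfl⟩ := c.exists_smul _ w hw w' hw'
    simp; ring

theorem PV.isPrime_I [Infinite k] {W : Set G} (hW : IsIrreducible W) : (c.I W).IsPrime := by
  refine ⟨?_, fun {f g} hfg => ?_⟩
  · rw [Ideal.ne_top_iff_one]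
    intro h
    obtain ⟨x, hx⟩ := hW.nonempty
    obtain ⟨v, hv⟩ := c.nonempty x
    simpa using h x hx v hv
  · have := isPreirreducible_iff_isClosed_union_isClosed.1 hW.2 _ _ (c.isClosed_zero {f})
      (c.isClosed_zero {g}) ?_
    · rcases this with h | h
      · exact Or.inl fun y hy w hw => h hy f rfl w hw
      · exact Or.inr fun y hy w hw => h hy g rfl w hw
    intro x hx
    obtain ⟨v, hv⟩ := c.nonempty x
    have h0 : ray v f * ray v g = 0 := by
      refine poly_eq_zero_of_ne _ fun a ha => ?_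
      rw [Polynomial.eval_mul, eval_ray, eval_ray, ← map_mul]
      exact hfg x hx _ (c.smul_mem x v hv a ha)
    rcases mul_eq_zero.1 h0 with h | h
    · left
      rintro _ rfl w hw
      obtain ⟨a, rfl⟩ := c.exists_smul x v hv w hw
      rw [← eval_ray, h, Polynomial.eval_zero]
    · right
      rintro _ rfl w hw
      obtain ⟨a, rfl⟩ := c.exists_smul x v hv w hw
      rw [← eval_ray, h, Polynomial.eval_zero]

theorem PV.one_le_td [Infinite k] [Finite σ] {W : Set G} (hW : IsIrreducible W) :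
    1 ≤ td (c.I W) := by
  classical
  have := c.isPrime_I hW
  obtain ⟨x, hx⟩ := hW.nonempty
  obtain ⟨v, hv, i, hi⟩ := c.exists_one x
  have hlt : c.I W < RingHom.ker (eval v : MvPolynomial σ k →+* k) := by
    refine lt_of_le_of_ne (fun f hf => hf x hx v hv) fun he => ?_
    have h1 : (X i - 1 : MvPolynomial σ k) ∈ c.I W := by
      rw [he, RingHom.mem_ker]; simp [hi]
    obtain ⟨a, ha⟩ := Infinite.exists_notMem_finset ({0, 1} : Finset k)
    simp only [Finset.mem_insert, Finset.mem_singleton, not_or] at ha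
    have := h1 x hx _ (c.smul_mem x v hv a ha.1)
    simp [hi, sub_eq_zero] at this
    exact ha.2 this
  have : (RingHom.ker (eval v : MvPolynomial σ k →+* k)).IsPrime := RingHom.ker_isPrime _
  have := td_lt hlt
  omega

theorem PV.td_lt_td [Infinite k] [Finite σ] {W W' : Set G} (hc : IsClosed W)
    (hW : IsIrreducible W) (hW' : IsIrreducible W') (h : W ⊂ W') : td (c.I W) < td (c.I W') := by
  have := c.isPrime_I hW
  have := c.isPrime_I hW'
  refine td_lt (lt_of_le_of_ne (c.I_anti h.1) fun he => h.2 ?_)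
  exact c.subset_of_I_le hc he.ge

theorem PV.td_le_td [Infinite k] [Finite σ] {W W' : Set G}
    (hW : IsIrreducible W) (hW' : IsIrreducible W') (h : W ⊆ W') : td (c.I W) ≤ td (c.I W') := by
  have := c.isPrime_I hW
  have := c.isPrime_I hW'
  exact td_le_of_le (c.I_anti h)

theorem PV.mem_of_gens {Y : Set G} (hY : IsClosed Y) {T : Set (MvPolynomial σ k)}
    (hT : ∀ f ∈ T, ∃ d, f.IsHomogeneous d) (hs : Ideal.span T = c.I Y) {x : G} {v : σ → k}
    (hv : v ∈ c.rep x) (h : ∀ f ∈ T, eval v f = 0) : x ∈ Y := by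
  by_contra hx
  obtain ⟨f, hf, hne⟩ := c.exists_I_ne hY hx hv
  exact hne (eval_eq_zero_of_span h f (hs ▸ hf))

theorem PV.ch_le [Infinite k] [Finite σ] {i : ℕ} {W : Set G} (h : Ch i W) :
    i + 1 ≤ td (c.I W) := by
  induction h with
  | zero W h1 h2 => simpa using c.one_le_td h2
  | succ i W W' h hs h1 h2 ih =>
    have := c.td_lt_td h.ci.1 h.ci.2 h2 hs
    omega

theorem PV.mem_closure {Y : Set G} {x : G} :
    x ∈ closure Y ↔ ∀ f ∈ c.I Y, ∀ v ∈ c.rep x, eval v f = 0 := by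
  refine ⟨fun h => closure_minimal (t := {x | ∀ f ∈ c.I Y, ∀ v ∈ c.rep x, eval v f = 0})
    (fun y hy f hf v hv => hf y hy v hv) (c.isClosed_zero _) h,
    fun h => (c.isClosed_iff _).1 isClosed_closure x fun f hf => h f ?_⟩
  exact fun y hy => hf y (subset_closure hy)

theorem PV.I_closure (Y : Set G) : c.I (closure Y) = c.I Y :=
  le_antisymm (c.I_anti subset_closure) fun f hf _ hy => c.mem_closure.1 hy f hf

end PV

variable [Mk σ] (c : Var k σ G)

theorem Var.exists_rep_one (x : G) : ∃ v ∈ c.rep x, ∃ i, mark i ∧ v i = 1 := by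
  obtain ⟨v, hv⟩ := c.nonempty x
  obtain ⟨i, hm, hi⟩ := c.mark_ne x v hv
  exact ⟨(v i)⁻¹ • v, c.smul_mem x v hv _ (inv_ne_zero hi), i, hm, by simp [hi]⟩

theorem Var.comp_minimal [IsAlgClosed k] [Finite σ] {X W : Set G} (hX : IsClosed X)
    (hW : IsComp X W) {J : Ideal (MvPolynomial σ k)} (hJ : J ≤ c.I X)
    (hJ' : ∀ (v : σ → k) i, mark i → v i ≠ 0 → (∀ f ∈ J, eval v f = 0) →
      ∃ x ∈ X, v ∈ c.rep x) :
    c.I W ∈ J.minimalPrimes := by
  classical
  have := c.noetherianSpace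
  have := c.isPrime_I hW.1
  refine ⟨⟨inferInstance, hJ.trans (c.I_anti hW.2.2.1)⟩, fun P hP hPW => ?_⟩
  have := hP.1
  obtain ⟨S, hSf, hSc, hSi, hSU⟩ := NoetherianSpace.exists_finite_set_isClosed_irreducible hX
  lift S to Finset (Set G) using hSf
  obtain ⟨x₀, hx₀⟩ := hW.1.nonempty
  obtain ⟨v₀, hv₀, i, hm, hi⟩ := c.exists_rep_one x₀
  have key : ∃ W' ∈ S, c.I W' ≤ P := by
    by_contra hcon
    push Not at hcon
    have : ∀ W' ∈ S, ∃ f ∈ c.I W', f ∉ P := fun W' h => Set.not_subset.1 (hcon W' h)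
    choose! f hf hfP using this
    have hmem : MvPolynomial.X i * ∏ W' ∈ S, f W' ∈ P := by
      refine mem_of_vanish P fun v hv => ?_
      by_cases hv0 : v i = 0
      · simp [hv0]
      obtain ⟨x, hx, hvx⟩ := hJ' v i hm hv0 fun g hg => hv g (hP.2 hg)
      rw [hSU] at hx
      obtain ⟨W', hW', hxW'⟩ := hx
      rw [map_mul, map_prod, Finset.prod_eq_zero hW' (hf W' hW' x hxW' v hvx), mul_zero]
    rcases hP.1.mem_or_mem hmem with h | h
    · have := hPW h x₀ hx₀ v₀ hv₀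
      simp [hi] at this
    · obtain ⟨W', hW', h'⟩ := Ideal.IsPrime.prod_mem_iff.1 h
      exact hfP W' hW' h'
  obtain ⟨W', hW', hle⟩ := key
  have h1 : W ⊆ W' := c.subset_of_I_le (hSc W' hW') (hle.trans hPW)
  have h2 : W' ⊆ W := hW.2.2.2 W' (hSi W' hW') h1 (hSU ▸ Set.subset_sUnion_of_mem hW')
  exact (c.I_anti h2).trans hle

theorem Var.comp_count [IsAlgClosed k] [Finite σ] [IrreducibleSpace G] :
    ∃ C : ℕ, ∀ D : ℕ, 1 ≤ D → ∀ T : Set (MvPolynomial σ k), (∀ f ∈ T, f.totalDegree ≤ D) →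
      ∀ S : Finset (Set G),
        (∀ W ∈ S, IsComp {x | ∀ f ∈ T, ∀ v ∈ c.rep x, eval v f = 0} W) →
        S.card ≤ C * D ^ (td (c.I Set.univ) - 1) := by
  classical
  have := c.isPrime_I (IrreducibleSpace.isIrreducible_univ G)
  obtain ⟨C, hC⟩ := bezout (c.I Set.univ)
  refine ⟨C, fun D hD T hT S hS => ?_⟩
  let T' : Set (MvPolynomial σ k) := {g | ∃ f ∈ T, ∃ a : k, a ≠ 0 ∧ g = scale a f}
  have hinj : Set.InjOn c.I (S : Set (Set G)) := fun W hW W' hW' he =>
    Set.Subset.antisymm (c.subset_of_I_le (hS W' hW').2.1 he.ge)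
      (c.subset_of_I_le (hS W hW).2.1 he.le)
  rw [← Finset.card_image_of_injOn hinj]
  refine hC D 1 hD T' ?_ _ ?_
  · rintro _ ⟨f, hf, a, -, rfl⟩
    exact (totalDegree_scale_le a f).trans (hT f hf)
  · intro Q hQ
    obtain ⟨W, hW, rfl⟩ := Finset.mem_image.1 hQ
    refine ⟨c.comp_minimal (c.isClosed_zero T) (hS W hW) ?_ ?_, c.one_le_td (hS W hW).1⟩
    · refine sup_le (c.I_anti (Set.subset_univ _)) (Ideal.span_le.2 ?_)
      rintro _ ⟨f, hf, a, ha, rfl⟩
      refine c.scale_mem ?_ ha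
      exact fun y hy w hw => hy f hf w hw
    · intro v i hm hv0 hv
      obtain ⟨x, hx⟩ := c.cone_closed v i hm hv0 fun f hf =>
        hv f (Ideal.mem_sup_left fun y _ w hw => hf y w hw)
      refine ⟨x, fun f hf w hw => ?_, hx⟩
      obtain ⟨a, ha, rfl⟩ := c.exists_smul_ne hx hw
      rw [← eval_scale]
      exact hv _ (Ideal.mem_sup_right (Ideal.subset_span ⟨f, hf, a, ha, rfl⟩))

end Pool.Agent.P.MP_84b56d_ag.Q
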