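import Pool.Agent.P.MP_84b56d_ag.Q.Reg

/-! A dominant morphism contracts only finitely many divisors. -/

open MvPolynomial TopologicalSpace

namespace Pool.Agent.P.MP_84b56d_ag.Q

variable {k : Type*} [Field k] {σ τ : Type} [Finite σ] [Finite τ]

theorem td_fibre (θ : MvPolynomial τ k →ₐ[k] MvPolynomial σ k) (P : Ideal (MvPolynomial σ k))
    [P.IsPrime] : ∃ r, r ∉ P ∧ ∀ Q : Ideal (MvPolynomial σ k), Q.IsPrime → P ≤ Q → r ∉ Q →
      td Q + td (P.comap θ) ≤ td (Q.comap θ) + td P := by
  classical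
  have := Fintype.ofFinite σ
  obtain ⟨e, he⟩ := td_basis (P.comap θ)
  generalize td (P.comap θ) = m at e he ⊢
  let B : ∀ {n : ℕ}, (Fin n → σ) → Fin m ⊕ Fin n → MvPolynomial σ k := fun ε =>
    Sum.elim (fun j => θ (X (e j))) fun j => X (ε j)
  have hb : ∀ {n : ℕ} (ε : Fin n → σ),
      (AlgebraicIndependent k fun j => Ideal.Quotient.mk P (B ε j)) → m + n ≤ td P :=
    fun ε h => by simpa [td] using DimP.card_le _ h
  obtain ⟨n, ⟨ε, hε⟩, hmax⟩ := GrpP.exists_max (fun n : ℕ => ∃ ε : Fin n → σ,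
    AlgebraicIndependent k fun j => Ideal.Quotient.mk P (B ε j)) id (td P)
    (fun n ⟨ε, h⟩ => (Nat.le_add_left _ _).trans (hb ε h)) ⟨0, Fin.elim0, by
      have h1 := he.map' (f := Ideal.quotientMapₐ P θ le_rfl) Ideal.quotientMap_injective
      refine (congrArg (fun f => AlgebraicIndependent k f) (funext fun j => ?_)).mp
        (h1.comp (Equiv.sumEmpty (Fin m) (Fin 0)) (Equiv.injective _))
      rcases j with j | j
      · rfl
      · exact j.elim0⟩
  have hrel : ∀ i, ∃ p : Polynomial (MvPolynomial (Fin m ⊕ Fin n) k), p ≠ 0 ∧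
      p.eval₂ (aeval (B ε)).toRingHom (X i) ∈ P := by
    intro i
    have h1 : IsAlgebraic (Algebra.adjoin k (Set.range fun j => Ideal.Quotient.mk P (B ε j)))
        (Ideal.Quotient.mk P (X i)) := by
      by_contra h
      have h2 := ((hε.option_iff_transcendental _).2 h).comp
        (Sum.elim (fun j => some (Sum.inl j)) (Fin.cons none fun j => some (Sum.inr j)) :
          Fin m ⊕ Fin (n + 1) → _) (by
          rintro (a | a) (b | b)
          · simp
          · refine Fin.cases ?_ (fun b => ?_) b <;> simp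
          · refine Fin.cases ?_ (fun a => ?_) a <;> simp
          · refine Fin.cases ?_ (fun a => ?_) a <;> refine Fin.cases ?_ (fun b => ?_) b <;>
              simp [Fin.succ_ne_zero, (Fin.succ_ne_zero _).symm])
      refine absurd (hmax (n + 1) ⟨Fin.cons i ε, ?_⟩) (by simp)
      convert h2 using 1
      funext j
      rcases j with j | j
      · rfl
      · refine Fin.cases ?_ (fun j => ?_) j <;> rfl
    obtain ⟨p, hp, hp'⟩ := h1
    refine ⟨p.map hε.aevalEquiv.symm.toRingHom,
      (Polynomial.map_ne_zero_iff hε.aevalEquiv.symm.injective).2 hp, ?_⟩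
    rw [← Ideal.Quotient.eq_zero_iff_mem, Polynomial.hom_eval₂, Polynomial.eval₂_map, ← hp',
      Polynomial.aeval_def]
    congr 1
    refine RingHom.ext fun a => ?_
    obtain ⟨a, rfl⟩ := hε.aevalEquiv.surjective a
    have := comp_aeval_apply (B ε) (Ideal.Quotient.mkₐ k P) a
    simpa using this
  choose p hp hp' using hrel
  refine ⟨∏ i, aeval (B ε) (p i).leadingCoeff, fun h => ?_, fun Q hQ hPQ hr => ?_⟩
  · obtain ⟨i, -, hi⟩ := Ideal.IsPrime.prod_mem_iff.1 h
    refine Polynomial.leadingCoeff_ne_zero.2 (hp i) (hε.eq_zero_of_aeval_eq_zero _ ?_)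
    rw [← Ideal.Quotient.eq_zero_iff_mem] at hi
    exact (comp_aeval_apply (B ε) (Ideal.Quotient.mkₐ k P) _).symm.trans hi
  let z := fun j => Ideal.Quotient.mk Q (B ε j)
  let S := Algebra.adjoin k (Set.range z)
  let ψ : MvPolynomial (Fin m ⊕ Fin n) k →ₐ[k] S := (aeval z).codRestrict S fun a => by
    rw [show S = _ from Algebra.adjoin_range_eq_range_aeval k z]
    exact ⟨a, rfl⟩
  have hψ : ∀ a, (ψ a : MvPolynomial σ k ⧸ Q) = Ideal.Quotient.mk Q (aeval (B ε) a) := fun a =>
    (comp_aeval_apply (B ε) (Ideal.Quotient.mkₐ k Q) a).symm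
  have hX : ∀ i, IsAlgebraic S (Ideal.Quotient.mk Q (X i)) := fun i => by
    refine ⟨(p i).map ψ.toRingHom, fun h => hr ?_, ?_⟩
    · refine Ideal.mem_of_dvd _ (Finset.dvd_prod_of_mem _ (Finset.mem_univ i)) ?_
      have h1 := congrArg (fun q => ((q.coeff (p i).natDegree : S) : MvPolynomial σ k ⧸ Q)) h
      simp only [Polynomial.coeff_map, Polynomial.coeff_zero] at h1
      exact Ideal.Quotient.eq_zero_iff_mem.1 ((hψ _).symm.trans h1)
    · rw [Polynomial.aeval_def, Polynomial.eval₂_map,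
        ← Ideal.Quotient.eq_zero_iff_mem.2 (hPQ (hp' i)), Polynomial.hom_eval₂]
      congr 1
      exact RingHom.ext hψ
  have : Algebra.IsAlgebraic S (MvPolynomial σ k ⧸ Q) := ⟨fun x => by
    obtain ⟨f, rfl⟩ := Ideal.Quotient.mk_surjective x
    induction f using MvPolynomial.induction_on with
    | C a => exact isAlgebraic_algebraMap (algebraMap k S a)
    | add f g hf hg => rw [map_add]; exact hf.add hg
    | mul_X f i hf => rw [map_mul]; exact hf.mul (hX i)⟩
  obtain ⟨u, hu, hu'⟩ := DimP.exists_indep (k := k) (Set.range z)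
  choose a ha using hu
  have hinj : Function.Injective a := fun j j' h => hu'.injective (by rw [← ha, ← ha, h])
  have h1 : Fintype.card {j // (a j).isLeft} ≤ td (Q.comap θ) := by
    refine DimP.card_le (fun j : {j // (a j).isLeft} =>
      Ideal.Quotient.mk (Q.comap θ) (X (e ((a j.1).getLeft j.2))))
      (AlgebraicIndependent.of_comp (Ideal.quotientMapₐ Q θ le_rfl) ?_)
    refine (congrArg (fun f => AlgebraicIndependent k f) (funext fun j => ?_)).mp
      (hu'.comp (Subtype.val : {j // (a j).isLeft} → _) Subtype.val_injective)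
    exact (ha j.1).symm.trans (congrArg z (Sum.inl_getLeft (a j.1) j.2).symm)
  have h2 : Fintype.card {j // ¬ (a j).isLeft} ≤ n := by
    refine (Fintype.card_le_of_injective (fun j : {j // ¬ (a j).isLeft} =>
      (a j.1).getRight (by simpa using j.2)) fun j j' h => Subtype.ext (hinj ?_)).trans (by simp)
    rw [← Sum.inr_getRight (a j.1) (by simpa using j.2),
      ← Sum.inr_getRight (a j'.1) (by simpa using j'.2)]
    exact congrArg _ h
  have h3 := Fintype.card_subtype_compl fun j => (a j).isLeft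
  have h4 := Fintype.card_subtype_le fun j => (a j).isLeft
  have h5 := hb ε hε
  rw [Fintype.card_fin] at h3 h4
  change _ = td Q - _ at h3
  change _ ≤ td Q at h4
  omega

variable {H Y : Type*} [TopologicalSpace H] [TopologicalSpace Y]

theorem contracted [IsAlgClosed k] [IrreducibleSpace H] [IrreducibleSpace Y] (c : PV k σ H)
    (c' : PV k τ Y) {φ : H → Y} (hφ : Reg c.rep c'.rep φ) (hd : DenseRange φ) :
    ∃ T : Set H, T.Finite ∧ ∀ W : Set H, IsClosed W → IsIrreducible W →
      td (c'.I (φ '' W)) + 2 ≤ td (c'.I Set.univ) → Disjoint T W →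
      td (c.I W) + 2 ≤ td (c.I Set.univ) := by
  have hH := IrreducibleSpace.isIrreducible_univ H
  have := c.noetherianSpace
  have := c.isPrime_I hH
  have := c'.isPrime_I (IrreducibleSpace.isIrreducible_univ Y)
  obtain ⟨D, F, d, e, hD, hF, h1, h2⟩ := hφ.hom (Classical.arbitrary H)
  obtain ⟨r, hr, h3⟩ := td_fibre (aeval F) (c.I Set.univ)
  have hDI : D ∉ c.I Set.univ := fun h => by
    obtain ⟨v, hv⟩ := c.nonempty (Classical.arbitrary H)
    exact h1 v hv (h _ trivial v hv)
  have h4 : td (c'.I Set.univ) ≤ td ((c.I Set.univ).comap (aeval (R := k) F)) := by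
    refine td_le_of_le fun f hf y _ => ?_
    refine c'.mem_closure.1 (hd y) f ?_
    rintro _ ⟨x, rfl⟩
    have h5 : IsClosed {x | ∀ w ∈ c'.rep (φ x), eval w f = 0} := by
      simpa using (c'.isClosed_zero {f}).preimage hφ.continuous
    refine ((isPreirreducible_iff_isClosed_union_isClosed.1 hH.2 _ _ h5 (c.isClosed_zero {D})
      fun y _ => ?_).resolve_right fun h => hDI fun y hy => h hy D rfl) trivial
    by_cases h6 : ∀ v ∈ c.rep y, eval v D = 0
    · exact Or.inr fun _ e => e ▸ h6
    push Not at h6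
    obtain ⟨v, hv, h6⟩ := h6
    refine Or.inl fun w hw => ?_
    obtain ⟨a, ha, rfl⟩ := c'.exists_smul_ne (h2 y v hv h6) hw
    obtain ⟨b, rfl⟩ := IsAlgClosed.exists_pow_nat_eq a (Nat.succ_pos e)
    have h7 := hf y trivial _ (c.smul_mem y v hv b fun h => ha (by simp [h]))
    rw [eval_aeval'] at h7
    rw [← h7]
    congr 2
    funext l
    rw [eval_smul_of_hom (hF l)]
    rfl
  obtain ⟨S, hS, hc, hi, hSU⟩ :=
    NoetherianSpace.exists_finite_set_isClosed_irreducible (c.isClosed_zero {D * r})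
  choose! x hx using fun W (hW : W ∈ S) => (hi W hW).nonempty
  refine ⟨x '' S, hS.image x, fun W hW hW' h5 h6 => ?_⟩
  have := c.isPrime_I hW'
  have := c'.isPrime_I (hW'.image _ hφ.continuous.continuousOn)
  by_cases h7 : D * r ∈ c.I W
  · obtain ⟨W', h8, h9⟩ := GrpP.sub_of_cover hS hc hW' (hSU ▸ fun y hy _ e => e ▸ h7 y hy)
    have h10 := c.td_lt_td hW hW' (hi W' h8) ⟨h9, fun h =>
      Set.disjoint_left.1 h6 ⟨W', h8, rfl⟩ (h (hx W' h8))⟩
    have h11 := c.td_lt_td (hc W' h8) (hi W' h8) hH (Set.ssubset_univ_iff.2 fun h => by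
      refine (‹(c.I Set.univ).IsPrime›.mem_or_mem (fun y hy => ?_)).elim hDI hr
      exact (hSU.ge (Set.subset_sUnion_of_mem h8 (h ▸ hy))) _ rfl)
    omega
  · have h8 := h3 (c.I W) inferInstance (c.I_anti (Set.subset_univ _))
      fun h => h7 (Ideal.mul_mem_left _ _ h)
    have h9 : td ((c.I W).comap (aeval (R := k) F)) ≤ td (c'.I (φ '' W)) := by
      refine td_le_of_le fun f hf => (‹(c.I W).IsPrime›.mem_or_mem (x := D)
        fun y hy v hv => ?_).resolve_left fun h => h7 (Ideal.mul_mem_right _ _ h)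
      rw [map_mul]
      by_cases h0 : eval v D = 0
      · rw [h0, zero_mul]
      · rw [eval_aeval', hf _ ⟨y, hy, rfl⟩ _ (h2 y v hv h0), mul_zero]
    omega

end Pool.Agent.P.MP_84b56d_ag.Q
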