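import Pool.Agent.P.MP_84b56d_ag.Z.Main

/-! Quasi-projective varieties with marked coordinates, regular maps, group laws. -/

open MvPolynomial

namespace Pool.Agent.P.MP_84b56d_ag.Q

/-- a set of marked coordinates -/
class Mk (σ : Type) where
  mark : σ → Prop

export Mk (mark)

/-- primitive vector: a marked coordinate is a unit -/
def Prim {k : Type*} [Field k] {σ : Type} [Mk σ] (O : Subring k) (v : σ → k) : Prop :=
  (∀ i, v i ∈ O) ∧ ∃ i, mark i ∧ Un O (v i)

/-- a map that is locally given by polynomials in the representatives -/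
def Reg {k : Type*} [Field k] {σ τ : Type} {A B : Type*} (r : A → Set (σ → k))
    (r' : B → Set (τ → k)) (φ : A → B) : Prop :=
  ∀ x, ∀ v ∈ r x, ∃ (D : MvPolynomial σ k) (F : τ → MvPolynomial σ k), eval v D ≠ 0 ∧
    ∀ y, ∀ w ∈ r y, eval w D ≠ 0 → (fun l => eval w (F l)) ∈ r' (φ y)

/-- representatives of pairs -/
def two {k : Type*} {σ τ : Type} {A B : Type*} (r : A → Set (σ → k)) (r' : B → Set (τ → k))
    (p : A × B) : Set (σ ⊕ τ → k) :=
  {u | ∃ v ∈ r p.1, ∃ w ∈ r' p.2, u = Sum.elim v w}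

/-- a set of points of a projective space -/
structure Raw (k : Type*) (σ : Type) (G : Type*) [Field k] where
  rep : G → Set (σ → k)
  ne_zero : ∀ x, ∀ v ∈ rep x, v ≠ 0
  nonempty : ∀ x, (rep x).Nonempty
  smul_mem : ∀ x, ∀ v ∈ rep x, ∀ a : k, a ≠ 0 → a • v ∈ rep x
  exists_smul : ∀ x, ∀ v ∈ rep x, ∀ w ∈ rep x, ∃ a : k, w = a • v
  eq_of_mem : ∀ x y, ∀ v ∈ rep x, v ∈ rep y → x = y

/-- the ideal of polynomials vanishing at all representatives of the points of `Y` -/
def Raw.I {k : Type*} {σ : Type} {G : Type*} [Field k] (c : Raw k σ G) (Y : Set G) :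
    Ideal (MvPolynomial σ k) where
  carrier := {f | ∀ y ∈ Y, ∀ w ∈ c.rep y, eval w f = 0}
  zero_mem' := by intro y _ w _; simp
  add_mem' := by
    intro a b ha hb y hy w hw
    simp [ha y hy w hw, hb y hy w hw]
  smul_mem' := by
    intro a b hb y hy w hw
    simp [hb y hy w hw]

/-- with its Zariski topology -/
structure PV (k : Type*) (σ : Type) (G : Type*) [Field k] [TopologicalSpace G]
    extends Raw k σ G where
  isClosed_iff : ∀ Y : Set G, IsClosed Y ↔ ∀ x, (∀ f : MvPolynomial σ k,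
    (∀ y ∈ Y, ∀ w ∈ rep y, eval w f = 0) → ∀ v ∈ rep x, eval v f = 0) → x ∈ Y

/-- closed in the complement of the common zeros of the marked coordinates -/
structure Var (k : Type*) (σ : Type) (G : Type*) [Field k] [TopologicalSpace G] [Mk σ]
    extends PV k σ G where
  mark_ne : ∀ x, ∀ v ∈ rep x, ∃ i, mark i ∧ v i ≠ 0
  cone_closed : ∀ (v : σ → k) (i : σ), mark i → v i ≠ 0 →
    (∀ f : MvPolynomial σ k, (∀ x, ∀ w ∈ rep x, eval w f = 0) → eval v f = 0) → ∃ x, v ∈ rep x

/-- an algebraic group, written additively, with a finite complete family of addition laws -/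
structure Ctx (k : Type*) (σ : Type) (G : Type*) [Field k] [AddGroup G] [TopologicalSpace G]
    [Mk σ] extends Var k σ G where
  N : ℕ
  law : Fin N → σ → MvPolynomial (σ ⊕ σ) k
  law_mem : ∀ α x y, ∀ v ∈ rep x, ∀ w ∈ rep y, ∀ l, eval (Sum.elim v w) (law α l) ≠ 0 →
    (fun l => eval (Sum.elim v w) (law α l)) ∈ rep (x + y)
  law_cover : ∀ x y, ∀ v ∈ rep x, ∀ w ∈ rep y, ∃ α l, eval (Sum.elim v w) (law α l) ≠ 0
  neg_reg : Reg rep rep fun x => -x

/-- congruence of two points modulo `J` -/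
def Raw.Cong {k : Type*} {σ : Type} {G : Type*} [Field k] [Mk σ]
    (c : Raw k σ G) (O : Subring k) (J : AddSubgroup k) (x y : G) : Prop :=
  ∃ v ∈ c.rep x, ∃ w ∈ c.rep y, Prim O v ∧ Prim O w ∧ ∀ i, v i - w i ∈ J

/-- the addition laws are defined over `O` and complete on primitive vectors, and the inverse of
an integral point is integral -/
def Ctx.Good {k : Type*} {σ : Type} {G : Type*} [Field k] [AddGroup G] [TopologicalSpace G]
    [Mk σ] (c : Ctx k σ G) (O : Subring k) : Prop :=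
  (∀ α l m, coeff m (c.law α l) ∈ O) ∧ (∀ x y, ∀ v ∈ c.rep x, ∀ w ∈ c.rep y, Prim O v →
    Prim O w → ∃ α l, mark l ∧ Un O (eval (Sum.elim v w) (c.law α l))) ∧
    ∀ x, (∃ v ∈ c.rep x, Prim O v) → ∃ v ∈ c.rep (-x), Prim O v

end Pool.Agent.P.MP_84b56d_ag.Q
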