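import Pool.Agent.P.MP_84b56d_ag.Q.Height

/-! The determinant estimate on a commutative algebraic group. -/

open MvPolynomial TopologicalSpace Module Pool.Agent.P.MP_84b56d_ag.Z

namespace Pool.Agent.P.MP_84b56d_ag.Q

variable {k : Type*} {σ : Type} {G : Type*} [Field k] [AddCommGroup G] [TopologicalSpace G] [Mk σ]
  (c : Ctx k σ G)

/-- the point reduces into the zero set of `b` -/
def BadG (b : Set (MvPolynomial σ k)) (O : Subring k) (J : AddSubgroup k) (x : G) : Prop :=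
  ∃ v ∈ c.rep x, Prim O v ∧ ∀ f ∈ b, eval v f ∈ J

/-- the zero set of `b` -/
def ZS (b : Set (MvPolynomial σ k)) : Set G := {x | ∀ f ∈ b, ∀ v ∈ c.rep x, eval v f = 0}

theorem td_chart [IsAlgClosed k] [Finite σ] (b : Set (MvPolynomial σ k))
    (hb : ∀ f ∈ b, ∃ d, f.IsHomogeneous d) (d : ℕ)
    (hd : ∀ W, IsClosed W → IsIrreducible W → W ⊆ ZS c b → td (c.I W) ≤ d + 1) (i : σ) (hm : mark i)
    (P : Ideal (MvPolynomial σ k)) (hP : P.IsPrime)
    (h : Ideal.span (insert (X i - 1) (b ∪ c.I Set.univ)) ≤ P) : td P ≤ d := by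
  classical
  have := c.noetherianSpace
  rw [Ideal.span_le] at h
  have h1 : X i - 1 ∈ P := h (Set.mem_insert _ _)
  have hI : c.I (ZS c b) ≤ P := fun f hf => mem_of_vanish P fun v hv => by
    have hi : v i = 1 := by simpa [sub_eq_zero] using hv _ h1
    obtain ⟨x, hx⟩ := c.cone_closed v i hm (by simp [hi])
      fun g hg => hv g (h (Or.inr (Or.inr fun y _ => hg y)))
    refine hf x (fun g hg w hw => ?_) v hx
    obtain ⟨a, rfl⟩ := c.exists_smul x v hx w hw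
    obtain ⟨e, he⟩ := hb g hg
    rw [eval_smul_of_hom he, hv g (h (Or.inr (Or.inl hg))), mul_zero]
  obtain ⟨S, hS, hc, hi, hXS⟩ :=
    NoetherianSpace.exists_finite_set_isClosed_irreducible (c.isClosed_zero b)
  obtain ⟨W, hW, hWP⟩ := (Ideal.IsPrime.inf_le' (s := hS.toFinset) (f := c.I) hP).1
    (le_trans (b := c.I (ZS c b)) (fun f hf => c.mem_I.2 fun y hy w hw => by
      obtain ⟨W, hW, hy⟩ : y ∈ ⋃₀ S := hXS ▸ hy
      exact (Finset.inf_le (f := c.I) (hS.mem_toFinset.2 hW) hf) y hy w hw) hI)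
  rw [hS.mem_toFinset] at hW
  have := c.isPrime_I (hi W hW)
  have h2 := hd W (hc W hW) (hi W hW) (by
    change W ⊆ {x | ∀ f ∈ b, ∀ v ∈ c.rep x, eval v f = 0}
    rw [hXS]; exact Set.subset_sUnion_of_mem hW)
  have h3 : c.I W < P := by
    refine lt_of_le_of_ne hWP fun e => ?_
    rw [← e] at h1
    obtain ⟨x, hx⟩ := (hi W hW).nonempty
    obtain ⟨v, hv⟩ := c.nonempty x
    obtain ⟨a, ha⟩ := Infinite.exists_notMem_finset ({0, 1} : Finset k)
    simp only [Finset.mem_insert, Finset.mem_singleton, not_or] at ha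
    have h4 := h1 x hx v hv
    have h5 := h1 x hx _ (c.smul_mem x v hv a ha.1)
    simp only [map_sub, eval_X, map_one, sub_eq_zero, Pi.smul_apply, smul_eq_mul] at h4 h5
    rw [h4, mul_one] at h5
    exact ha.2 h5
  have := td_lt h3
  omega

variable {c} in
theorem BadG.chart {b : Set (MvPolynomial σ k)} (hb : ∀ f ∈ b, ∃ d, f.IsHomogeneous d)
    {O : Subring k} {J : AddSubgroup k} (hL : Loc O J) {z : G} (h : BadG c b O J z) :
    ∃ i : {i : σ // mark i}, ∃ v ∈ c.rep z, Prim O v ∧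
      ∀ f ∈ insert (X i.1 - 1) (b ∪ c.I Set.univ), eval v f ∈ J := by
  obtain ⟨v, hv, pv, h⟩ := h
  obtain ⟨i, hm, hi⟩ := pv.2
  have hr := c.smul_mem z v hv _ hi.inv.2.1
  have h1 : ((v i)⁻¹ • v) i = 1 := inv_mul_cancel₀ hi.2.1
  refine ⟨⟨i, hm⟩, _, hr, ⟨fun l => O.mul_mem hi.2.2 (pv.1 l), i, hm, h1 ▸ un_one⟩, ?_⟩
  rintro f (rfl | hf | hf)
  · rw [map_sub, eval_X, h1, map_one, sub_self]
    exact J.zero_mem
  · obtain ⟨e, he⟩ := hb f hf
    rw [eval_smul_of_hom he]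
    exact hL.mul _ (O.pow_mem hi.2.2 e) _ (h f hf)
  · rw [hf z trivial _ hr]
    exact J.zero_mem

theorem exists_ops [IsAlgClosed k] [Finite σ] (b : Set (MvPolynomial σ k))
    (hb : ∀ f ∈ b, ∃ d, f.IsHomogeneous d) (d : ℕ)
    (hd : ∀ W, IsClosed W → IsIrreducible W → W ⊆ ZS c b → td (c.I W) ≤ d + 1) :
    ∃ (o : {i : σ // mark i} × Fin c.N → Op k σ d) (E : Set k), E.Finite ∧ (∀ θ, (o θ).Co E) ∧
      ∀ O J, Loc O J → E ⊆ O → c.Good O → ∀ y z, BadG c b O J z → ∀ w ∈ c.rep y, Prim O w →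
        ∃ θ, ∃ x ∈ c.rep (z + y), Prim O x ∧ (o θ).Rel O J w x := by
  choose N y s hs using fun i : {i : σ // mark i} =>
    noether_data _ d (td_chart c b hb d hd i i.2)
  choose c0 hc0 using fun i => hs i 1
  choose E0 hE0 h0 using fun i => span_eval _ (hc0 i)
  choose M E1 hE1 h1 using fun (θ : {i : σ // mark i} × Fin c.N) l a =>
    exists_mat _ (y θ.1) (s θ.1) (hs θ.1) (c.law θ.2 l) (s θ.1 a)
  let o : {i : σ // mark i} × Fin c.N → Op k σ d := fun θ => ⟨N θ.1, c0 θ.1, M θ⟩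
  choose E2 hE2 h2 using fun θ => (o θ).exists_co
  refine ⟨o, (⋃ θ, E2 θ) ∪ ((⋃ i, E0 i) ∪ ((⋃ θ, ⋃ l, ⋃ a, E1 θ l a) ∪
    ((⋃ i, ⋃ a, Set.range fun m => coeff m (y i a)) ∪ ⋃ i, ⋃ a, Set.range fun m =>
      coeff m (s i a)))), (Set.finite_iUnion hE2).union ((Set.finite_iUnion hE0).union
    ((Set.finite_iUnion fun θ => Set.finite_iUnion fun l => Set.finite_iUnion (hE1 θ l)).union
      ((Set.finite_iUnion fun _ => Set.finite_iUnion fun _ => finite_coeffs _).union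
        (Set.finite_iUnion fun _ => Set.finite_iUnion fun _ => finite_coeffs _)))),
    fun θ => (h2 θ).mono ((Set.subset_iUnion E2 θ).trans Set.subset_union_left),
    fun O J hL hE hG y' z hz w hw pw => ?_⟩
  simp only [Set.union_subset_iff, Set.iUnion_subset_iff, Set.range_subset_iff] at hE
  obtain ⟨-, e0, e1, e2, e3⟩ := hE
  obtain ⟨i, v, hv, pv, hT⟩ := hz.chart hb hL
  obtain ⟨α, l, hm, hl⟩ := hG.2.1 z y' v hv w hw pv pw
  refine ⟨(i, α), _, c.law_mem α z y' v hv w hw l hl.2.1, ⟨fun l' => eval_mem (hG.1 α l') ?_, l, hm, hl⟩,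
    fun a => eval v (y i a), fun a => eval v (s i a), fun a => eval_mem (e2 i a) pv.1,
    fun a => eval_mem (e3 i a) pv.1, ?_, fun l' a => h1 (i, α) l' a O J hL (e1 _ _ _) v w pv.1 pw.1 hT⟩
  · rintro (j | j)
    · exact pv.1 j
    · exact pw.1 j
  · have := h0 i O J hL (e0 i) v pv.1 hT
    simpa only [map_sub, map_one, map_sum, map_mul, eval_aeval'] using this

theorem not_bad_of_empty [IsAlgClosed k] [Finite σ] (b : Set (MvPolynomial σ k))
    (hb : ∀ f ∈ b, ∃ d, f.IsHomogeneous d) (hZ : ZS c b = ∅) :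
    ∃ E : Set k, E.Finite ∧ ∀ O J, Loc O J → E ⊆ O → ∀ z, ¬ BadG c b O J z := by
  have h : ∀ i : {i : σ // mark i},
      (1 : MvPolynomial σ k) ∈ Ideal.span (insert (X i.1 - 1) (b ∪ c.I Set.univ)) := by
    intro i
    rw [← Ideal.eq_top_iff_one]
    by_contra hne
    obtain ⟨P, hP, h⟩ := Ideal.exists_le_maximal _ hne
    have := hP.isPrime
    rw [Ideal.span_le] at h
    refine hP.ne_top ((Ideal.eq_top_iff_one _).2 (mem_of_vanish P fun v hv => ?_))
    have hi : v i = 1 := by simpa [sub_eq_zero] using hv _ (h (Set.mem_insert _ _))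
    obtain ⟨x, hx⟩ := c.cone_closed v i i.2 (by simp [hi])
      fun g hg => hv g (h (Or.inr (Or.inr fun y _ => hg y)))
    refine absurd (hZ ▸ (fun g hg w hw => ?_ : x ∈ ZS c b)) (Set.notMem_empty x)
    obtain ⟨a, rfl⟩ := c.exists_smul x v hx w hw
    obtain ⟨e, he⟩ := hb g hg
    rw [eval_smul_of_hom he, hv g (h (Or.inr (Or.inl hg))), mul_zero]
  choose E hE h' using fun i => span_eval _ (h i)
  refine ⟨⋃ i, E i, Set.finite_iUnion hE, fun O J hL hO z hz => ?_⟩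
  obtain ⟨i, v, -, pv, hT⟩ := hz.chart hb hL
  have := h' i O J hL ((Set.subset_iUnion E i).trans hO) v pv.1 hT
  rw [map_one] at this
  exact hL.nonunit _ this un_one

open Classical in
theorem det_main [IsAlgClosed k] [Finite σ] [IrreducibleSpace G] (g : ℕ)
    (hg : td (c.I Set.univ) = g + 1) (hg1 : 1 ≤ g) (b : Set (MvPolynomial σ k))
    (hb : ∀ f ∈ b, ∃ d, f.IsHomogeneous d) (d : ℕ)
    (hd : ∀ W, IsClosed W → IsIrreducible W → W ⊆ ZS c b → td (c.I W) ≤ d + 1) :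
    ∃ (C₀ C₁ : ℕ) (E₁ : Set k), E₁.Finite ∧ ∀ (E : Set k) (A : Arith k E), E₁ ⊆ E → ∃ C : ℕ,
      ∀ (Γ : Type) [AddCommGroup Γ] (φ : Γ →+ G), (∀ q a, ∃ v ∈ c.rep (φ a), Prim (A.O q) v) →
      (∀ a, ∃ v ∈ c.rep (φ a), ∀ l, v l ∈ A.R) → ∀ μ L : ℕ, 1 ≤ μ → ∀ S : Finset Γ, 0 ∈ S →
      (∀ W : Set G, IsClosed W → W.Nonempty → W ≠ Set.univ → ∃ S' ⊆ S, C₀ * μ ^ g < S'.card ∧
        ∀ a ∈ S', ∀ a' ∈ S', a ≠ a' → ¬ ∀ w ∈ W, w + φ (a - a') ∈ W) →
      (∀ τ : Fin g → Γ, (∀ i, τ i ∈ S) → ∃ v ∈ c.rep (φ (∑ i, τ i)), ∀ l, A.Sm L (v l)) →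
      ∀ Ω : Finset Γ, (∀ t ∈ Ω, ∃ w ∈ c.rep (φ (-t)), ∀ l, A.Sm L (w l)) →
      ∃ (I : Finset (Fin g → Fin (μ + 1))) (p : (Fin g → Fin (μ + 1)) → Γ),
        (∀ i ∈ I, ∃ τ : Fin g → Γ, (∀ j, τ j ∈ S) ∧ p i = ∑ j, τ j) ∧
        (μ + 1) ^ g ≤ I.card + C₁ * μ ^ d * Ω.card ∧ ∀ (Q : Finset A.Pr) (e : ℕ),
          (∀ q ∈ Q, ∃ T : Finset Γ, e + C₁ * μ ^ d * T.card ≤
            (I.filter fun i => ∃ t ∈ Ω ∪ T, BadG c b (A.O q) (A.M q) (φ (p i + t))).card) →
          e * Q.card ≤ C * (μ + 1) ^ g * μ * (L + 1) := by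
  have := c.isPrime_I (IrreducibleSpace.isIrreducible_univ G)
  obtain ⟨C₀, hC₀⟩ := zero_estimate c g hg
  obtain ⟨e, he⟩ : ∃ e : Fin (g + 1) → σ,
      AlgebraicIndependent k fun j => Ideal.Quotient.mk (c.I Set.univ) (X (e j)) := by
    have := td_basis (c.I Set.univ)
    rwa [hg] at this
  obtain ⟨o, E₁, hE₁, hco, hops⟩ := exists_ops c b hb d hd
  obtain ⟨E₂, hE₂, -, hgood⟩ := c.exists_good
  obtain ⟨C₁, hC₁⟩ := exists_cs o
  refine ⟨C₀ * g ^ g, C₁ * (g + 1) ^ d, E₁ ∪ E₂, hE₁.union hE₂, fun E A hE => ?_⟩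
  rw [Set.union_subset_iff] at hE
  obtain ⟨B, D, hBD⟩ := hC₁ E A fun θ => (hco θ).mono hE.1
  refine ⟨A.C * ((g + 1) * (B + D) + g + 1),
    fun Γ _ φ hprim hint μ L hμ S h0 hS hsm Ω hΩ => ?_⟩
  let ι := Fin g → Fin (μ + 1)
  choose Ls hL1 hL2 using fun n : ι => exists_list (k := k) Finset.univ e (expo g μ n)
  simp only [sum_expo] at hL1
  have hw : ∀ t, ∃ w ∈ c.rep (φ (-t)), (∀ l, w l ∈ A.R) ∧ (t ∈ Ω → ∀ l, A.Sm L (w l)) := by
    intro t
    by_cases ht : t ∈ Ω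
    · obtain ⟨w, h1, h2⟩ := hΩ t ht
      exact ⟨w, h1, fun l => (h2 l).1, fun _ => h2⟩
    · obtain ⟨w, h1, h2⟩ := hint (-t)
      exact ⟨w, h1, h2, fun h => absurd h ht⟩
  choose w hw1 hw2 hw3 using hw
  choose CS hc1 hc2 hc3 using fun t => hBD ι Ls (g * μ) hL1 (w t)
  have hcard : ∀ T : Finset Γ, finrank k (Submodule.span k (T.biUnion CS : Set (ι → k))) ≤
      C₁ * (g + 1) ^ d * μ ^ d * T.card := fun T => by
    refine (finrank_span_finset_le_card _).trans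
      ((Finset.card_biUnion_le_card_mul _ _ _ fun t _ => hc1 t).trans ?_)
    rw [mul_comm, mul_assoc C₁ ((g + 1) ^ d), ← mul_pow]
    exact Nat.mul_le_mul_right _
      (Nat.mul_le_mul_left _ (Nat.pow_le_pow_left (by nlinarith) _))
  let row : (σ → k) → ι → k := fun v n => ∏ j, v (e j) ^ expo g μ n j
  let Ωr : Set (ι → k) := {ρ | ∃ τ : Fin g → Γ, (∀ i, τ i ∈ S) ∧ ∃ v ∈ c.rep (φ (∑ i, τ i)),
    (∀ l, A.Sm L (v l)) ∧ ρ = row v}
  obtain ⟨M, I₀, hdet, hI₀, hM₀, hM⟩ := exists_det_ne' (Ω.biUnion CS : Set (ι → k)) Ωr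
    fun a ha => by
    by_contra hne
    let f : MvPolynomial σ k := ∑ n, C (a n) * ∏ j, X (e j) ^ expo g μ n j
    have hf : f.IsHomogeneous (g * μ) := by
      refine IsHomogeneous.sum _ _ _ fun n _ => IsHomogeneous.C_mul ?_ _
      rw [← sum_expo g μ n]
      exact IsHomogeneous.prod _ _ _ fun j _ => isHomogeneous_X_pow _ _
    have hfI : f ∉ c.I Set.univ := fun h => hne (indep_mono e he _ (expo_inj g μ) a h)
    have := hC₀ (g * μ) f (Nat.mul_pos hg1 hμ) hf hfI (S.image φ)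
      (Finset.mem_image.2 ⟨0, h0, map_zero _⟩) (C₀ * g ^ g * μ ^ g + 1) (fun W h1 h2 h3 => by
        obtain ⟨S', h4, h5, h6⟩ := hS W h1 h2 h3
        refine ⟨S'.image φ, Finset.image_subset_image h4, ?_, fun a ha a' ha' haa => ?_⟩
        · rwa [Finset.card_image_of_injOn fun a ha a' ha' haa => by_contra fun h =>
            h6 a ha a' ha' h fun w hw => by rwa [map_sub, haa, sub_self, add_zero]]
        · obtain ⟨a, h7, rfl⟩ := Finset.mem_image.1 ha
          obtain ⟨a', h8, rfl⟩ := Finset.mem_image.1 ha'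
          rw [← map_sub]
          exact h6 a h7 a' h8 fun h => haa (by rw [h])) fun τ hτ w hw => by
      choose τ' hτ' hτe using fun i => Finset.mem_image.1 (hτ i)
      obtain ⟨v, hv, hvs⟩ := hsm τ' hτ'
      obtain ⟨β, rfl⟩ := c.exists_smul _ v hv w (by simpa only [map_sum, hτe] using hw)
      rw [eval_smul_of_hom hf]
      have h1 := ha _ ⟨τ', hτ', v, hv, hvs, rfl⟩
      have h2 : eval v f = ∑ n, row v n * a n := by
        simp only [f, row, map_sum, map_mul, eval_C, map_prod, map_pow, eval_X]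
        exact Finset.sum_congr rfl fun n _ => mul_comm _ _
      rw [h2, h1, mul_zero]
    rw [mul_pow, ← mul_assoc] at this
    omega
  choose! τ hτ v hv hvs hrow using hM
  have hK : Fintype.card ι = (μ + 1) ^ g := by simp [ι]
  have hK2 : Fintype.card ι ≤ 2 ^ (g * μ) := by
    rw [hK, mul_comm, pow_mul]
    exact Nat.pow_le_pow_left Nat.lt_two_pow_self _
  have hent : ∀ i n, A.Sm ((g * μ + 1) * (B + D * L) + g * μ * L) (M i n) := by
    intro i n
    by_cases hi : i ∈ I₀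
    · obtain ⟨t, ht, hu⟩ := Finset.mem_biUnion.1 (hM₀ i hi)
      exact (hc2 t L (hw3 t ht) _ hu n).mono (Nat.le_add_right _ _)
    · rw [hrow i hi]
      have := Arith.sm_prod_pow Finset.univ (fun j => v i (e j)) (expo g μ n) L
        fun j _ => hvs i hi _
      rw [sum_expo] at this
      exact this.mono (Nat.le_add_left _ _)
  have hsmall := Arith.sm_det M _ _ hK2 hent
  refine ⟨I₀ᶜ, fun i => ∑ j, τ i j, fun i hi => ⟨τ i, hτ i (Finset.mem_compl.1 hi), rfl⟩, ?_,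
    fun Q a hQ => ?_⟩
  · have h1 := hcard Ω
    have h2 := Finset.card_add_card_compl I₀
    rw [← hK]
    omega
  have hcount := A.count' hdet a _ hsmall Q fun q hq => by
    obtain ⟨T, hT⟩ := hQ q hq
    have hL := A.loc q
    have hπ : (A.π q.1 : k) ∈ A.O q := A.R_le_O q (A.π q.1).2
    set I₁ := I₀ᶜ.filter fun i => ∃ t ∈ Ω ∪ T, BadG c b (A.O q) (A.M q) (φ (∑ j, τ i j + t))
    let V := Submodule.span k (Ω.biUnion CS : Set (ι → k)) ⊔
      Submodule.span k (T.biUnion CS : Set (ι → k))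
    refine prin_pow_anti hπ (show a ≤ (I₀ ∪ I₁).card - finrank k V from ?_)
      (det_mem_prin_of_rank _ _ hπ M (fun i n => A.R_le_O q (hent i n).1) _ V fun i hi => ?_)
    · have h1 := Submodule.finrank_add_le_finrank_add_finrank
        (Submodule.span k (Ω.biUnion CS : Set (ι → k)))
        (Submodule.span k (T.biUnion CS : Set (ι → k)))
      have h2 := hcard T
      rw [Finset.card_union_of_disjoint (s := I₀) (t := I₁)
        (disjoint_compl_right.mono_right (Finset.filter_subset _ _))]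
      change finrank k V ≤ _ at h1
      omega
    rcases Finset.mem_union.1 hi with hi | hi
    · exact ⟨M i, Submodule.mem_sup_left (Submodule.subset_span (hM₀ i hi)), fun n => by simp⟩
    obtain ⟨hi, t, ht, hbad⟩ := Finset.mem_filter.1 hi
    rw [Finset.mem_compl] at hi
    obtain ⟨u, hu, pu⟩ := hprim q (-t)
    obtain ⟨β, -, hβ, -⟩ := Raw.prim_smul hu (hw1 t) pu fun l => A.R_le_O q (hw2 t l)
    obtain ⟨j, hm, hj⟩ := pu.2
    have hβ0 : β ≠ 0 := fun h => c.ne_zero _ _ (hw1 t) (by rw [hβ, h, zero_smul])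
    have hj0 : w t j ≠ 0 := by rw [hβ]; exact mul_ne_zero hβ0 hj.2.1
    have pw : Prim (A.O q) ((w t j)⁻¹ • w t) := by
      refine ⟨fun l => ?_, j, hm, by simpa [hj0] using un_one⟩
      have : ((w t j)⁻¹ • w t) l = (u j)⁻¹ * u l := by
        have := hj.2.1
        simp only [hβ, Pi.smul_apply, smul_eq_mul]
        field_simp
      rw [this]
      exact (A.O q).mul_mem hj.2.2 (pu.1 l)
    obtain ⟨θ, x, hx, px, hrel⟩ := hops _ _ hL (hE.1.trans (A.subset_O q))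
      (hgood _ hL.loc (hE.2.trans (A.subset_O q))) _ _ hbad _
      (c.smul_mem _ _ (hw1 t) _ (inv_ne_zero hj0)) pw
    rw [← map_add, add_neg_cancel_right] at hx
    obtain ⟨y, hy, h'⟩ := hc3 t _ _ hL (A.subset_O q) θ j x hj0 pw.1 px.1 hrel
    obtain ⟨γ, hγ, hγ', -⟩ := Raw.prim_smul hx (hv i hi) px fun l => A.R_le_O q (hvs i hi l).1
    refine ⟨γ ^ (g * μ) • y, V.smul_mem _ ?_, fun n => ?_⟩
    · rcases Finset.mem_union.1 ht with ht | ht
      · exact Submodule.mem_sup_left (Submodule.span_mono (Finset.subset_biUnion_of_mem CS ht) hy)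
      · exact Submodule.mem_sup_right (Submodule.span_mono (Finset.subset_biUnion_of_mem CS ht) hy)
    · have := hL.mul _ ((A.O q).pow_mem hγ (g * μ)) _ (h' n)
      rw [hrow i hi, hγ']
      refine (congrArg (· ∈ A.M q) ?_).mp this
      simp only [row, hL2, Pi.smul_apply, smul_eq_mul, mul_pow, Finset.prod_mul_distrib,
        Finset.prod_pow_eq_pow_sum, sum_expo, mul_sub]
  rw [← hK]
  have hpos : 0 < Fintype.card ι := hK ▸ Nat.pow_pos (Nat.succ_pos μ)
  refine hcount.trans ?_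
  rw [mul_assoc A.C, mul_assoc A.C, mul_assoc A.C]
  refine Nat.mul_le_mul_left _ ?_
  have h1 : (g * μ + 1) * (B + D * L) ≤ (g + 1) * μ * ((B + D) * (L + 1)) :=
    Nat.mul_le_mul (by nlinarith) (by nlinarith)
  have h2 : 1 ≤ Fintype.card ι * (μ * (L + 1)) :=
    Nat.mul_pos hpos (Nat.mul_pos hμ (Nat.succ_pos L))
  have h3 := Nat.mul_le_mul_left (Fintype.card ι) h1
  nlinarith

end Pool.Agent.P.MP_84b56d_ag.Q
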