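import Pool.Agent.P.MP_84b56d_ag.Q.Law

/-! The formal group and the saturation of closed subgroups near the origin. -/

open MvPolynomial TopologicalSpace

namespace Pool.Agent.P.MP_84b56d_ag.Q

variable {k : Type*} [Field k] {σ : Type} {G : Type*} [AddGroup G] [TopologicalSpace G] [Mk σ]
  {c : Ctx k σ G} {O : Subring k} {J J₂ : AddSubgroup k}

/-- normalised representative near the origin -/
def Ctx.Nrm (c : Ctx k σ G) (J : AddSubgroup k) (v₀ : σ → k) (i₀ : σ) (x : G) (δ : σ → k) : Prop :=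
  v₀ + δ ∈ c.rep x ∧ δ i₀ = 0 ∧ ∀ l, δ l ∈ J

theorem Ctx.Nrm.prim (hL : Loc O J) {v₀ : σ → k} {i₀ : σ} (hm : mark i₀) (h1 : v₀ i₀ = 1) (hO : ∀ l, v₀ l ∈ O)
    {x : G} {δ : σ → k} (h : c.Nrm J v₀ i₀ x δ) : Prim O (v₀ + δ) :=
  ⟨fun l => O.add_mem (hO l) (hL.le _ (h.2.2 l)), i₀, hm, by simpa [h1, h.2.1] using un_one⟩

theorem Ctx.Nrm.cong (hL : Loc O J) {v₀ : σ → k} {i₀ : σ} (h0 : v₀ ∈ c.rep 0) (hm : mark i₀) (h1 : v₀ i₀ = 1)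
    (hO : ∀ l, v₀ l ∈ O) {x : G} {δ : σ → k} (h : c.Nrm J v₀ i₀ x δ) : c.Cong O J x 0 :=
  ⟨_, h.1, _, h0, h.prim hL hm h1 hO, ⟨hO, i₀, hm, h1 ▸ un_one⟩, fun l => by simpa using h.2.2 l⟩

theorem Ctx.cong_nrm (hL : Loc O J) {v₀ : σ → k} {i₀ : σ} (h0 : v₀ ∈ c.rep 0) (hm : mark i₀) (h1 : v₀ i₀ = 1)
    (hO : ∀ l, v₀ l ∈ O) {x : G} (h : c.Cong O J x 0) : ∃ δ, c.Nrm J v₀ i₀ x δ := by
  obtain ⟨w, hw, pw, hvw⟩ := h.symm.of_prim hL h0 ⟨hO, i₀, hm, h1 ▸ un_one⟩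
  have hu : Un O (w i₀) := hL.un_of_sub_mem (h1 ▸ un_one) (hvw i₀)
  have hne := hu.2.1
  refine ⟨(w i₀)⁻¹ • w - v₀, ?_, by simp [h1, hne], fun l => ?_⟩
  · rw [add_sub_cancel]
    exact c.smul_mem x w hw _ (inv_ne_zero hne)
  · have e : ((w i₀)⁻¹ • w - v₀) l =
        (w i₀)⁻¹ * (v₀ l * (v₀ i₀ - w i₀) - (v₀ l - w l)) := by
      simp only [Pi.sub_apply, Pi.smul_apply, smul_eq_mul, h1]
      field_simp
      ring
    rw [e]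
    exact hL.mul _ hu.2.2 _ (J.sub_mem (hL.mul _ (hO l) _ (hvw i₀)) (hvw l))

theorem Ctx.Nrm.add (hL : Loc O J) (hG : c.Good O) (h₂ : ∀ a ∈ O, ∀ b ∈ J₂, a * b ∈ J₂)
    (hJ : ∀ a ∈ J, ∀ b ∈ J, a * b ∈ J₂) (hle : J₂ ≤ J) {v₀ : σ → k} {i₀ : σ} (h0 : v₀ ∈ c.rep 0)
    (hm : mark i₀) (h1 : v₀ i₀ = 1) (hO : ∀ l, v₀ l ∈ O) {x y : G} {δ ε : σ → k} (hx : c.Nrm J v₀ i₀ x δ)
    (hy : c.Nrm J v₀ i₀ y ε) :
    ∃ η, c.Nrm J v₀ i₀ (x + y) η ∧ ∀ l, η l - δ l - ε l ∈ J₂ := by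
  have p0 : Prim O v₀ := ⟨hO, i₀, hm, h1 ▸ un_one⟩
  have px := hx.prim hL hm h1 hO
  have py := hy.prim hL hm h1 hO
  obtain ⟨α, l₀, -, hu⟩ := hG.2.1 0 0 v₀ h0 v₀ h0 p0 p0
  let F : (σ → k) → (σ → k) → σ → k := fun v w l => eval (Sum.elim v w) (c.law α l)
  have hcong : ∀ v w : σ → k, (∀ l, v l ∈ O) → (∀ l, w l ∈ O) → (∀ l, v₀ l - v l ∈ J) →
      (∀ l, v₀ l - w l ∈ J) → ∀ l, F v₀ v₀ l - F v w l ∈ J := by
    intro v w hv hw h h' l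
    refine hL.eval_sub_mem (hG.1 α l) ?_ ?_ ?_
    · rintro (i | i) <;> exact hO i
    · rintro (i | i)
      · exact hv i
      · exact hw i
    · rintro (i | i)
      · exact h i
      · exact h' i
  have hz : ∀ l, v₀ l - v₀ l ∈ J := fun l => by simp
  have hδ : ∀ l, v₀ l - (v₀ + δ) l ∈ J := fun l => by simpa using hx.2.2 l
  have hε : ∀ l, v₀ l - (v₀ + ε) l ∈ J := fun l => by simpa using hy.2.2 l
  have hrep : ∀ (a b : G) (v w : σ → k), v ∈ c.rep a → w ∈ c.rep b → (∀ l, v l ∈ O) →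
      (∀ l, w l ∈ O) → (∀ l, v₀ l - v l ∈ J) → (∀ l, v₀ l - w l ∈ J) → F v w ∈ c.rep (a + b) :=
    fun a b v w ha hb hv hw h h' => c.law_mem α a b v ha w hb l₀
      (hL.un_of_sub_mem hu (hcong v w hv hw h h' l₀)).2.1
  obtain ⟨a, ha⟩ := c.exists_smul x _ hx.1 _
    (by simpa using hrep x 0 _ _ hx.1 h0 px.1 hO hδ hz)
  obtain ⟨b, hb⟩ := c.exists_smul y _ hy.1 _
    (by simpa using hrep 0 y _ _ h0 hy.1 hO py.1 hz hε)
  obtain ⟨d, hd⟩ := c.exists_smul 0 _ h0 _ (by simpa using hrep 0 0 _ _ h0 h0 hO hO hz hz)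
  have ha' : F (v₀ + δ) v₀ i₀ = a := by rw [ha]; simp [h1, hx.2.1]
  have hb' : F v₀ (v₀ + ε) i₀ = b := by rw [hb]; simp [h1, hy.2.1]
  have hd' : F v₀ v₀ i₀ = d := by rw [hd]; simp [h1]
  have hda : d - a ∈ J := by rw [← ha', ← hd']; exact hcong _ _ px.1 hO hδ hz i₀
  have hdb : d - b ∈ J := by rw [← hb', ← hd']; exact hcong _ _ hO py.1 hz hε i₀
  have hdO : d ∈ O := by
    rw [← hd']
    refine eval_mem (hG.1 α i₀) ?_
    rintro (i | i) <;> exact hO i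
  have hdu : Un O d := by
    refine Un.of_mul hdO (hO l₀) ?_
    have : F v₀ v₀ l₀ = d * v₀ l₀ := by rw [hd]; simp
    rwa [← this]
  set e := F (v₀ + δ) (v₀ + ε) i₀ with he
  have heu : Un O e := hL.un_of_sub_mem hdu (by rw [← hd']; exact hcong _ _ px.1 py.1 hδ hε i₀)
  have hmix : ∀ l, F (v₀ + δ) (v₀ + ε) l - a * (v₀ l + δ l) - b * (v₀ l + ε l) + d * v₀ l ∈ J₂ := by
    intro l
    have := hL.eval_mixed h₂ hJ (hG.1 α l) px.1 hO py.1 hO (fun i => by simpa using hx.2.2 i)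
      (fun i => by simpa using hy.2.2 i)
    have e1 : F (v₀ + δ) v₀ l = a * (v₀ l + δ l) := by rw [ha]; simp
    have e2 : F v₀ (v₀ + ε) l = b * (v₀ l + ε l) := by rw [hb]; simp
    have e3 : F v₀ v₀ l = d * v₀ l := by rw [hd]; simp
    rw [← e1, ← e2, ← e3]
    exact this
  have hm0 : e - a - b + d ∈ J₂ := by simpa [h1, hx.2.1, hy.2.1] using hmix i₀
  have hne := heu.2.1
  have key : ∀ l, (e⁻¹ • F (v₀ + δ) (v₀ + ε) - v₀) l - δ l - ε l ∈ J₂ := by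
    intro l
    have e4 : (e⁻¹ • F (v₀ + δ) (v₀ + ε) - v₀) l - δ l - ε l =
        e⁻¹ * ((F (v₀ + δ) (v₀ + ε) l - a * (v₀ l + δ l) - b * (v₀ l + ε l) + d * v₀ l) -
          (v₀ l + δ l + ε l) * (e - a - b + d) + δ l * (d - b) + ε l * (d - a)) := by
      simp only [Pi.sub_apply, Pi.smul_apply, smul_eq_mul]
      field_simp
      ring
    rw [e4]
    refine h₂ _ heu.2.2 _ (J₂.add_mem (J₂.add_mem (J₂.sub_mem (hmix l) (h₂ _ ?_ _ hm0))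
      (hJ _ (hx.2.2 l) _ hdb)) (hJ _ (hy.2.2 l) _ hda))
    exact O.add_mem (O.add_mem (hO l) (hL.le _ (hx.2.2 l))) (hL.le _ (hy.2.2 l))
  refine ⟨e⁻¹ • F (v₀ + δ) (v₀ + ε) - v₀, ⟨?_, ?_, fun l => ?_⟩, key⟩
  · rw [add_sub_cancel]
    exact c.smul_mem _ _ (hrep x y _ _ hx.1 hy.1 px.1 py.1 hδ hε) _ (inv_ne_zero hne)
  · simp only [Pi.sub_apply, Pi.smul_apply, smul_eq_mul, h1, ← he]
    rw [inv_mul_cancel₀ hne, sub_self]
  · have := J.add_mem (J.add_mem (hle (key l)) (hy.2.2 l)) (hx.2.2 l)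
    rwa [sub_add_cancel, sub_add_cancel] at this

theorem Ctx.Nrm.nsmul (hL : Loc O J) (hG : c.Good O) (h₂ : ∀ a ∈ O, ∀ b ∈ J₂, a * b ∈ J₂)
    (hJ : ∀ a ∈ J, ∀ b ∈ J, a * b ∈ J₂) (hle : J₂ ≤ J) {v₀ : σ → k} {i₀ : σ} (h0 : v₀ ∈ c.rep 0)
    (hm : mark i₀) (h1 : v₀ i₀ = 1) (hO : ∀ l, v₀ l ∈ O) {x : G} {δ : σ → k} (hx : c.Nrm J v₀ i₀ x δ) (n : ℕ) :
    ∃ η, c.Nrm J v₀ i₀ (n • x) η ∧ ∀ l, η l - n * δ l ∈ J₂ := by
  induction n with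
  | zero => exact ⟨0, ⟨by simpa using h0, rfl, fun l => J.zero_mem⟩, fun l => by simp⟩
  | succ n ih =>
    obtain ⟨η, hη, h⟩ := ih
    obtain ⟨θ, hθ, h'⟩ := hη.add hL hG h₂ hJ hle h0 hm h1 hO hx
    refine ⟨θ, by rwa [succ_nsmul], fun l => ?_⟩
    have := J₂.add_mem (h' l) (h l)
    rwa [show θ l - η l - δ l + (η l - n * δ l) = θ l - (n + 1 : ℕ) * δ l by push_cast; ring]
      at this

variable (V : ValuationSubring k)

theorem Ctx.cong_psmul (hG : c.Good V.toSubring) {p : ℕ} (hp' : (p : k)⁻¹ ∉ V) {M : ℕ}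
    (hM : 1 ≤ M) {x : G} (hx : c.Cong V.toSubring (prin V.toSubring ((p : k) ^ M)) x 0) :
    c.Cong V.toSubring (prin V.toSubring ((p : k) ^ (M + 1))) (p • x) 0 := by
  have hp : (p : k) ∈ V := natCast_mem V p
  obtain ⟨w, hw, pw, i₀, hm, hi⟩ : ∃ w ∈ c.rep 0, Prim V.toSubring w := by
    obtain ⟨_, _, w, hw, _, pw, _⟩ := hx
    exact ⟨w, hw, pw⟩
  have h0 : (w i₀)⁻¹ • w ∈ c.rep 0 := c.smul_mem 0 w hw _ (inv_ne_zero hi.2.1)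
  have h1 : ((w i₀)⁻¹ • w) i₀ = 1 := by simp [hi.2.1]
  have hO : ∀ l, ((w i₀)⁻¹ • w) l ∈ V.toSubring := fun l => V.toSubring.mul_mem hi.2.2 (pw l)
  have hL := val_loc V hp hp' hM
  obtain ⟨δ, hδ⟩ := Ctx.cong_nrm hL h0 hm h1 hO hx
  obtain ⟨η, hη, h⟩ := hδ.nsmul (J₂ := prin V.toSubring ((p : k) ^ (M + 1))) hL hG
    (fun a ha b hb => mul_mem_prin ha hb) (by
      rintro _ ⟨y, hy, rfl⟩ _ ⟨z, hz, rfl⟩
      refine prin_pow_anti (O := V.toSubring) hp (show M + 1 ≤ M + M by omega)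
        ⟨y * z, V.toSubring.mul_mem hy hz, by ring⟩)
    (prin_pow_anti hp (Nat.le_succ M)) h0 hm h1 hO p
  refine Ctx.Nrm.cong (δ := η) (val_loc V hp hp' (Nat.le_add_left 1 M)) h0 hm h1 hO
    ⟨hη.1, hη.2.1, fun l => ?_⟩
  obtain ⟨y, hy, e⟩ := hδ.2.2 l
  have := (prin V.toSubring ((p : k) ^ (M + 1))).add_mem (h l)
    (show (p : k) * δ l ∈ _ from ⟨y, hy, by rw [e]; ring⟩)
  rwa [sub_add_cancel] at this

omit [AddGroup G] in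
theorem PV.val_sep (c : PV k σ G) {p : k} (hp : p ∈ V) (hp0 : p ≠ 0) (hp' : p⁻¹ ∉ V)
    (hsep : ∀ a : k, (∀ j : ℕ, a / p ^ j ∈ V) → a = 0) {Y : Set G} (hY : IsClosed Y) {x : G}
    (hx : x ∉ Y) : ∃ M, ∀ y ∈ Y, ¬ c.Cong V.toSubring (prin V.toSubring (p ^ M)) x y := by
  by_cases hpr : ∃ v ∈ c.rep x, Prim V.toSubring v
  swap
  · exact ⟨0, fun y _ ⟨v, hv, _, _, pv, _⟩ => hpr ⟨v, hv, pv⟩⟩
  obtain ⟨v, hv, pv⟩ := hpr
  obtain ⟨f, hf, hne⟩ := c.exists_I_ne hY hx hv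
  obtain ⟨a, ha0, -, ha⟩ := val_scale V (finite_coeffs f).toFinset
  by_contra hcon
  push Not at hcon
  refine mul_ne_zero ha0 hne (hsep _ fun j => ?_)
  obtain ⟨y, hy, h⟩ := hcon (j + 1)
  have hL := val_loc V hp hp' (Nat.le_add_left 1 j)
  obtain ⟨w, hw, pw, hvw⟩ := h.of_prim hL hv pv
  have h1 := hL.eval_sub_mem (f := C a * f)
    (fun m => by rw [coeff_C_mul]; exact ha _ (by simp)) pv.1 pw.1 hvw
  rw [map_mul, map_mul, hf y hy w hw, mul_zero, sub_zero, eval_C] at h1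
  obtain ⟨z, hz, e⟩ := prin_pow_anti (O := V.toSubring) hp (Nat.le_succ j) h1
  rwa [e, mul_div_cancel_left₀ _ (pow_ne_zero _ hp0)]

theorem Ctx.saturated (hG : c.Good V.toSubring) {p : ℕ} (hpp : p.Prime)
    (hp0 : (p : k) ≠ 0) (hp' : (p : k)⁻¹ ∉ V)
    (hsep : ∀ a : k, (∀ j : ℕ, a / (p : k) ^ j ∈ V) → a = 0) {W : AddSubgroup G}
    (hW : IsClosed (W : Set G)) {z : G}
    (hz : c.Cong V.toSubring (prin V.toSubring ((p : k) ^ 1)) z 0) {n : ℕ} (hn : ¬ p ∣ n)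
    (h : n • z ∈ W) : z ∈ W := by
  have hp : (p : k) ∈ V := natCast_mem V p
  have hP : ∀ j : ℕ, c.Cong V.toSubring (prin V.toSubring ((p : k) ^ (1 + j))) (p ^ j • z) 0 := by
    intro j
    induction j with
    | zero => simpa using hz
    | succ j ih =>
      have := c.cong_psmul V hG hp' (show 1 ≤ 1 + j by omega) ih
      rwa [← mul_nsmul', ← pow_succ'] at this
  by_contra hzn
  obtain ⟨M, hM⟩ := c.val_sep V hp hp0 hp' hsep hW hzn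
  obtain ⟨s, hs⟩ := Nat.exists_mul_mod_eq_one_of_coprime
    (((Nat.Prime.coprime_iff_not_dvd hpp).2 hn).symm.pow_right (M + 1))
    (Nat.one_lt_pow (by omega) hpp.one_lt)
  have e := Nat.mod_add_div (n * s) (p ^ (M + 1))
  rw [hs.2] at e
  have hL := val_loc V hp hp' (show 1 ≤ 1 + (M + 1) by omega)
  have h1 := Ctx.cong_add hL hG (Raw.Cong.refl (x := z) (by
    obtain ⟨v, hv, _, _, pv, _⟩ := hz
    exact ⟨v, hv, pv⟩)) (Ctx.cong_nsmul hL hG (hP (M + 1)) (n * s / p ^ (M + 1)))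
  rw [add_zero, ← mul_nsmul, ← one_nsmul z, ← mul_nsmul, ← add_nsmul, one_mul, e, mul_nsmul,
    one_nsmul] at h1
  exact hM _ (W.nsmul_mem h s) (h1.symm.mono (prin_pow_anti hp (by omega)))

end Pool.Agent.P.MP_84b56d_ag.Q
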