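import Pool.Agent.P.MP_84b56d_ag.Q.ND

/-! Heights, the arithmetic setting and the zero estimate on a commutative algebraic group. -/

open MvPolynomial TopologicalSpace

namespace Pool.Agent.P.MP_84b56d_ag.Q

variable {k : Type*} [Field k] {σ : Type} {G : Type*} [AddCommGroup G] [TopologicalSpace G] [Mk σ]

section

variable {E : Set k} {A : Arith k E} (c : Ctx k σ G)

/-- the point has a representative of bounded size -/
def Bd (A : Arith k E) (L : ℕ) (x : G) : Prop := ∃ v ∈ c.rep x, ∀ l, A.Sm L (v l)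

variable {c}

theorem Bd.mono {L L' : ℕ} {x : G} (h : Bd c A L x) (hL : L ≤ L') : Bd c A L' x := by
  obtain ⟨v, hv, h⟩ := h
  exact ⟨v, hv, fun l => (h l).mono hL⟩

theorem exP [Finite σ] {x : G} (h : ∃ v ∈ c.rep x, ∀ l, v l ∈ A.R) : ∃ L, Bd c A L x := by
  obtain ⟨v, hv, h⟩ := h
  choose L hL using fun l => A.exists_sm (h l)
  obtain ⟨B, hB⟩ := (Set.finite_range L).bddAbove
  exact ⟨B, v, hv, fun l => (hL l).mono (hB ⟨l, rfl⟩)⟩

theorem scaled_mem (hE : ∀ α l m, coeff m (c.law α l) ∈ E) (α : Fin c.N) (l : σ) (m) :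
    coeff m (C (A.h : k) * c.law α l) ∈ A.R := by
  rw [coeff_C_mul]
  exact A.clear _ (hE α l m)

theorem scaled_rep (A : Arith k E) {x y : G} {v w : σ → k} (hv : v ∈ c.rep x)
    (hw : w ∈ c.rep y) :
    ∃ α, (fun l => eval (Sum.elim v w) (C (A.h : k) * c.law α l)) ∈ c.rep (x + y) := by
  obtain ⟨α, l, h⟩ := c.law_cover x y v hv w hw
  refine ⟨α, ?_⟩
  have := c.smul_mem _ _ (c.law_mem α x y v hv w hw l h) (A.h : k)
    (fun h => A.h_ne (Subtype.ext h))
  convert this using 1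
  funext l
  simp

theorem add_step [Finite σ] (D : ℕ) (hD : ∀ α l, (c.law α l).totalDegree ≤ D)
    (hE : ∀ α l m, coeff m (c.law α l) ∈ E) :
    ∃ b, ∀ L, b ≤ L → ∀ x y : G, Bd c A L x → Bd c A L y → Bd c A ((D + 1) * L) (x + y) := by
  choose b hb using fun p : Fin c.N × σ => A.sm_eval _ (scaled_mem (A := A) hE p.1 p.2)
  obtain ⟨B, hB⟩ := (Set.finite_range b).bddAbove
  refine ⟨B, fun L hL x y ⟨v, hv, h1⟩ ⟨w, hw, h2⟩ => ?_⟩
  obtain ⟨α, hα⟩ := scaled_rep A hv hw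
  refine ⟨_, hα, fun l => (hb (α, l) L (Sum.elim v w) ?_).mono ?_⟩
  · rintro (i | i)
    · exact h1 i
    · exact h2 i
  · have h3 : (C (A.h : k) * c.law α l).totalDegree ≤ D := by
      refine (totalDegree_mul _ _).trans ?_
      rw [totalDegree_C, zero_add]
      exact hD α l
    have h4 : b (α, l) ≤ L := (hB ⟨(α, l), rfl⟩).trans hL
    have h5 := Nat.mul_le_mul_right L h3
    rw [add_mul, one_mul]
    dsimp only at h5 ⊢
    omega

section

variable {D b : ℕ}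
  (H : ∀ L, b ≤ L → ∀ x y : G, Bd c A L x → Bd c A L y → Bd c A ((D + 1) * L) (x + y))

include H in
theorem nsmul_bound {L : ℕ} (hL : b ≤ L) {x : G} (h0 : Bd c A L 0) (hx : Bd c A L x) (j : ℕ) :
    ∀ n < 2 ^ j, Bd c A ((D + 1) ^ (2 * j) * L) (n • x) := by
  induction j with
  | zero =>
    intro n hn
    have : n = 0 := by omega
    subst this
    simpa using h0
  | succ j ih =>
    intro n hn
    have h1 : L ≤ (D + 1) ^ (2 * j) * L := Nat.le_mul_of_pos_left _ (by positivity)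
    have h2 : (D + 1) ^ (2 * j) * L ≤ (D + 1) * ((D + 1) ^ (2 * j) * L) :=
      Nat.le_mul_of_pos_left _ (by positivity)
    have h3 := ih (n / 2) (by rw [pow_succ] at hn; omega)
    have h4 := H _ (hL.trans h1) _ _ h3 h3
    have h5 : Bd c A L ((n % 2) • x) := by
      rcases Nat.mod_two_eq_zero_or_one n with h | h
      · rw [h, zero_smul]; exact h0
      · rw [h, one_smul]; exact hx
    have h6 := H _ (hL.trans (h1.trans h2)) _ _ h4 (h5.mono (h1.trans h2))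
    rw [← add_smul, ← add_smul] at h6
    have e1 : n / 2 + n / 2 + n % 2 = n := by omega
    have e2 : (D + 1) ^ (2 * (j + 1)) * L =
        (D + 1) * ((D + 1) * ((D + 1) ^ (2 * j) * L)) := by ring
    rw [e2]
    rwa [e1] at h6

include H in
theorem sum_bound {ι : Type*} {L : ℕ} (hL : b ≤ L) (h0 : Bd c A L 0) (y : ι → G)
    (hy : ∀ i, Bd c A L (y i)) (s : Finset ι) :
    Bd c A ((D + 1) ^ s.card * L) (∑ i ∈ s, y i) := by
  classical
  induction s using Finset.induction_on with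
  | empty => simpa using h0
  | insert a s ha ih =>
    have h1 : L ≤ (D + 1) ^ s.card * L := Nat.le_mul_of_pos_left _ (by positivity)
    rw [Finset.sum_insert ha, Finset.card_insert_of_notMem ha, pow_succ', mul_assoc]
    exact H _ (hL.trans h1) _ _ ((hy a).mono h1) ih

end

end

theorem Ctx.height_bound [Finite σ]
    (c : Ctx k σ G) : ∃ κ : ℕ, ∀ (E : Set k) (A : Arith k E), (∀ α l m, coeff m (c.law α l) ∈ E) →
      ∀ (ι : Type) [Fintype ι] (x : ι → G), (∃ v ∈ c.rep 0, ∀ l, v l ∈ A.R) →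
        (∀ i, ∃ v ∈ c.rep (x i), ∀ l, v l ∈ A.R) → (∀ i, ∃ v ∈ c.rep (-x i), ∀ l, v l ∈ A.R) →
        ∃ C : ℕ, ∀ ρ : ℕ, 1 ≤ ρ → ∀ a : ι → ℤ, (∀ i, |a i| ≤ ρ) →
          ∃ v ∈ c.rep (∑ i, a i • x i), ∀ l, A.Sm (C * ρ ^ κ) (v l) := by
  obtain ⟨D, hD⟩ :=
    (Set.finite_range fun p : Fin c.N × σ => (c.law p.1 p.2).totalDegree).bddAbove
  refine ⟨2 * (D + 1), fun E A hE ι _ x h0 hx hx' => ?_⟩
  obtain ⟨b, H⟩ := add_step (A := A) D (fun α l => hD ⟨(α, l), rfl⟩) hE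
  obtain ⟨L0, hL0⟩ := exP h0
  choose L1 hL1 using fun i => exP (hx i)
  choose L2 hL2 using fun i => exP (hx' i)
  obtain ⟨B1, hB1⟩ := (Set.finite_range L1).bddAbove
  obtain ⟨B2, hB2⟩ := (Set.finite_range L2).bddAbove
  obtain ⟨L, hb, h0', h1, h2⟩ : ∃ L, b ≤ L ∧ Bd c A L 0 ∧ (∀ i, Bd c A L (x i)) ∧
      ∀ i, Bd c A L (-x i) :=
    ⟨b + L0 + B1 + B2, by omega, hL0.mono (by omega),
      fun i => (hL1 i).mono ((hB1 ⟨i, rfl⟩).trans (by omega)),
      fun i => (hL2 i).mono ((hB2 ⟨i, rfl⟩).trans (by omega))⟩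
  refine ⟨(D + 1) ^ Fintype.card ι * (2 ^ (2 * (D + 1)) * L), fun ρ hρ a ha => ?_⟩
  have j1 : ρ < 2 ^ (Nat.log 2 ρ + 1) := Nat.lt_pow_succ_log_self (by norm_num) ρ
  have j2 : 2 ^ (Nat.log 2 ρ + 1) ≤ 2 * ρ := by
    rw [pow_succ, mul_comm]
    exact Nat.mul_le_mul_left _ (Nat.pow_log_le_self 2 (by omega))
  generalize Nat.log 2 ρ + 1 = j at j1 j2
  have j3 : (D + 1) ^ (2 * j) ≤ (2 * ρ) ^ (2 * (D + 1)) :=
    calc (D + 1) ^ (2 * j) ≤ (2 ^ (D + 1)) ^ (2 * j) :=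
          Nat.pow_le_pow_left Nat.lt_two_pow_self.le _
      _ = (2 ^ j) ^ (2 * (D + 1)) := by rw [← pow_mul, ← pow_mul]; congr 1; ring
      _ ≤ _ := Nat.pow_le_pow_left j2 _
  have h3 : L ≤ (D + 1) ^ (2 * j) * L := Nat.le_mul_of_pos_left _ (by positivity)
  have h4 : ∀ i, Bd c A ((D + 1) ^ (2 * j) * L) (a i • x i) := fun i => by
    have hn : (a i).natAbs < 2 ^ j := by
      have := ha i
      rw [← Int.natCast_natAbs] at this
      omega
    rcases Int.natAbs_eq (a i) with h | h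
    · rw [h, natCast_zsmul]
      exact nsmul_bound H hb h0' (h1 i) j _ hn
    · rw [h, neg_smul, natCast_zsmul, ← smul_neg]
      exact nsmul_bound H hb h0' (h2 i) j _ hn
  refine (sum_bound H (hb.trans h3) (h0'.mono h3) _ h4 Finset.univ).mono ?_
  rw [Finset.card_univ, mul_assoc]
  refine Nat.mul_le_mul_left _ ((Nat.mul_le_mul_right _ j3).trans (le_of_eq ?_))
  rw [mul_pow]
  ring

theorem Ctx.int_closure {E : Set k}
    (c : Ctx k σ G) (A : Arith k E) (hE : ∀ α l m, coeff m (c.law α l) ∈ E) {X : Set G}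
    (h0 : ∃ v ∈ c.rep 0, ∀ l, v l ∈ A.R)
    (hX : ∀ x ∈ X, (∃ v ∈ c.rep x, ∀ l, v l ∈ A.R) ∧ ∃ v ∈ c.rep (-x), ∀ l, v l ∈ A.R) :
    ∀ x ∈ AddSubgroup.closure X, ∃ v ∈ c.rep x, ∀ l, v l ∈ A.R := by
  have hadd : ∀ x y : G, (∃ v ∈ c.rep x, ∀ l, v l ∈ A.R) → (∃ v ∈ c.rep y, ∀ l, v l ∈ A.R) →
      ∃ v ∈ c.rep (x + y), ∀ l, v l ∈ A.R := by
    rintro x y ⟨v, hv, h1⟩ ⟨w, hw, h2⟩
    obtain ⟨α, hα⟩ := scaled_rep A hv hw
    refine ⟨_, hα, fun l => eval_mem (scaled_mem hE α l) ?_⟩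
    rintro (i | i)
    · exact h1 i
    · exact h2 i
  intro x hx
  suffices h : (∃ v ∈ c.rep x, ∀ l, v l ∈ A.R) ∧ ∃ v ∈ c.rep (-x), ∀ l, v l ∈ A.R from h.1
  induction hx using AddSubgroup.closure_induction with
  | mem x hx => exact hX x hx
  | zero => rw [neg_zero]; exact ⟨h0, h0⟩
  | add x y _ _ hx hy => rw [neg_add]; exact ⟨hadd _ _ hx.1 hy.1, hadd _ _ hx.2 hy.2⟩
  | neg x _ hx => rw [neg_neg]; exact ⟨hx.2, hx.1⟩

variable (c : Ctx k σ G)

theorem Ctx.setup [IsAlgClosed k] [CharZero k] [Finite σ] (X : Set G) (hX : X.Finite) (E₀ : Set k)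
    (hE₀ : E₀.Finite) : ∃ (E : Set k) (A : Arith k E), E₀ ⊆ E ∧
      (∀ α l m, coeff m (c.law α l) ∈ E) ∧
      (∀ q, ∀ x ∈ AddSubgroup.closure X, ∃ v ∈ c.rep x, Prim (A.O q) v) ∧
      ∀ x ∈ AddSubgroup.closure X, ∃ v ∈ c.rep x, ∀ l, v l ∈ A.R := by
  obtain ⟨E₁, hE₁, hlaw, hgood⟩ := c.exists_good
  choose r hr i hm hi using c.exists_rep_one
  let X' : Set G := insert 0 (X ∪ (fun x => -x) '' X)
  have hX' : X'.Finite := (hX.union (hX.image _)).insert 0
  let E : Set k := E₀ ∪ (E₁ ∪ ⋃ x ∈ X', Set.range (r x))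
  have hE : E.Finite := hE₀.union (hE₁.union (hX'.biUnion fun x _ => Set.finite_range _))
  obtain ⟨A⟩ := exists_arith E hE
  have hrE : ∀ x ∈ X', ∀ l, r x l ∈ E := fun x hx l => by
    refine Or.inr (Or.inr ?_)
    simp only [Set.mem_iUnion]
    exact ⟨x, hx, l, rfl⟩
  have hG : ∀ q, c.Good (A.O q) := fun q =>
    hgood _ (A.loc q).loc fun e he => A.subset_O q (Or.inr (Or.inl he))
  have hp : ∀ q, ∀ x ∈ X', ∃ v ∈ c.rep x, Prim (A.O q) v := fun q x hx =>
    ⟨r x, hr x, fun l => A.subset_O q (hrE x hx l), i x, hm x, hi x ▸ un_one⟩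
  have hh : (A.h : k) ≠ 0 := fun h => A.h_ne (Subtype.ext h)
  have hint : ∀ x ∈ X', ∃ v ∈ c.rep x, ∀ l, v l ∈ A.R := fun x hx =>
    ⟨(A.h : k) • r x, c.smul_mem x _ (hr x) _ hh, fun l => A.clear _ (hrE x hx l)⟩
  exact ⟨E, A, Set.subset_union_left, fun α l m => Or.inr (Or.inl (hlaw α l m)), fun q =>
    (hG q).prim_closure (hp q 0 (Or.inl rfl)) fun x hx => hp q x (Or.inr (Or.inl hx)),
    c.int_closure A (fun α l m => Or.inr (Or.inl (hlaw α l m))) (hint 0 (Or.inl rfl)) fun x hx =>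
      ⟨hint x (Or.inr (Or.inl hx)), hint _ (Or.inr (Or.inr ⟨x, hx, rfl⟩))⟩⟩

theorem zero_estimate [IsAlgClosed k] [Finite σ] [IrreducibleSpace G] (g : ℕ)
    (hg : td (c.I Set.univ) = g + 1) :
    ∃ C : ℕ, ∀ (m : ℕ) (f : MvPolynomial σ k), 1 ≤ m → f.IsHomogeneous m → f ∉ c.I Set.univ →
      ∀ S : Finset G, (0 : G) ∈ S → ∀ n : ℕ, (∀ W : Set G, IsClosed W → W.Nonempty →
        W ≠ Set.univ → ∃ S' ⊆ S, n ≤ S'.card ∧
          ∀ a ∈ S', ∀ b ∈ S', a ≠ b → ¬ ∀ w ∈ W, w + (a - b) ∈ W) →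
        (∀ τ : Fin g → G, (∀ i, τ i ∈ S) → ∀ w ∈ c.rep (∑ i, τ i), eval w f = 0) →
        n ≤ C * m ^ g := by
  classical
  have := c.noetherianSpace
  have := c.t1Space
  have := c.sepCont
  obtain ⟨C, hC⟩ := c.comp_count
  obtain ⟨D, hD1, hD⟩ := c.cut
  refine ⟨C * (2 * D) ^ g, fun m f hm hf hfI S h0 n hS hvan => ?_⟩
  choose T hT hT' using hD f m hf
  let Y : ℕ → Set G := fun j => {x | ∀ τ : Fin j → G, (∀ i, τ i ∈ S) →
    ∀ w ∈ c.rep (x + ∑ i, τ i), eval w f = 0}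
  let U : ℕ → Set (MvPolynomial σ k) := fun j =>
    {h | ∃ τ : Fin j → G, (∀ i, τ i ∈ S) ∧ h ∈ T (∑ i, τ i)}
  have hYU : ∀ j, Y j = {x | ∀ h ∈ U j, ∀ v ∈ c.rep x, eval v h = 0} := by
    intro j
    ext x
    constructor
    · rintro hx h ⟨τ, hτ, hh⟩ v hv
      exact (hT' _ x v hv).2 (hx τ hτ) h hh
    · intro hx τ hτ
      obtain ⟨v, hv⟩ := c.nonempty x
      exact (hT' _ x v hv).1 fun h hh => hx h ⟨τ, hτ, hh⟩ v hv
  have hYc : ∀ j, IsClosed (Y j) := fun j => hYU j ▸ c.isClosed_zero _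
  have hstep : ∀ j, ∀ x ∈ Y (j + 1), ∀ s ∈ S, x + s ∈ Y j := by
    intro j x hx s hs τ hτ w hw
    refine hx (Fin.cons s τ) (fun i => ?_) w ?_
    · refine Fin.cases ?_ (fun i => ?_) i
      · simpa using hs
      · simpa using hτ i
    · rw [Fin.sum_univ_succ]
      simpa [add_assoc] using hw
  have hne : ∀ j, Y j ≠ Set.univ := by
    intro j
    induction j with
    | zero =>
      intro h
      refine hfI fun y _ w hw => ?_
      have hy : y ∈ Y 0 := h ▸ Set.mem_univ y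
      exact hy (fun i => i.elim0) (fun i => i.elim0) w (by simpa using hw)
    | succ j ih =>
      intro h
      refine ih (Set.eq_univ_of_forall fun x => ?_)
      simpa using hstep j x (h ▸ Set.mem_univ x) 0 h0
  have key : ∃ j, ∃ W : Set G, IsClosed W ∧ IsIrreducible W ∧
      ∀ s ∈ S, IsComp (Y j) (Homeomorph.addRight s '' W) := by
    by_contra hcon
    push Not at hcon
    have hch : ∀ i, i ≤ g → ∃ W, Ch i W ∧ W ⊆ Y (g - i) := by
      intro i
      induction i with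
      | zero =>
        intro _
        refine ⟨{0}, Ch.zero _ isClosed_singleton isIrreducible_singleton, ?_⟩
        rintro _ rfl τ hτ w hw
        exact hvan τ hτ w (by simpa using hw)
      | succ i ih =>
        intro hi
        obtain ⟨W, hW, hWY⟩ := ih (by omega)
        obtain ⟨s, hs, hn⟩ := hcon (g - (i + 1)) W hW.ci.1 hW.ci.2
        have hW' := hW.image (Homeomorph.addRight s)
        have hsub : Homeomorph.addRight s '' W ⊆ Y (g - (i + 1)) := by
          rintro _ ⟨x, hx, rfl⟩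
          refine hstep _ x ?_ s hs
          rw [show g - (i + 1) + 1 = g - i by omega]
          exact hWY hx
        have : ∃ W', IsIrreducible W' ∧ Homeomorph.addRight s '' W ⊆ W' ∧ W' ⊆ Y (g - (i + 1)) ∧
            ¬ W' ⊆ Homeomorph.addRight s '' W := by
          by_contra h
          push Not at h
          exact hn ⟨hW'.ci.2, hW'.ci.1, hsub, h⟩
        obtain ⟨W', h1, h2, h3, h4⟩ := this
        refine ⟨closure W', Ch.succ i _ _ hW' ⟨h2.trans subset_closure,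
          fun h => h4 (subset_closure.trans h)⟩ isClosed_closure h1.closure,
          closure_minimal h3 (hYc _)⟩
    obtain ⟨W, hW, hWY⟩ := hch g le_rfl
    have h2 : Ch (g + 1) (Set.univ : Set G) := Ch.succ g W _ hW
      ⟨Set.subset_univ _, fun h => hne _ (Set.eq_univ_of_univ_subset (h.trans hWY))⟩
      isClosed_univ (IrreducibleSpace.isIrreducible_univ G)
    have := c.ch_le h2
    omega
  obtain ⟨j, W, hWc, hWi, hW⟩ := key
  obtain ⟨S', hS', hn, hmv⟩ := hS W hWc hWi.nonempty fun hu => by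
    refine hne j (Set.eq_univ_of_univ_subset ?_)
    refine Set.Subset.trans ?_ (hW 0 h0).2.2.1
    rw [hu, Set.image_univ, (Homeomorph.addRight 0).surjective.range_eq]
  have hinj : Set.InjOn (fun s => Homeomorph.addRight s '' W) (S' : Set G) := by
    intro s hs s' hs' he
    by_contra hss
    refine hmv s hs s' hs' hss fun w hw => ?_
    have : w + s ∈ Homeomorph.addRight s' '' W := by
      rw [← show Homeomorph.addRight s '' W = Homeomorph.addRight s' '' W from he]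
      exact ⟨w, hw, rfl⟩
    obtain ⟨w', hw', e⟩ := this
    have e' : w' + s' = w + s := e
    rw [show w + (s - s') = w' by rw [← add_sub_assoc, ← e']; simp]
    exact hw'
  refine hn.trans ?_
  rw [← Finset.card_image_of_injOn hinj]
  have := hC (D * (m + 1)) (by nlinarith) (U j) ?_ (S'.image fun s => Homeomorph.addRight s '' W) ?_
  · refine this.trans ?_
    rw [hg, Nat.add_sub_cancel, mul_assoc, ← mul_pow]
    refine Nat.mul_le_mul_left _ (Nat.pow_le_pow_left ?_ _)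
    nlinarith
  · rintro h ⟨τ, -, hh⟩
    exact hT _ h hh
  · intro W' hW'
    obtain ⟨s, hs, rfl⟩ := Finset.mem_image.1 hW'
    rw [← hYU]
    exact hW s (hS' hs)

end Pool.Agent.P.MP_84b56d_ag.Q
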