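import Pool.Agent.P.MP_84b56d_ag.Q.Reg

/-! Group laws, translates and congruences. -/

open MvPolynomial TopologicalSpace

namespace Pool.Agent.P.MP_84b56d_ag.Q

variable {k : Type*} {σ : Type} {G : Type*} [Field k] [AddGroup G] [TopologicalSpace G] [Mk σ]

theorem Var.exists_ctx [Finite σ] (c : Var k σ G)
    (h : Reg (two c.rep c.rep) c.rep fun p => p.1 + p.2) (h' : Reg c.rep c.rep fun x => -x) :
    ∃ c' : Ctx k σ G, c'.toVar = c := by
  obtain ⟨N, L, h1, h2⟩ := h.exists_fin c.toRaw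
  exact ⟨⟨c, N, L, fun α x y v hv w hw => h1 α (x, y) _ ⟨v, hv, w, hw, rfl⟩,
    fun x y v hv w hw => h2 (x, y) _ ⟨v, hv, w, hw, rfl⟩, h'⟩, rfl⟩

section

variable (c : Ctx k σ G)

theorem Ctx.add_reg : Reg (two c.rep c.rep) c.rep fun p => p.1 + p.2 := by
  rintro p _ ⟨v, hv, w, hw, rfl⟩
  obtain ⟨α, l, h⟩ := c.law_cover _ _ v hv w hw
  refine ⟨c.law α l, c.law α, h, ?_⟩
  rintro q _ ⟨v', hv', w', hw', rfl⟩ h'
  exact c.law_mem α _ _ v' hv' w' hw' l h'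

theorem Ctx.reg_add {τ : Type} {A : Type*} {r : A → Set (τ → k)} {φ ψ : A → G} (h : Reg r c.rep φ)
    (h' : Reg r c.rep ψ) : Reg r c.rep fun x => φ x + ψ x :=
  c.add_reg.comp (h.pair h')

include c in
theorem Ctx.sepCont : SeparatelyContinuousAdd G :=
  ⟨fun {a} => (c.reg_add (Reg.const _ (c.nonempty a)) (Reg.id _)).continuous,
    fun {a} => (c.reg_add (Reg.id _) (Reg.const _ (c.nonempty a))).continuous⟩

include c in
theorem Ctx.continuous_neg : Continuous fun x : G => -x := c.neg_reg.continuous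

theorem Ctx.law_cover' (x y : G) (v : σ → k) (hv : v ∈ c.rep x) (w : σ → k) (hw : w ∈ c.rep y) :
    ∃ α l, mark l ∧ eval (Sum.elim v w) (c.law α l) ≠ 0 := by
  obtain ⟨α, l, h⟩ := c.law_cover x y v hv w hw
  exact ⟨α, c.mark_ne _ _ (c.law_mem α x y v hv w hw l h)⟩

theorem Ctx.exists_deg [Finite σ] : ∃ D : ℕ, 1 ≤ D ∧ ∀ α l, (c.law α l).totalDegree ≤ D := by
  have := Fintype.ofFinite σ
  refine ⟨1 + Finset.univ.sup fun p : Fin c.N × σ => (c.law p.1 p.2).totalDegree, by omega,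
    fun α l => ?_⟩
  have := Finset.le_sup (f := fun p : Fin c.N × σ => (c.law p.1 p.2).totalDegree)
    (Finset.mem_univ (α, l))
  simp only at this
  omega

theorem Ctx.cut [Finite σ] : ∃ D : ℕ, 1 ≤ D ∧ ∀ (f : MvPolynomial σ k) (m : ℕ), f.IsHomogeneous m →
    ∀ a : G, ∃ T : Set (MvPolynomial σ k), (∀ h ∈ T, h.totalDegree ≤ D * (m + 1)) ∧
      ∀ y, ∀ v ∈ c.rep y, ((∀ h ∈ T, eval v h = 0) ↔ ∀ w ∈ c.rep (y + a), eval w f = 0) := by
  obtain ⟨D, hD1, hD⟩ := c.exists_deg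
  refine ⟨D, hD1, fun f m hf a => ?_⟩
  obtain ⟨u, hu⟩ := c.nonempty a
  let L : Fin c.N → σ → MvPolynomial σ k := fun α l =>
    aeval (Sum.elim X fun j => C (u j)) (c.law α l)
  have hL : ∀ α l v, eval v (L α l) = eval (Sum.elim v u) (c.law α l) := by
    intro α l v
    simp only [L, eval_aeval_sum, eval_X, eval_C]
  have hLd : ∀ α l, (L α l).totalDegree ≤ D := by
    intro α l
    refine (totalDegree_aeval_le _ 1 ?_ _).trans (by simpa using hD α l)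
    rintro (j | j)
    · exact (isHomogeneous_X k j).totalDegree_le
    · simp
  refine ⟨{h | ∃ α l, h = aeval (L α) f * L α l}, ?_, fun y v hv => ⟨fun h w hw => ?_, ?_⟩⟩
  · rintro _ ⟨α, l, rfl⟩
    refine (totalDegree_mul _ _).trans ?_
    have h1 := totalDegree_aeval_le (L α) D (hLd α) f
    have h2 := Nat.mul_le_mul_left D hf.totalDegree_le
    have h3 := hLd α l
    rw [mul_add, mul_one]
    omega
  · obtain ⟨α, l, hl⟩ := c.law_cover _ _ v hv u hu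
    have h1 := h _ ⟨α, l, rfl⟩
    rw [map_mul, eval_aeval', hL] at h1
    simp only [hL] at h1
    obtain ⟨b, rfl⟩ := c.exists_smul _ _ (c.law_mem α _ _ v hv u hu l hl) w hw
    rw [eval_smul_of_hom hf, (mul_eq_zero.1 h1).resolve_right hl, mul_zero]
  · rintro h _ ⟨α, l, rfl⟩
    rw [map_mul, eval_aeval', hL]
    simp only [hL]
    by_cases hl : eval (Sum.elim v u) (c.law α l) = 0
    · rw [hl, mul_zero]
    · rw [h _ (c.law_mem α _ _ v hv u hu l hl), zero_mul]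

theorem Ctx.cut_closed [Infinite k] [Finite σ] {Y : Set G} (hY : IsClosed Y) :
    ∃ D : ℕ, ∀ a : G, ∃ T : Set (MvPolynomial σ k), (∀ h ∈ T, h.totalDegree ≤ D) ∧
      ∀ y, ∀ v ∈ c.rep y, ((∀ h ∈ T, eval v h = 0) ↔ y + a ∈ Y) := by
  obtain ⟨D, -, hD⟩ := c.cut
  obtain ⟨S, hS, hspan⟩ := c.exists_gens Y
  choose! d hd using hS
  refine ⟨D * (S.sup d + 1), fun a => ?_⟩
  choose! T hT hT' using fun f (hf : f ∈ S) => hD f (d f) (hd f hf) a
  refine ⟨⋃ f ∈ S, T f, ?_, fun y v hv => ⟨fun h => ?_, fun h => ?_⟩⟩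
  · intro h hh
    simp only [Set.mem_iUnion] at hh
    obtain ⟨f, hf, hh⟩ := hh
    exact (hT f hf h hh).trans (Nat.mul_le_mul_left _ (Nat.succ_le_succ (Finset.le_sup hf)))
  · obtain ⟨w, hw⟩ := c.nonempty (y + a)
    refine c.mem_of_gens hY (fun f hf => ⟨_, hd f hf⟩) hspan hw fun f hf => ?_
    refine (hT' f hf y v hv).1 (fun g hg => h g ?_) w hw
    simp only [Set.mem_iUnion]
    exact ⟨f, hf, hg⟩
  · intro g hg
    simp only [Set.mem_iUnion] at hg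
    obtain ⟨f, hf, hg⟩ := hg
    refine (hT' f hf y v hv).2 (fun w hw => ?_) g hg
    have : f ∈ c.I Y := hspan ▸ Ideal.subset_span hf
    exact this _ h w hw

end

variable {O : Subring k} {J : AddSubgroup k}

section

variable {A : Type*} {c : Raw k σ A}

theorem Raw.prim_smul {x : A} {v w : σ → k} (hv : v ∈ c.rep x) (hw : w ∈ c.rep x)
    (pv : Prim O v) (ow : ∀ i, w i ∈ O) : ∃ a ∈ O, w = a • v ∧ (Prim O w → Un O a) := by
  obtain ⟨a, rfl⟩ := c.exists_smul x v hv w hw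
  obtain ⟨i, -, hi⟩ := pv.2
  have ha : a ∈ O := by
    have e : a = (a • v) i * (v i)⁻¹ := by
      rw [Pi.smul_apply, smul_eq_mul, mul_assoc, mul_inv_cancel₀ hi.2.1, mul_one]
    rw [e]
    exact O.mul_mem (ow i) hi.2.2
  refine ⟨a, ha, rfl, fun pw => ?_⟩
  obtain ⟨j, -, hj⟩ := pw.2
  exact Un.of_mul ha (pv.1 j) hj

theorem Raw.Cong.refl {x : A} (h : ∃ v ∈ c.rep x, Prim O v) : c.Cong O J x x := by
  obtain ⟨v, hv, pv⟩ := h
  exact ⟨v, hv, v, hv, pv, pv, fun i => by simp⟩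

theorem Raw.Cong.symm {x y : A} (h : c.Cong O J x y) : c.Cong O J y x := by
  obtain ⟨v, hv, w, hw, pv, pw, h⟩ := h
  exact ⟨w, hw, v, hv, pw, pv, fun i => by rw [← neg_sub]; exact J.neg_mem (h i)⟩

theorem Raw.Cong.of_prim (hL : Loc O J) {x y : A} (h : c.Cong O J x y) {v : σ → k}
    (hv : v ∈ c.rep x) (pv : Prim O v) : ∃ w ∈ c.rep y, Prim O w ∧ ∀ i, v i - w i ∈ J := by
  obtain ⟨v₀, hv₀, w, hw, pv₀, pw, h⟩ := h
  obtain ⟨a, ha, rfl, hu⟩ := c.prim_smul hv₀ hv pv₀ pv.1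
  obtain ⟨j, hm, hj⟩ := pw.2
  refine ⟨a • w, c.smul_mem y w hw a (hu pv).2.1, ⟨fun i => O.mul_mem ha (pw.1 i), j, hm,
    (hu pv).mul hj⟩, fun i => ?_⟩
  simp only [Pi.smul_apply, smul_eq_mul, ← mul_sub]
  exact hL.mul a ha _ (h i)

theorem Raw.Cong.trans (hL : Loc O J) {x y z : A} (h : c.Cong O J x y) (h' : c.Cong O J y z) :
    c.Cong O J x z := by
  obtain ⟨v, hv, w, hw, pv, pw, h⟩ := h
  obtain ⟨u, hu, pu, h2⟩ := h'.of_prim hL hw pw
  refine ⟨v, hv, u, hu, pv, pu, fun i => ?_⟩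
  have := J.add_mem (h i) (h2 i)
  rwa [sub_add_sub_cancel] at this

theorem Raw.Cong.mono {J' : AddSubgroup k} (hJ : J ≤ J') {x y : A} (h : c.Cong O J x y) :
    c.Cong O J' x y := by
  obtain ⟨v, hv, w, hw, pv, pw, h⟩ := h
  exact ⟨v, hv, w, hw, pv, pw, fun i => hJ (h i)⟩

end

variable {c : Ctx k σ G}

theorem Ctx.cong_add (hL : Loc O J) (hG : c.Good O) {x y x' y' : G} (h : c.Cong O J x x')
    (h' : c.Cong O J y y') : c.Cong O J (x + y) (x' + y') := by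
  obtain ⟨v, hv, v', hv', pv, pv', h⟩ := h
  obtain ⟨w, hw, w', hw', pw, pw', h'⟩ := h'
  obtain ⟨α, l, hm, hu⟩ := hG.2.1 x y v hv w hw pv pw
  have m1 : ∀ i, Sum.elim v w i ∈ O := by rintro (i | i); exacts [pv.1 i, pw.1 i]
  have m2 : ∀ i, Sum.elim v' w' i ∈ O := by rintro (i | i); exacts [pv'.1 i, pw'.1 i]
  have hs : ∀ l, eval (Sum.elim v w) (c.law α l) - eval (Sum.elim v' w') (c.law α l) ∈ J :=
    fun l => hL.eval_sub_mem (hG.1 α l) m1 m2 (by rintro (i | i); exacts [h i, h' i])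
  have hu' := hL.un_of_sub_mem hu (hs l)
  exact ⟨_, c.law_mem α x y v hv w hw l hu.2.1, _, c.law_mem α x' y' v' hv' w' hw' l hu'.2.1,
    ⟨fun l => eval_mem (hG.1 α l) m1, l, hm, hu⟩, ⟨fun l => eval_mem (hG.1 α l) m2, l, hm, hu'⟩, hs⟩

theorem Ctx.Good.prim_add (hG : c.Good O) {x y : G} (hx : ∃ v ∈ c.rep x, Prim O v)
    (hy : ∃ v ∈ c.rep y, Prim O v) : ∃ v ∈ c.rep (x + y), Prim O v := by
  obtain ⟨v, hv, pv⟩ := hx
  obtain ⟨w, hw, pw⟩ := hy
  obtain ⟨α, l, hm, hu⟩ := hG.2.1 x y v hv w hw pv pw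
  have m1 : ∀ i, Sum.elim v w i ∈ O := by rintro (i | i); exacts [pv.1 i, pw.1 i]
  exact ⟨_, c.law_mem α x y v hv w hw l hu.2.1, fun l => eval_mem (hG.1 α l) m1, l, hm, hu⟩

theorem Ctx.Good.prim_closure (hG : c.Good O) {X : Set G} (h0 : ∃ v ∈ c.rep 0, Prim O v)
    (hX : ∀ x ∈ X, ∃ v ∈ c.rep x, Prim O v) :
    ∀ x ∈ AddSubgroup.closure X, ∃ v ∈ c.rep x, Prim O v := by
  intro x hx
  induction hx using AddSubgroup.closure_induction with
  | mem x hx => exact hX x hx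
  | zero => exact h0
  | add x y _ _ hx hy => exact hG.prim_add hx hy
  | neg x _ hx => exact hG.2.2 x hx

theorem Ctx.cong_sub (hL : Loc O J) (hG : c.Good O) {x y : G} (h : c.Cong O J x y) :
    c.Cong O J (x - y) 0 := by
  have hy : ∃ v ∈ c.rep y, Prim O v := by
    obtain ⟨_, _, w, hw, _, pw, _⟩ := h
    exact ⟨w, hw, pw⟩
  simpa [sub_eq_add_neg] using Ctx.cong_add hL hG h (Raw.Cong.refl (hG.2.2 y hy))

theorem Ctx.cong_nsmul (hL : Loc O J) (hG : c.Good O) {x : G} (h : c.Cong O J x 0) (n : ℕ) :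
    c.Cong O J (n • x) 0 := by
  induction n with
  | zero =>
    obtain ⟨_, _, w, hw, _, pw, _⟩ := h
    rw [zero_nsmul]
    exact Raw.Cong.refl ⟨w, hw, pw⟩
  | succ n ih => simpa [succ_nsmul] using Ctx.cong_add hL hG ih h

theorem Ctx.exists_good [IsAlgClosed k] [Finite σ] (c : Ctx k σ G) :
    ∃ E : Set k, E.Finite ∧ (∀ α l m, coeff m (c.law α l) ∈ E) ∧
      ∀ O : Subring k, IsLoc O → E ⊆ O → c.Good O := by
  classical
  choose E₁ hE₁ h₁ using fun p : {i : σ // mark i} × {i : σ // mark i} =>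
    exists_unit (two c.rep c.rep) (fun q : Fin c.N × {i : σ // mark i} => c.law q.1 q.2)
      (X (Sum.inl p.1.1) * X (Sum.inr p.2.1)) fun u hne hu => by
      rw [map_mul, eval_X, eval_X] at hne
      obtain ⟨x, hx⟩ := c.cone_closed (u ∘ Sum.inl) p.1 p.1.2 (left_ne_zero_of_mul hne)
        fun f hf => by
          rw [← eval_rename]
          refine hu _ ?_
          rintro _ _ ⟨v, hv, w, -, rfl⟩
          rw [eval_rename]
          exact hf _ v hv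
      obtain ⟨y, hy⟩ := c.cone_closed (u ∘ Sum.inr) p.2 p.2.2 (right_ne_zero_of_mul hne)
        fun f hf => by
          rw [← eval_rename]
          refine hu _ ?_
          rintro _ _ ⟨v, -, w, hw, rfl⟩
          rw [eval_rename]
          exact hf _ w hw
      obtain ⟨α, l, hm, h⟩ := c.law_cover' x y _ hx _ hy
      rw [Sum.elim_comp_inl_inr] at h
      exact ⟨(α, ⟨l, hm⟩), h⟩
  obtain ⟨N, L, hL, hL'⟩ := c.neg_reg.exists_fin c.toRaw
  choose E₂ hE₂ h₂ using fun p : {i : σ // mark i} =>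
    exists_unit c.rep (fun q : Fin N × {i : σ // mark i} => L q.1 q.2) (X p.1) fun u hne hu => by
      rw [eval_X] at hne
      obtain ⟨x, hx⟩ := c.cone_closed u p p.2 hne hu
      obtain ⟨α, l, h⟩ := hL' x u hx
      obtain ⟨l', hm, h'⟩ := c.mark_ne _ _ (hL α x u hx l h)
      exact ⟨(α, ⟨l', hm⟩), h'⟩
  refine ⟨(⋃ α, ⋃ l, Set.range fun m => coeff m (c.law α l)) ∪
    ((⋃ α, ⋃ l, Set.range fun m => coeff m (L α l)) ∪ ((⋃ p, E₁ p) ∪ ⋃ p, E₂ p)),
    (Set.finite_iUnion fun _ => Set.finite_iUnion fun _ => finite_coeffs _).union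
      ((Set.finite_iUnion fun _ => Set.finite_iUnion fun _ => finite_coeffs _).union
        ((Set.finite_iUnion hE₁).union (Set.finite_iUnion hE₂))),
    fun α l m => Or.inl (Set.mem_iUnion₂.mpr ⟨α, l, m, rfl⟩), fun O hO hE => ?_⟩
  simp only [Set.union_subset_iff, Set.iUnion_subset_iff, Set.range_subset_iff] at hE
  refine ⟨hE.1, fun x y v hv w hw pv pw => ?_, ?_⟩
  · obtain ⟨i, hm, hi⟩ := pv.2
    obtain ⟨j, hm', hj⟩ := pw.2
    obtain ⟨q, hq⟩ := h₁ (⟨i, hm⟩, ⟨j, hm'⟩) O hO (hE.2.2.1 _) (x, y) _ ⟨v, hv, w, hw, rfl⟩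
      (by rintro (i | i); exacts [pv.1 i, pw.1 i])
      (by rw [map_mul, eval_X, eval_X]; exact hi.mul hj)
    exact ⟨q.1, q.2, q.2.2, hq⟩
  · rintro x ⟨v, hv, pv⟩
    obtain ⟨i, hm, hi⟩ := pv.2
    obtain ⟨q, hq⟩ := h₂ ⟨i, hm⟩ O hO (hE.2.2.2 _) x v hv pv.1 (by rwa [eval_X])
    exact ⟨_, hL q.1 x v hv q.2 hq.2.1, fun l => eval_mem (hE.2.1 _ l) pv.1, q.2, q.2.2, hq⟩

end Pool.Agent.P.MP_84b56d_ag.Q
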