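import Pool.Agent.P.MP_84b56d_ag.Q.Formal

/-! Points with no multiple in a given proper closed subgroup. -/

open MvPolynomial TopologicalSpace

namespace Pool.Agent.P.MP_84b56d_ag.Q

variable {k : Type*} [Field k] {σ : Type} {G : Type*} [TopologicalSpace G] [Mk σ]

section

variable [AddGroup G] (c : Ctx k σ G)

theorem Ctx.exists_act [Infinite k] [Finite σ] : ∃ E : Set k, E.Finite ∧ ∀ s : k ≃+* k,
    (∀ e ∈ E, s e = e) → ∃ φ : G →+ G, ∀ x, ∀ v ∈ c.rep x, (fun i => s (v i)) ∈ c.rep (φ x) := by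
  obtain ⟨T, -, hT⟩ := c.exists_gens Set.univ
  refine ⟨(⋃ f ∈ T, Set.range fun m => coeff m f) ∪
    ⋃ α, ⋃ l, Set.range fun m => coeff m (c.law α l), ?_, fun s hs => ?_⟩
  · exact (T.finite_toSet.biUnion fun f _ => finite_coeffs f).union
      (Set.finite_iUnion fun α => Set.finite_iUnion fun l => finite_coeffs _)
  have h1 : ∀ x, ∃ y, ∀ v ∈ c.rep x, (fun i => s (v i)) ∈ c.rep y := by
    intro x
    obtain ⟨v, hv⟩ := c.nonempty x
    obtain ⟨i, hm, hi⟩ := c.mark_ne x v hv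
    obtain ⟨y, hy⟩ := c.cone_closed (fun i => s (v i)) i hm (by simpa using hi) fun f hf => by
      refine eval_eq_zero_of_span (T := (T : Set _)) (fun g hg => ?_) f ?_
      · rw [eval_comp_fix s fun m => hs _ (Or.inl ?_)]
        · have : g ∈ c.I Set.univ := hT ▸ Ideal.subset_span hg
          rw [this x trivial v hv, map_zero]
        · simp only [Set.mem_iUnion]
          exact ⟨g, hg, m, rfl⟩
      · rw [hT]
        exact fun y _ w hw => hf y w hw
    refine ⟨y, fun w hw => ?_⟩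
    obtain ⟨a, ha, rfl⟩ := c.exists_smul_ne hv hw
    have := c.smul_mem y _ hy (s a) (by simpa using ha)
    rwa [show (fun i => s ((a • v) i)) = s a • fun i => s (v i) from funext fun i => by simp]
  choose φ hφ using h1
  refine ⟨AddMonoidHom.mk' φ fun x y => ?_, hφ⟩
  obtain ⟨v, hv⟩ := c.nonempty x
  obtain ⟨w, hw⟩ := c.nonempty y
  obtain ⟨α, l, hl⟩ := c.law_cover x y v hv w hw
  have he : ∀ l, eval (Sum.elim (fun i => s (v i)) fun i => s (w i)) (c.law α l) =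
      s (eval (Sum.elim v w) (c.law α l)) := by
    intro l
    rw [← eval_comp_fix s fun m => hs _ (Or.inr ?_)]
    · congr 2
      funext i
      cases i <;> rfl
    · simp only [Set.mem_iUnion]
      exact ⟨α, l, m, rfl⟩
  have h2 := c.law_mem α _ _ _ (hφ x v hv) _ (hφ y w hw) l (by rw [he]; simpa using hl)
  simp only [he] at h2
  exact c.eq_of_mem _ _ _ (hφ _ _ (c.law_mem α x y v hv w hw l hl)) h2

theorem Ctx.exists_chart_curve [Infinite k] [Finite σ] {B B₁ : Set G} (hB : IsClosed B ∧ IsIrreducible B)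
    (hB₁ : IsClosed B₁ ∧ IsIrreducible B₁) (hlt : B₁ ⊂ B) (h0 : 0 ∈ B₁) :
    ∃ (Q : Ideal (MvPolynomial σ k)) (i₀ : σ), mark i₀ ∧ Q.IsPrime ∧ td Q = 1 ∧ ¬ c.I B₁ ≤ Q ∧
      (∃ v₀ ∈ c.rep 0, ∀ f ∈ Q, eval v₀ f = 0) ∧
      ∀ v : σ → k, (∀ f ∈ Q, eval v f = 0) → v i₀ = 1 ∧ ∃ x ∈ B, v ∈ c.rep x := by
  classical
  obtain ⟨v₀, hv₀, i₀, hm, h1⟩ := c.exists_rep_one 0
  have := c.isPrime_I hB.2
  have := c.isPrime_I hB₁.2
  have : (RingHom.ker (eval v₀ : MvPolynomial σ k →+* k)).IsPrime := RingHom.ker_isPrime _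
  obtain ⟨P, hP, hPle⟩ := Ideal.exists_minimalPrimes_le
    (I := c.I B ⊔ Ideal.span {(X i₀ - 1 : MvPolynomial σ k)})
    (J := RingHom.ker (eval v₀ : MvPolynomial σ k →+* k))
    (sup_le (fun f hf => hf 0 (hlt.1 h0) v₀ hv₀)
      ((Ideal.span_singleton_le_iff_mem _).2 (by rw [RingHom.mem_ker]; simp [h1])))
  have := hP.1.1
  have hXP : (X i₀ - 1 : MvPolynomial σ k) ∈ P :=
    hP.1.2 (Ideal.mem_sup_right (Ideal.mem_span_singleton_self _))
  have t1 := td_le_succ _ hP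
  have t2 := c.td_lt_td hB₁.1 hB₁.2 hB.2 hlt
  have t3 := c.one_le_td hB₁.2
  have hn : ¬ c.I B₁ ≤ P := by
    intro h
    have : c.I B₁ < P := by
      refine lt_of_le_of_ne h fun he => ?_
      obtain ⟨a, ha⟩ := Infinite.exists_notMem_finset ({0, 1} : Finset k)
      simp only [Finset.mem_insert, Finset.mem_singleton, not_or] at ha
      have h2 : (X i₀ - 1 : MvPolynomial σ k) ∈ c.I B₁ := he ▸ hXP
      have := h2 0 h0 _ (c.smul_mem 0 v₀ hv₀ a ha.1)
      simp [h1, sub_eq_zero] at this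
      exact ha.2 this
    have := td_lt this
    omega
  obtain ⟨Q, hQ, hPQ, hQ1, hQv, hQn⟩ := exists_curve P v₀ (fun f hf => hPle hf) (c.I B₁) hn
    (by omega)
  refine ⟨Q, i₀, hm, hQ, hQ1, hQn, ⟨v₀, hv₀, hQv⟩, fun v hv => ?_⟩
  have hv1 : v i₀ = 1 := by simpa [sub_eq_zero] using hv _ (hPQ hXP)
  have hIB : c.I B ≤ Q := (le_sup_left.trans hP.1.2).trans hPQ
  obtain ⟨x, hx⟩ := c.cone_closed v i₀ hm (by simp [hv1]) fun f hf =>
    hv f (hIB fun y _ w hw => hf y w hw)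
  refine ⟨hv1, x, ?_, hx⟩
  by_contra hxB
  obtain ⟨f, hf, hne⟩ := c.exists_I_ne hB.1 hxB hx
  exact hne (hv f (hIB hf))

theorem int_mem (V : ValuationSubring k) {ω : k} (h : IsIntegral ℤ ω) : ω ∈ V := by
  obtain ⟨f, hf, hf0⟩ := h
  refine val_root V (hf.map (Int.castRingHom k)) (fun i => ?_) ?_
  · rw [Polynomial.coeff_map]; exact intCast_mem V _
  · rw [Polynomial.eval_map, ← hf0]
    exact congrArg (fun g => Polynomial.eval₂ g _ f) (RingHom.ext_int _ _)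

theorem near_grid [IsAlgClosed k] (V : ValuationSubring k) {p : k} (hp : p ∈ V) (hp0 : p ≠ 0)
    (hp' : p⁻¹ ∉ V) {f : Polynomial (Polynomial k)} (hf : f.Monic)
    (hV : ∀ a b, (f.coeff a).coeff b ∈ V) {d : ℕ} (hd : f.natDegree < d) {s : k}
    (hs : s ∈ prin V.toSubring (p ^ d)) {x : k}
    (hx : (f.map (Polynomial.evalRingHom s)).eval x = 0) :
    x ∈ V ∧ ∃ ρ ∈ (f.map (Polynomial.evalRingHom 0)).roots, x - ρ ∈ prin V.toSubring (p ^ 1) := by
  have hsV : s ∈ V.toSubring := (val_loc V hp hp' (show 1 ≤ d by omega)).le _ hs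
  have hxV : x ∈ V := val_root V (hf.map _) (fun a => by
    rw [Polynomial.coeff_map]; exact poly_eval_mem (O := V.toSubring) (hV a) hsV) hx
  refine ⟨hxV, val_near_root V (hf.map _) hp hp0 hp' le_rfl (d := d)
    (Polynomial.natDegree_map_le.trans hd.le) (by omega) ?_⟩
  have := eval_map_sub (O := V.toSubring) hV hsV hs hxV
  rw [hx, zero_sub] at this
  rw [one_mul]
  exact neg_mem_iff.1 this

theorem Ctx.exists_test [IsAlgClosed k] [CharZero k] [Finite σ] {B₁ : AddSubgroup G} {B : Set G}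
    (hB : IsClosed B ∧ IsIrreducible B) (hB₁ : IsClosed (B₁ : Set G) ∧ IsIrreducible (B₁ : Set G))
    (hlt : (B₁ : Set G) ⊂ B) :
    ∃ (Q : Ideal (MvPolynomial σ k)) (t : MvPolynomial σ k) (N a : ℕ), (a : k) ≠ 0 ∧
      (∀ s : k, ∃ v : σ → k, (∀ f ∈ Q, eval v f = 0) ∧ eval v t = s) ∧
      (∀ v : σ → k, (∀ f ∈ Q, eval v f = 0) → ∃ x ∈ B, v ∈ c.rep x) ∧
      ∀ (w : Fin N → σ → k) (x : Fin N → G) (ω : Fin N → k), (∀ j, IsIntegral ℤ (ω j)) →
        Function.Injective ω → (∀ j, w j ∈ c.rep (x j)) → (∀ j, ∀ f ∈ Q, eval (w j) f = 0) →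
        (∀ j, eval (w j) t = a * ω j) → ∃ j j', ∀ n : ℕ, 1 ≤ n → n • (x j - x j') ∉ B₁ := by
  classical
  have := Fintype.ofFinite σ
  obtain ⟨Q, i₀, hm, hQ, hQ1, hQn, ⟨v₀, hv₀, hQv⟩, hpt⟩ :=
    c.exists_chart_curve hB hB₁ hlt B₁.zero_mem
  obtain ⟨t, pp, hmon, hsurj, hroot⟩ := curve_param Q hQ1
  obtain ⟨D, hD⟩ := c.cut_closed hB₁.1
  obtain ⟨C, hC⟩ := curve_count Q hQ1 D
  obtain ⟨E₁, hE₁, -, hgood⟩ := c.exists_good
  let E : Set k := E₁ ∪ ⋃ i, Set.range fun m : ℕ × ℕ => ((pp i).coeff m.1).coeff m.2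
  have hE : E.Finite := hE₁.union (Set.finite_iUnion fun i => finite_coeffs₂ _)
  obtain ⟨p, V, hp, -, hEV, hp', hsep⟩ := exists_val E hE 0
  obtain ⟨p', V', hq, hlt', hEV', hq', hsep'⟩ := exists_val E hE p
  let d : ℕ := (Finset.univ.sup fun i => (pp i).natDegree) + 1
  let grid : Finset (σ → k) :=
    Fintype.piFinset fun i => ((pp i).map (Polynomial.evalRingHom 0)).roots.toFinset
  have ha : (((p * p') ^ d : ℕ) : k) ≠ 0 :=
    Nat.cast_ne_zero.2 (pow_ne_zero _ (mul_ne_zero hp.ne_zero hq.ne_zero))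
  refine ⟨Q, t, (grid ×ˢ grid).card * C + 1, (p * p') ^ d, ha, hsurj, fun v hv => (hpt v hv).2,
    fun w x ω hω hinj hw hwQ hwt => ?_⟩
  have key : ∀ (q : ℕ) (U : ValuationSubring k), q.Prime → (∀ e ∈ E, e ∈ U) → (q : k)⁻¹ ∉ U →
      q ∣ p * p' → ∃ ρ : Fin ((grid ×ˢ grid).card * C + 1) → σ → k, (∀ j, ρ j ∈ grid) ∧
        ∀ j j', ρ j = ρ j' → c.Cong U.toSubring (prin U.toSubring ((q : k) ^ 1)) (x j - x j') 0 := by
    rintro q U hq hEU hq' ⟨e, he⟩
    have hqU : (q : k) ∈ U := natCast_mem U q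
    have h1 := fun j i => near_grid U hqU (Nat.cast_ne_zero.2 hq.ne_zero) hq' (hmon i)
      (fun a b => hEU _ (Or.inr (Set.mem_iUnion.2 ⟨i, (a, b), rfl⟩))) (d := d)
      (Nat.lt_succ_of_le (Finset.le_sup (f := fun i => (pp i).natDegree) (Finset.mem_univ i)))
      (s := eval (w j) t) ⟨(e : k) ^ d * ω j, U.toSubring.mul_mem
        (U.toSubring.pow_mem (natCast_mem U e) _) (int_mem U (hω j)), by
          rw [hwt, he]; push_cast; ring⟩ (hroot _ (hwQ j) i)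
    choose hwU ρ hρ hρ' using h1
    have hprim : ∀ j, Prim U.toSubring (w j) := fun j =>
      ⟨hwU j, i₀, hm, (hpt _ (hwQ j)).1 ▸ un_one⟩
    refine ⟨ρ, fun j => Fintype.mem_piFinset.2 fun i => Multiset.mem_toFinset.2 (hρ j i),
      fun j j' e => Ctx.cong_sub (val_loc U hqU hq' le_rfl)
        (hgood _ (val_isLoc U) fun e he => hEU e (Or.inl he))
        ⟨_, hw j, _, hw j', hprim j, hprim j', fun i => ?_⟩⟩
    have := (prin U.toSubring ((q : k) ^ 1)).sub_mem (hρ' j i) (hρ' j' i)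
    rwa [e, sub_sub_sub_cancel_right] at this
  obtain ⟨ρ, hρ, hρ'⟩ := key p V hp hEV hp' (dvd_mul_right _ _)
  obtain ⟨ρ₂, hρ₂, hρ₂'⟩ := key p' V' hq hEV' hq' (dvd_mul_left _ _)
  obtain ⟨y, -, hy⟩ := Finset.exists_lt_card_fiber_of_mul_lt_card_of_maps_to
    (s := Finset.univ) (t := grid ×ˢ grid) (f := fun j => (ρ j, ρ₂ j)) (n := C)
    (fun j _ => Finset.mem_product.2 ⟨hρ j, hρ₂ j⟩) (by simp)
  obtain ⟨j₀, hj₀⟩ := Finset.card_pos.1 (lt_of_le_of_lt (Nat.zero_le _) hy)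
  by_contra hcon
  push Not at hcon
  have hG := hgood _ (val_isLoc V) fun e he => hEV e (Or.inl he)
  have hG' := hgood _ (val_isLoc V') fun e he => hEV' e (Or.inl he)
  have hcos : ∀ j ∈ Finset.univ.filter fun j => (ρ j, ρ₂ j) = y, x j - x j₀ ∈ B₁ := by
    intro j hj
    have e := Prod.ext_iff.1 ((Finset.mem_filter.1 hj).2.trans (Finset.mem_filter.1 hj₀).2.symm)
    obtain ⟨n, hn, h⟩ := hcon j j₀
    obtain ⟨b, n', hn', rfl⟩ := Nat.exists_eq_pow_mul_and_not_dvd (n := n) (by omega) p hp.ne_one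
    rw [mul_nsmul] at h
    refine c.saturated V' hG' hq (Nat.cast_ne_zero.2 hq.ne_zero) hq' hsep' hB₁.1 (hρ₂' j j₀ e.2)
      (n := p ^ b) (fun h => ?_) (c.saturated V hG hp (Nat.cast_ne_zero.2 hp.ne_zero) hp' hsep
        hB₁.1 (Ctx.cong_nsmul (val_loc V (natCast_mem V p) hp' le_rfl) hG (hρ' j j₀ e.1) _) hn' h)
    exact hlt'.ne' ((Nat.prime_dvd_prime_iff_eq hq hp).1 (hq.dvd_of_dvd_pow h))
  obtain ⟨T, hT, hT'⟩ := hD (-x j₀)
  have hwinj : Function.Injective w := by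
    intro j j' e
    have := hwt j
    rw [e, hwt j'] at this
    exact hinj (mul_left_cancel₀ ha this).symm
  have := hC T hT ?_ ((Finset.univ.filter fun j => (ρ j, ρ₂ j) = y).image w) ?_
  · rw [Finset.card_image_of_injective _ hwinj] at this
    omega
  · by_contra hcon
    push Not at hcon
    have h0 : -x j₀ ∈ B₁ := by
      simpa using (hT' 0 v₀ hv₀).1 fun h hh => hQv h (hcon h hh)
    refine hQn fun f hf => mem_of_vanish Q fun v' hv' => ?_
    obtain ⟨-, z, -, hz⟩ := hpt v' hv'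
    have h1 := (hT' z v' hz).1 fun h hh => hv' h (hcon h hh)
    exact hf z (by simpa using B₁.sub_mem h1 h0) v' hz
  · intro v' hv'
    obtain ⟨j, hj, rfl⟩ := Finset.mem_image.1 hv'
    exact ⟨hwQ j, (hT' _ _ (hw j)).2 (by simpa [sub_eq_add_neg] using hcos j hj)⟩

include c in
theorem Ctx.eq_top [IsAlgClosed k] [CharZero k] [Finite σ] [IrreducibleSpace G]
    {W : AddSubgroup G} (hW : IsClosed (W : Set G) ∧ IsIrreducible (W : Set G))
    (h : ∀ x : G, ∃ n : ℕ, 1 ≤ n ∧ n • x ∈ W) : (W : Set G) = Set.univ := by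
  by_contra hne
  obtain ⟨Q, t, N, a, -, h1, h2, h3⟩ := c.exists_test
    ⟨isClosed_univ, IrreducibleSpace.isIrreducible_univ G⟩ hW (Set.ssubset_univ_iff.2 hne)
  choose w hw hw' using fun j : Fin N => h1 (a * ((j : ℕ) : k))
  choose x _ hx using fun j => h2 _ (hw j)
  obtain ⟨j, j', h4⟩ := h3 w x (fun j => ((j : ℕ) : k))
    (fun j => by simpa using isIntegral_algebraMap (R := ℤ) (A := k) (x := (j : ℕ)))
    (fun j j' e => Fin.ext (Nat.cast_injective e)) hx hw hw'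
  obtain ⟨n, hn, h5⟩ := h (x j - x j')
  exact h4 n hn h5

end

theorem Ctx.ndProp [AddCommGroup G] (c : Ctx k σ G) [IsAlgClosed k] [CharZero k] [Finite σ] :
    NDProp G := by
  classical
  intro B B₁ hB hB₁ hlt _ E₀ hE₀
  obtain ⟨Q, t, N, a, -, hsurj, hpt, htest⟩ := c.exists_test hB hB₁ (SetLike.coe_ssubset_coe.2 hlt)
  obtain ⟨E₂, hE₂, hact⟩ := c.exists_act
  obtain ⟨T₁, hT₁, hT₁'⟩ := c.exists_gens (B₁ : Set G)
  obtain ⟨TQ, hTQ⟩ := (isNoetherianRing_iff_ideal_fg _).1 inferInstance Q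
  choose r hr using c.nonempty
  let E : Set k := E₂ ∪ ((⋃ f ∈ insert t (T₁ ∪ TQ), Set.range fun m => coeff m f) ∪
    ⋃ u ∈ E₀, Set.range (r u))
  have hE : E.Finite := hE₂.union
    (((insert t (T₁ ∪ TQ)).finite_toSet.biUnion fun f _ => finite_coeffs f).union
      (hE₀.biUnion fun u _ => Set.finite_range _))
  have hEf : ∀ f ∈ insert t (T₁ ∪ TQ), ∀ m, coeff m f ∈ E := fun f hf m => by
    refine Or.inr (Or.inl ?_)
    simp only [Set.mem_iUnion]
    exact ⟨f, hf, m, rfl⟩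
  obtain ⟨ω, s, hω, hs, hinj⟩ := exists_conj E hE N
  obtain ⟨v, hvQ, hvt⟩ := hsurj (a * ω)
  obtain ⟨x, hxB, hx⟩ := hpt v hvQ
  refine ⟨x, hxB, fun n hn u hu hnu => ?_⟩
  choose φ hφ using fun j => hact (s j) fun e he => hs j e (Or.inl he)
  have hφB : ∀ j, ∀ b ∈ B₁, φ j b ∈ B₁ := by
    intro j b hb
    refine c.mem_of_gens hB₁.1 hT₁ hT₁' (hφ j b _ (hr b)) fun f hf => ?_
    have hfI : f ∈ c.I B₁ := hT₁' ▸ Ideal.subset_span hf
    rw [eval_comp_fix (s j) fun m => hs j _ (hEf f (by simp [Finset.mem_coe.1 hf]) m),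
      hfI b hb _ (hr b), map_zero]
  have hφu : ∀ j, φ j u = u := by
    intro j
    refine AddSubgroup.closure_induction (fun y hy => ?_) (map_zero _)
      (fun a b _ _ ha hb => by rw [map_add, ha, hb]) (fun a _ ha => by rw [map_neg, ha]) hu
    refine c.eq_of_mem _ _ _ (hφ j y _ (hr y)) ?_
    rw [show (fun i => s j (r y i)) = r y from funext fun i => hs j _ ?_]
    · exact hr y
    · refine Or.inr (Or.inr ?_)
      simp only [Set.mem_iUnion]
      exact ⟨y, hy, i, rfl⟩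
  obtain ⟨j, j₀, h⟩ := htest (fun j i => s j (v i)) (fun j => φ j x) (fun j => s j ω)
    (fun j => hω.map (s j).toRingHom.toIntAlgHom) hinj (fun j => hφ j x v hx) (fun j f hf => by
      refine eval_eq_zero_of_span (T := (TQ : Set _)) (fun g hg => ?_) f (hTQ ▸ hf)
      rw [eval_comp_fix (s j) fun m => hs j _ (hEf g (by simp [Finset.mem_coe.1 hg]) m),
        hvQ g (hTQ ▸ Ideal.subset_span hg), map_zero]) fun j => by
      rw [eval_comp_fix (s j) fun m => hs j _ (hEf t (by simp) m), hvt]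
      simp
  refine h n hn ?_
  have := B₁.sub_mem (hφB j _ hnu) (hφB j₀ _ hnu)
  rwa [map_add, map_add, hφu, hφu, map_nsmul, map_nsmul, add_sub_add_right_eq_sub,
    ← nsmul_sub] at this

end Pool.Agent.P.MP_84b56d_ag.Q
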