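import Pool.Agent.P.MP_84b56d_ag.Q.Det

/-! Density of the integral points of a punctured commutative algebraic group. -/

open MvPolynomial TopologicalSpace Pool.Agent.P.MP_84b56d_ag.Z

namespace Pool.Agent.P.MP_84b56d_ag.Q

variable {k : Type*} {σ : Type} {G : Type*} [Field k] [AddCommGroup G] [TopologicalSpace G] [Mk σ]
  (c : Ctx k σ G)

theorem count_bad {b : Set (MvPolynomial σ k)} (hbf : b.Finite)
    (hb : ∀ f ∈ b, ∃ d, f.IsHomogeneous d) {E : Set k} (A : Arith k E)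
    (hE : ∀ f ∈ b, ∀ m, coeff m f ∈ E) : ∃ C : ℕ, ∀ (L : ℕ) (x : G), x ∉ ZS c b →
      (∃ v ∈ c.rep x, ∀ l, A.Sm L (v l)) → ∀ Q : Finset A.Pr,
        (∀ q ∈ Q, BadG c b (A.O q) (A.M q) x) → Q.card ≤ C * (L + 1) := by
  choose! B hB using fun f (hf : f ∈ b) => Arith.sm_eval (A := A) (C (A.h : k) * f)
    fun m => by rw [coeff_C_mul]; exact A.clear _ (hE f hf m)
  obtain ⟨B₀, hB₀⟩ := (hbf.image fun f => B f + (C (A.h : k) * f).totalDegree).bddAbove
  refine ⟨A.C * (B₀ + 1), fun L x hx ⟨v, hv, hs⟩ Q hQ => ?_⟩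
  obtain ⟨f, hf, hne⟩ : ∃ f ∈ b, eval v f ≠ 0 := by
    by_contra h
    push Not at h
    refine hx fun f hf w hw => ?_
    obtain ⟨a, rfl⟩ := c.exists_smul x v hv w hw
    obtain ⟨e, he⟩ := hb f hf
    rw [eval_smul_of_hom he, h f hf, mul_zero]
  obtain ⟨e, he⟩ := hb f hf
  have h1 := hB f hf L v hs
  rw [map_mul, eval_C] at h1
  have h2 := A.count' (mul_ne_zero (fun h => A.h_ne (Subtype.ext h)) hne) 1 _ h1 Q fun q hq => by
    obtain ⟨u, hu, pu, h⟩ := hQ q hq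
    obtain ⟨a, ha, rfl, -⟩ := Raw.prim_smul hu hv pu fun l => A.R_le_O q (hs l).1
    rw [pow_one, eval_smul_of_hom he]
    exact mul_mem_prin (A.R_le_O q A.h.2) (mul_mem_prin ((A.O q).pow_mem ha e) (h f hf))
  have h3 : B f + (C (A.h : k) * f).totalDegree ≤ B₀ := hB₀ ⟨f, hf, rfl⟩
  rw [one_mul] at h2
  rw [mul_assoc]
  refine h2.trans (Nat.mul_le_mul_left _ ?_)
  nlinarith [Nat.zero_le (B f * L)]

theorem out [IsAlgClosed k] [CharZero k] [Finite σ] [IrreducibleSpace G]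
    (b : Set (MvPolynomial σ k)) (hbf : b.Finite) (hb : ∀ f ∈ b, ∃ d, f.IsHomogeneous d)
    (hcod : ∀ W, IsClosed W → IsIrreducible W → W ⊆ ZS c b →
      td (c.I W) + 2 ≤ td (c.I Set.univ)) (E₀ : Set k) (hE₀ : E₀.Finite) :
    ∃ (E : Set k) (A : Arith k E) (S : Set A.Pr), E₀ ⊆ E ∧ S.Finite ∧
      Dense {x | x ∉ ZS c b ∧ (∃ v ∈ c.rep x, ∀ l, v l ∈ A.R) ∧ ∀ q, q ∉ S →
        (∃ v ∈ c.rep x, Prim (A.O q) v) ∧ ¬ BadG c b (A.O q) (A.M q) x} := by
  classical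
  have := c.noetherianSpace
  have := c.sepCont
  have := c.t1Space
  have hirr := IrreducibleSpace.isIrreducible_univ G
  have hZ : IsClosed (ZS c b) := c.isClosed_zero b
  have hZ' : ZS c b ≠ Set.univ := fun h => by
    have := hcod _ isClosed_univ hirr h.ge
    omega
  have hbl := blocks (fun W => td (c.I W)) (td (c.I Set.univ))
    (fun W _ hW => c.td_le_td hW hirr (Set.subset_univ W))
    (fun W W' h1 h2 _ h4 h => c.td_lt_td h1 h2 h4 h) c.ndProp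
  let Φ : ∀ {n : ℕ}, (Fin n → G) → ((Fin n → ℤ) →+ G) := fun x =>
    AddMonoidHom.mk' (fun a => ∑ i, a i • x i) fun a b => by
      simp only [Pi.add_apply, add_zsmul, Finset.sum_add_distrib]
  have hΦ : ∀ {n : ℕ} (x : Fin n → G) a, Φ x a ∈ AddSubgroup.closure (Set.range x) :=
    fun x a => show ∑ i, a i • x i ∈ _ from AddSubgroup.sum_mem _ fun i _ =>
      AddSubgroup.zsmul_mem _ (AddSubgroup.subset_closure (Set.mem_range_self i)) _
  rcases (ZS c b).eq_empty_or_nonempty with h0 | ⟨z, hz⟩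
  · obtain ⟨E₁, hE₁, h1⟩ := not_bad_of_empty c b hb h0
    obtain ⟨n, x, hx⟩ := hbl 1
    obtain ⟨E, A, hE, -, hprim, hint⟩ := c.setup _ (Set.finite_range x) _ (hE₀.union hE₁)
    rw [Set.union_subset_iff] at hE
    refine ⟨E, A, ∅, hE.1, Set.finite_empty, dense_of le_rfl (Φ x) hx hZ hZ' fun Y _ hY => ?_⟩
    obtain ⟨N, hN⟩ := hY 2
    have h2 := hN N le_rfl
    have h3 := box_pos n N
    obtain ⟨a, h4, h5⟩ := Finset.exists_mem_notMem_of_card_lt_card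
      (show ((box n N).filter (· ∈ Y)).card < (box n N).card by omega)
    exact ⟨a, fun h => h5 (Finset.mem_filter.2 ⟨h4, h⟩), fun h => ⟨h, hint _ (hΦ x a), fun q _ =>
      ⟨hprim q _ (hΦ x a), h1 _ _ (A.loc q) (hE.2.trans (A.subset_O q)) _⟩⟩⟩
  obtain ⟨d, hd⟩ : ∃ d, td (c.I Set.univ) = d + 2 + 1 := by
    have h1 := hcod {z} isClosed_singleton isIrreducible_singleton (Set.singleton_subset_iff.2 hz)
    have h2 := c.one_le_td (isIrreducible_singleton (x := z))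
    exact ⟨td (c.I Set.univ) - 3, by omega⟩
  obtain ⟨κ, hκ⟩ := c.height_bound
  obtain ⟨C₀, C₁, E₁, hE₁, hdet⟩ := det_main c (d + 2) hd (by omega) b hb d fun W h1 h2 h3 => by
    have := hcod W h1 h2 h3
    omega
  obtain ⟨n, x, hx⟩ := hbl (2 * (κ + 1) * (d + 2))
  obtain ⟨E, A, hE, hlaw, hprim, hint⟩ := c.setup _ (Set.finite_range x) _
    (hE₀.union (hE₁.union (hbf.biUnion fun f _ => finite_coeffs f)))
  simp only [Set.union_subset_iff, Set.iUnion_subset_iff, Set.range_subset_iff] at hE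
  obtain ⟨C, hC⟩ := hdet E A hE.2.1
  obtain ⟨C', hC'⟩ := count_bad c hbf hb A hE.2.2
  have hm : ∀ i, x i ∈ AddSubgroup.closure (Set.range x) :=
    fun i => AddSubgroup.subset_closure ⟨i, rfl⟩
  obtain ⟨C₃, hC₃⟩ := hκ E A hlaw (Fin n) x (hint 0 (zero_mem _)) (fun i => hint _ (hm i))
    fun i => hint _ (neg_mem (hm i))
  have hsm : ∀ N, 1 ≤ N → ∀ a ∈ box n N, ∃ v ∈ c.rep (Φ x a),
      ∀ l, A.Sm (C₃ * N ^ (κ + 1)) (v l) := fun N hN a ha => by
    obtain ⟨v, h1, h2⟩ := hC₃ N hN a (CountP.mem_box.1 ha)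
    exact ⟨v, h1, fun l => (h2 l).mono
      (Nat.mul_le_mul_left _ (Nat.pow_le_pow_right hN (Nat.le_succ _)))⟩
  have hL : ∀ N, 1 ≤ N → C₃ * N ^ (κ + 1) + 1 ≤ (C₃ + 1) * N ^ (κ + 1) := fun N hN => by
    have : 1 ≤ N ^ (κ + 1) := Nat.pow_pos hN
    nlinarith
  obtain ⟨S, hS, h⟩ := comb_main (n := n) (g := d + 2) (κ := κ + 1) (C₀ := C₀) (C₁ := C₁)
    (C := (C + C') * (C₃ + 1)) (Bad := fun q => {a | BadG c b (A.O q) (A.M q) (Φ x a)}) rfl
    (by omega) (fun μ ρ N hμ hρ hN hz Ω hΩ => by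
      have hN1 : 1 ≤ N := le_trans (Nat.mul_pos (by omega) hρ) hN
      obtain ⟨I, p, h1, h2, h3⟩ := hC _ (Φ x) (fun q a => hprim q _ (hΦ x a))
        (fun a => hint _ (hΦ x a)) μ _ hμ (box n ρ) (CountP.mem_box.2 fun i => by simp)
        (fun W h1 h2 h3 => by
          obtain ⟨ψ, h4, h5⟩ := hx W h1 h2 h3
          have hinj : Function.Injective ψ := (injective_iff_map_eq_zero ψ).2 fun a ha =>
            by_contra fun h => h5 a h fun w hw => by simpa [ha] using hw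
          refine ⟨(box _ ρ).image ψ, Finset.image_subset_iff.2 (h4 ρ), ?_, fun a ha a' ha' h => ?_⟩
          · rwa [Finset.card_image_of_injective _ hinj, CountP.card_box]
          · obtain ⟨a, -, rfl⟩ := Finset.mem_image.1 ha
            obtain ⟨a', -, rfl⟩ := Finset.mem_image.1 ha'
            rw [← map_sub]
            exact h5 _ (sub_ne_zero.2 fun e => h (by rw [e])))
        (fun τ hτ => hsm N hN1 _ (CountP.box_mono hN (sum_mem_box τ hτ))) Ω
        fun t ht => hsm N hN1 _ (neg_mem_box (hΩ ht))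
      refine ⟨I, p, fun i hi => ?_, h2, fun Q e hQ => (h3 Q e fun q hq => ?_).trans ?_⟩
      · obtain ⟨τ, hτ, e⟩ := h1 i hi
        exact e ▸ sum_mem_box τ hτ
      · simp only [Finset.mem_union]
        convert hQ q hq using 5
        rfl
      · have := Nat.mul_le_mul_left (C * (μ + 1) ^ (d + 2) * μ) (hL N hN1)
        refine this.trans (le_trans (le_of_eq (by ring)) (Nat.mul_le_mul_right _
          (Nat.mul_le_mul_right _ (Nat.mul_le_mul_right _ (Nat.mul_le_mul_right (C₃ + 1)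
            (Nat.le_add_right C C')))))))
    ((Φ x) ⁻¹' ZS c b) fun N hN a ha ha' Q hQ => by
      refine (hC' _ _ ha' (hsm N hN a ha) Q hQ).trans ?_
      rw [mul_assoc]
      exact Nat.mul_le_mul (Nat.le_add_left _ _) (hL N hN)
  refine ⟨E, A, S, hE.1, hS, dense_of (Nat.mul_pos (by omega) (by omega)) (Φ x) hx hZ hZ'
    fun Y hY hY' => ?_⟩
  obtain ⟨a, h1, h2⟩ := h Y hY hY'
  exact ⟨a, h1, fun h => ⟨h, hint _ (hΦ x a), fun q hq => ⟨hprim q _ (hΦ x a), h2 q hq⟩⟩⟩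

theorem main [IsAlgClosed k]
    [CharZero k] [Finite σ] [IrreducibleSpace G]
    (b : Set (MvPolynomial σ k)) (hbf : b.Finite) (hb : ∀ f ∈ b, ∃ d, f.IsHomogeneous d)
    (hcod : ∀ W, IsClosed W → IsIrreducible W → W ⊆ ZS c b →
      td (c.I W) + 2 ≤ td (c.I Set.univ)) (E₀ : Set k) (hE₀ : E₀.Finite) :
    ∃ R : Subring k, (∃ s : Finset k, R = Subring.closure (s : Set k)) ∧ E₀ ⊆ R ∧
      Dense {x | x ∉ ZS c b ∧ (∃ v ∈ c.rep x, ∀ i, v i ∈ R) ∧
        ∀ s : Ideal R, s.IsPrime → s.height = 1 → ∃ v ∈ c.rep x, (∀ i, v i ∈ R) ∧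
          ∃ f ∈ b, ∀ a : R, (a : k) = eval v f → a ∉ s} := by
  classical
  have := Fintype.ofFinite σ
  obtain ⟨E, A, S, hE, hS, hdense⟩ := out c b hbf hb hcod _
    (hE₀.union (hbf.biUnion fun f _ => finite_coeffs f))
  simp only [Set.union_subset_iff, Set.iUnion_subset_iff, Set.range_subset_iff] at hE
  have hex : ∀ q : A.Pr, ∃ a ∈ q.1, a ≠ 0 := fun q =>
    Submodule.exists_mem_ne_zero_of_ne_bot (Ideal.ne_bot_of_height_eq_one q.2.2.1)
  choose a ha ha0 using hex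
  obtain ⟨R, hR, hle, hinv, hprime⟩ := loc_away A.R A.fg (A.h * ∏ q ∈ hS.toFinset, a q)
    (mul_ne_zero A.h_ne (Finset.prod_ne_zero_iff.2 fun q _ => ha0 q))
  have hh : (A.h : k) ≠ 0 := fun h => A.h_ne (Subtype.ext h)
  have hER : E₀ ⊆ R := by
    intro e he
    have h0 : ((∏ q ∈ hS.toFinset, a q : A.R) : k) ≠ 0 := fun h =>
      Finset.prod_ne_zero_iff.2 (fun q _ => ha0 q) (Subtype.ext h)
    have := R.mul_mem (R.mul_mem hinv (hle (∏ q ∈ hS.toFinset, a q).2)) (hle (A.clear e (hE.1 he)))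
    rwa [show ((A.h * ∏ q ∈ hS.toFinset, a q : A.R) : k)⁻¹ * (∏ q ∈ hS.toFinset, a q : A.R) *
      (A.h * e) = e by rw [Subring.coe_mul]; field_simp] at this
  refine ⟨R, hR, hER, hdense.mono ?_⟩
  rintro x ⟨hxZ, ⟨v, hv, hvR⟩, hx⟩
  refine ⟨hxZ, ⟨v, hv, fun i => hle (hvR i)⟩, fun s hs h1 => ?_⟩
  obtain ⟨hq1, hq2, hq3⟩ := hprime s hs h1
  let q : A.Pr := ⟨s.comap (Subring.inclusion hle), hq1, hq2,
    fun h => hq3 (Ideal.mul_mem_right _ _ h)⟩
  have hqS : q ∉ S := fun h => hq3 (Ideal.mul_mem_left _ _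
    (Ideal.mem_of_dvd _ (Finset.dvd_prod_of_mem a (hS.mem_toFinset.2 h)) (ha q)))
  obtain ⟨⟨u, hu, pu⟩, hnc⟩ := hx q hqS
  choose β hβ hβ' using pu.1
  have hB : ∏ i, β i ∉ q.1 := fun h => by
    have := q.2.1
    obtain ⟨i, -, hi⟩ := Ideal.IsPrime.prod_mem_iff.1 h
    exact hβ i hi
  have hBu := A.un_of_notMem q hB
  have hmem : ∀ i, ((∏ i, β i : A.R) : k) * u i ∈ A.R := by
    intro i
    rw [← Finset.prod_erase_mul _ _ (Finset.mem_univ i), Subring.coe_mul, mul_assoc]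
    exact A.R.mul_mem (Subtype.mem _) (hβ' i)
  have hrep : (fun i => ((∏ i, β i : A.R) : k) * u i) ∈ c.rep x := c.smul_mem x u hu _ hBu.2.1
  have hprim : Prim (A.O q) fun i => ((∏ i, β i : A.R) : k) * u i := by
    obtain ⟨i, hm, hi⟩ := pu.2
    exact ⟨fun i => A.R_le_O q (hmem i), i, hm, hBu.mul hi⟩
  obtain ⟨f, hf, hne⟩ : ∃ f ∈ b, eval (fun i => ((∏ i, β i : A.R) : k) * u i) f ∉ A.M q := by
    by_contra h
    push Not at h
    exact hnc ⟨_, hrep, hprim, h⟩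
  refine ⟨_, hrep, fun i => hle (hmem i), f, hf, fun a' ha' hmem' => hne ?_⟩
  have hR' : (A.h : k) * a' ∈ A.R := by
    have := eval_mem (O := A.R) (f := C (A.h : k) * f)
      (fun m => by rw [coeff_C_mul]; exact A.clear _ (hE.2 f hf m)) hmem
    rwa [map_mul, eval_C, ← ha'] at this
  have h2 : (⟨_, hR'⟩ : A.R) ∈ q.1 := by
    have : Subring.inclusion hle ⟨_, hR'⟩ = ⟨A.h, hle A.h.2⟩ * a' := Subtype.ext rfl
    change Subring.inclusion hle ⟨_, hR'⟩ ∈ s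
    rw [this]
    exact s.mul_mem_left _ hmem'
  have h3 := (A.loc q).mul _ (A.un_of_notMem q q.2.2.2).2.2 _ (A.mem_M_of_mem q h2)
  rwa [← mul_assoc, inv_mul_cancel₀ hh, one_mul, ha'] at h3

end Pool.Agent.P.MP_84b56d_ag.Q
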