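import Pool.Agent.P.MP_84b56d_ag.Q.ND

/-! Products and closed subgroups; a connected algebraic group is dominated by a commutative one. -/

open MvPolynomial TopologicalSpace Topology Pointwise

namespace Pool.Agent.P.MP_84b56d_ag.Q

universe v

variable {k : Type*} [Field k] {σ τ : Type} {A B : Type*}

instance [Mk σ] [Mk τ] : Mk (σ × τ) := ⟨fun p => mark p.1 ∧ mark p.2⟩

/-- the Segre embedding -/
def Raw.prod (c : Raw k σ A) (c' : Raw k τ B) : Raw k (σ × τ) (A × B) where
  rep p := {u | ∃ v ∈ c.rep p.1, ∃ w ∈ c'.rep p.2, u = fun q => v q.1 * w q.2}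
  ne_zero := by
    rintro p _ ⟨v, hv, w, hw, rfl⟩ h
    obtain ⟨i, hi⟩ := Function.ne_iff.1 (c.ne_zero _ v hv)
    obtain ⟨j, hj⟩ := Function.ne_iff.1 (c'.ne_zero _ w hw)
    exact mul_ne_zero hi hj (congrFun h (i, j))
  nonempty p := by
    obtain ⟨v, hv⟩ := c.nonempty p.1
    obtain ⟨w, hw⟩ := c'.nonempty p.2
    exact ⟨_, v, hv, w, hw, rfl⟩
  smul_mem := by
    rintro p _ ⟨v, hv, w, hw, rfl⟩ a ha
    exact ⟨_, c.smul_mem _ v hv a ha, w, hw, funext fun q => by simp [mul_assoc]⟩
  exists_smul := by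
    rintro p _ ⟨v, hv, w, hw, rfl⟩ _ ⟨v', hv', w', hw', rfl⟩
    obtain ⟨a, rfl⟩ := c.exists_smul _ v hv v' hv'
    obtain ⟨b, rfl⟩ := c'.exists_smul _ w hw w' hw'
    exact ⟨a * b, funext fun q => by simp only [Pi.smul_apply, smul_eq_mul]; ring⟩
  eq_of_mem := by
    rintro p p' _ ⟨v, hv, w, hw, rfl⟩ ⟨v', hv', w', hw', e⟩
    obtain ⟨i, hi⟩ := Function.ne_iff.1 (c.ne_zero _ v hv)
    obtain ⟨j, hj⟩ := Function.ne_iff.1 (c'.ne_zero _ w hw)
    refine Prod.ext (c.eq_of_minor hv hv' fun a b => mul_left_cancel₀ hj ?_)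
      (c'.eq_of_minor hw hw' fun a b => mul_left_cancel₀ hi ?_)
    · linear_combination v' b * congrFun e (a, j) - v' a * congrFun e (b, j)
    · linear_combination w' b * congrFun e (i, a) - w' a * congrFun e (i, b)

theorem Raw.seg (c : Raw k σ A) (c' : Raw k τ B) :
    Reg (two c.rep c'.rep) (c.prod c').rep fun p => p := fun _ _ _ =>
  ⟨1, fun q => X (Sum.inl q.1) * X (Sum.inr q.2), by simp, by
    rintro p _ ⟨v, hv, w, hw, rfl⟩ -
    exact ⟨v, hv, w, hw, funext fun q => by simp⟩⟩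

theorem Raw.seg' (c : Raw k σ A) (c' : Raw k τ B) :
    Reg (c.prod c').rep (two c.rep c'.rep) fun p => p := by
  rintro p _ ⟨v, hv, w, hw, rfl⟩
  obtain ⟨i, hi⟩ := Function.ne_iff.1 (c.ne_zero _ v hv)
  obtain ⟨j, hj⟩ := Function.ne_iff.1 (c'.ne_zero _ w hw)
  refine ⟨X (i, j), Sum.elim (fun a => X (a, j)) fun b => X (i, b),
    by rw [eval_X]; exact mul_ne_zero hi hj, ?_⟩
  rintro q _ ⟨v', hv', w', hw', rfl⟩ h
  rw [eval_X] at h
  refine ⟨_, c.smul_mem _ v' hv' _ (right_ne_zero_of_mul h), _,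
    c'.smul_mem _ w' hw' _ (left_ne_zero_of_mul h), funext ?_⟩
  rintro (a | a) <;> simp [mul_comm]

theorem irreducible_prod [TopologicalSpace A] [TopologicalSpace B] [IrreducibleSpace A]
    [IrreducibleSpace B] {P : Type*} [TopologicalSpace P] (e : A → B → P)
    (h1 : ∀ b, Continuous fun a => e a b) (h2 : ∀ a, Continuous (e a))
    (h3 : ∀ p, ∃ a b, e a b = p) : IrreducibleSpace P := by
  have : PreirreducibleSpace P := ⟨isPreirreducible_iff_isClosed_union_isClosed.2
    fun Y Y' hY hY' h => by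
      have hc : ∀ Y : Set P, IsClosed Y → IsClosed {a | ∀ b, e a b ∈ Y} := fun Y hY => by
        rw [Set.ofPred_forall]
        exact isClosed_iInter fun b => hY.preimage (h1 b)
      refine (isPreirreducible_iff_isClosed_union_isClosed.1
        (IrreducibleSpace.isIrreducible_univ A).2 _ _ (hc Y hY) (hc Y' hY') fun a _ => ?_).imp
        (fun h p _ => ?_) fun h p _ => ?_
      · exact (isPreirreducible_iff_isClosed_union_isClosed.1
          (IrreducibleSpace.isIrreducible_univ B).2 _ _ (hY.preimage (h2 a)) (hY'.preimage (h2 a))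
          fun b _ => h trivial).imp (fun h b => h trivial) fun h b => h trivial
      · obtain ⟨a, b, rfl⟩ := h3 p
        exact h trivial b
      · obtain ⟨a, b, rfl⟩ := h3 p
        exact h trivial b⟩
  exact ⟨⟨e (Classical.arbitrary A) (Classical.arbitrary B)⟩⟩

theorem exists_prod [Finite σ] [Finite τ] [Mk σ] [Mk τ] [AddGroup A] [AddGroup B]
    [TopologicalSpace A] [TopologicalSpace B] [IrreducibleSpace A] [IrreducibleSpace B]
    (c : Ctx k σ A) (c' : Ctx k τ B) :
    ∃ (t : TopologicalSpace (A × B)) (d : @Ctx k (σ × τ) (A × B) _ _ t _),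
      @IrreducibleSpace _ t ∧ Reg d.rep c.rep Prod.fst ∧ Reg d.rep c'.rep Prod.snd := by
  let R := c.toRaw.prod c'.toRaw
  have p1 : Reg R.rep c.rep Prod.fst := (Reg.fst _ _).comp (c.seg' c'.toRaw)
  have p2 : Reg R.rep c'.rep Prod.snd := (Reg.snd _ _).comp (c.seg' c'.toRaw)
  let t := R.top
  let d : Var k (σ × τ) (A × B) :=
    { toPV := R.toPV
      mark_ne := by
        rintro p _ ⟨v, hv, w, hw, rfl⟩
        obtain ⟨i, hm, hi⟩ := c.mark_ne _ v hv
        obtain ⟨j, hm', hj⟩ := c'.mark_ne _ w hw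
        exact ⟨(i, j), ⟨hm, hm'⟩, mul_ne_zero hi hj⟩
      cone_closed := by
        rintro u ⟨i, j⟩ ⟨hm, hm'⟩ hu h
        obtain ⟨x, hx⟩ := c.cone_closed (u ∘ fun a => (a, j)) i hm hu fun f hf => by
          have := h (X (i, j) * rename (fun a => (a, j)) f) ?_
          · rw [map_mul, eval_X, eval_rename] at this
            exact (mul_eq_zero.1 this).resolve_left hu
          rintro p _ ⟨v, hv, w, hw, rfl⟩
          rw [map_mul, eval_X, eval_rename]
          by_cases h0 : w j = 0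
          · simp [h0]
          · have := hf _ _ (c.smul_mem _ v hv _ h0)
            rw [show ((fun q : σ × τ => v q.1 * w q.2) ∘ fun a => (a, j)) = w j • v from
              funext fun a => mul_comm _ _, this, mul_zero]
        obtain ⟨y, hy⟩ := c'.cone_closed (u ∘ fun b => (i, b)) j hm' hu fun f hf => by
          have := h (X (i, j) * rename (fun b => (i, b)) f) ?_
          · rw [map_mul, eval_X, eval_rename] at this
            exact (mul_eq_zero.1 this).resolve_left hu
          rintro p _ ⟨v, hv, w, hw, rfl⟩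
          rw [map_mul, eval_X, eval_rename]
          by_cases h0 : v i = 0
          · simp [h0]
          · have := hf _ _ (c'.smul_mem _ w hw _ h0)
            rw [show ((fun q : σ × τ => v q.1 * w q.2) ∘ fun b => (i, b)) = v i • w from rfl,
              this, mul_zero]
        refine ⟨(x, y), _, c.smul_mem _ _ hx _ (inv_ne_zero hu), _, hy, funext fun q => ?_⟩
        have := h (X q * X (i, j) - X (q.1, j) * X (i, q.2)) (by
          rintro p _ ⟨v, hv, w, hw, rfl⟩
          simp only [map_sub, map_mul, eval_X]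
          ring)
        simp only [map_sub, map_mul, eval_X] at this
        simp only [Pi.smul_apply, Function.comp_apply, smul_eq_mul]
        field_simp
        linear_combination this }
  obtain ⟨d', hd'⟩ := d.exists_ctx
    ((c.seg c'.toRaw).comp ((c.reg_add (p1.comp (Reg.fst _ _)) (p1.comp (Reg.snd _ _))).pair
      (c'.reg_add (p2.comp (Reg.fst _ _)) (p2.comp (Reg.snd _ _)))))
    ((c.seg c'.toRaw).comp ((c.neg_reg.comp p1).pair (c'.neg_reg.comp p2)))
  refine ⟨t, d', irreducible_prod Prod.mk (fun b => ?_) (fun a => ?_) fun p => ⟨p.1, p.2, rfl⟩,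
    by rw [hd']; exact p1, by rw [hd']; exact p2⟩
  · exact Reg.continuous (c := c.toPV) (c' := d.toPV)
      ((c.seg c'.toRaw).comp ((Reg.id _).pair (Reg.const _ (c'.nonempty b))))
  · exact Reg.continuous (c := c'.toPV) (c' := d.toPV)
      ((c.seg c'.toRaw).comp ((Reg.const _ (c.nonempty a)).pair (Reg.id _)))

variable {G : Type v} [AddGroup G] [TopologicalSpace G] [Mk σ] [Finite σ] (c : Ctx k σ G)

theorem Ctx.exists_sub [AddGroup A] [TopologicalSpace A] (g : A →+ G) (hg : IsClosedEmbedding g) :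
    ∃ c' : Ctx k σ A, c'.rep = fun x => c.rep (g x) := by
  obtain ⟨c', hc'⟩ := (c.sub g hg).exists_ctx
    (by
      have := c.add_reg.mono fun p : A × A => (g p.1, g p.2)
      simp only [← map_add] at this
      exact this)
    (by
      have := c.neg_reg.mono g
      simp only [← map_neg] at this
      exact this)
  exact ⟨c', by rw [hc']; rfl⟩

omit [Finite σ] in
include c in
theorem Ctx.add_closure {S T : Set G} {a b : G} (ha : a ∈ closure S) (hb : b ∈ closure T) :
    a + b ∈ closure (S + T) := by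
  have := c.sepCont
  refine closure_minimal (t := {a | a + b ∈ closure (S + T)}) (fun s hs => ?_)
    (isClosed_closure.preimage (continuous_add_const b)) ha
  exact closure_minimal (t := {b | s + b ∈ closure (S + T)})
    (fun t ht => subset_closure (Set.add_mem_add hs ht))
    (isClosed_closure.preimage (continuous_const_add s)) hb

omit [Finite σ] in
include c in
theorem Ctx.exists_closure {S : Set G} (h0 : 0 ∈ S) (h1 : S + S ⊆ closure S)
    (h2 : -S ⊆ closure S) : ∃ W : AddSubgroup G, (W : Set G) = closure S :=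
  ⟨{ carrier := closure S
     zero_mem' := subset_closure h0
     add_mem' := fun ha hb => closure_minimal h1 isClosed_closure (c.add_closure ha hb)
     neg_mem' := fun ha => closure_minimal (t := {a | -a ∈ closure S})
       (fun _ hs => h2 (Set.neg_mem_neg.2 hs)) (isClosed_closure.preimage c.continuous_neg) ha },
    rfl⟩

/-- images of connected commutative algebraic groups -/
def Ctx.Gen (S : Set G) : Prop :=
  ∃ (H : Type v) (_ : AddCommGroup H) (_ : TopologicalSpace H) (τ : Type) (_ : Finite τ)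
    (_ : Mk τ) (d : Ctx k τ H) (ψ : H → G), IrreducibleSpace H ∧ Reg d.rep c.rep ψ ∧ ψ 0 = 0 ∧
      S = Set.range ψ

variable {c}

omit [Finite σ] in
theorem Ctx.Gen.irr {S : Set G} (h : c.Gen S) : IsIrreducible S ∧ 0 ∈ S := by
  obtain ⟨H, _, _, τ, _, _, d, ψ, _, h1, h2, rfl⟩ := h
  refine ⟨?_, 0, h2⟩
  rw [← Set.image_univ]
  exact (IrreducibleSpace.isIrreducible_univ H).image _ h1.continuous.continuousOn

omit [Finite σ] in
theorem Ctx.Gen.neg {S : Set G} (h : c.Gen S) : c.Gen (-S) := by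
  obtain ⟨H, _, _, τ, _, _, d, ψ, h0, h1, h2, rfl⟩ := h
  refine ⟨H, _, _, τ, ‹_›, _, d, fun x => -ψ x, h0, c.neg_reg.comp h1, by simp [h2], ?_⟩
  ext x
  simp only [Set.mem_neg, Set.mem_range, neg_eq_iff_eq_neg]

omit [Finite σ] in
theorem Ctx.Gen.add {S S' : Set G} (h : c.Gen S) (h' : c.Gen S') : c.Gen (S + S') := by
  obtain ⟨H, _, _, τ, _, _, d, ψ, _, h1, h2, rfl⟩ := h
  obtain ⟨H', _, _, τ', _, _, d', ψ', _, h1', h2', rfl⟩ := h'
  obtain ⟨t, e, h3, h4, h5⟩ := exists_prod d d'
  refine ⟨H × H', _, t, τ × τ', inferInstance, _, e, fun p => ψ p.1 + ψ' p.2, h3,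
    c.reg_add (h1.comp h4) (h1'.comp h5), by simp [h2, h2'], ?_⟩
  ext x
  simp only [Set.mem_add, Set.mem_range, exists_exists_eq_and, Prod.exists]

variable (c)

theorem Ctx.exists_gen (g : G) : ∃ S, c.Gen S ∧ ∃ n : ℕ, 1 ≤ n ∧ n • g ∈ S := by
  obtain ⟨C, hC⟩ := c.exists_closure (S := AddSubgroup.zmultiples g) (zero_mem _)
    (fun _ ⟨a, ha, b, hb, e⟩ => subset_closure (e ▸ add_mem ha hb))
    fun a ha => subset_closure (neg_mem_iff.1 ha)
  have hcl : ∀ b : G, IsClosed {a | a + b = b + a} := fun b =>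
    Reg.isClosed_eq (c := c.toPV) (c' := c.toRaw)
      (c.reg_add (Reg.id _) (Reg.const _ (c.nonempty b)))
      (c.reg_add (Reg.const _ (c.nonempty b)) (Reg.id _))
  have hcomm : ∀ a ∈ closure (AddSubgroup.zmultiples g : Set G),
      ∀ b ∈ closure (AddSubgroup.zmultiples g : Set G), a + b = b + a := by
    intro a ha b hb
    refine closure_minimal (fun a' ha' => ?_) (hcl b) ha
    refine (closure_minimal (fun b' hb' => ?_) (hcl a') hb).symm
    obtain ⟨m, rfl⟩ := ha'
    obtain ⟨n, rfl⟩ := hb'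
    change n • g + m • g = m • g + n • g
    rw [← add_zsmul, ← add_zsmul, add_comm]
  let _ : AddCommGroup C :=
    { (inferInstance : AddGroup C) with
      add_comm := fun a b => Subtype.ext (hcomm _ (hC ▸ a.2) _ (hC ▸ b.2)) }
  obtain ⟨c', hc'⟩ := c.exists_sub C.subtype (IsClosed.isClosedEmbedding_subtypeVal
    (s := (C : Set G)) (hC ▸ isClosed_closure))
  have := c'.noetherianSpace
  have := c'.sepCont
  obtain ⟨H, hH, -, -, -, h⟩ := exists_idcomp (⊤ : AddSubgroup C) isClosed_univ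
  obtain ⟨d, hd⟩ := c'.exists_sub H.subtype hH.1.isClosedEmbedding_subtypeVal
  obtain ⟨n, hn, h'⟩ := h ⟨g, show g ∈ (C : Set G) from
    hC ▸ subset_closure (AddSubgroup.mem_zmultiples g)⟩ trivial
  refine ⟨_, ⟨H, _, _, σ, ‹_›, _, d, fun x => x.1.1, Subtype.irreducibleSpace hH.2, ?_, rfl, rfl⟩,
    n, hn, ⟨_, h'⟩, rfl⟩
  rw [hd, hc']
  exact (Reg.id c.rep).mono _

theorem Ctx.dominated [IsAlgClosed k] [CharZero k] [IrreducibleSpace G] :
    ∃ S, c.Gen S ∧ Dense S := by
  obtain ⟨S, hS, hmax⟩ := GrpP.exists_max c.Gen (fun S => td (c.I S)) (td (c.I Set.univ))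
    (fun S hS => c.td_le_td hS.irr.1 (IrreducibleSpace.isIrreducible_univ G) (Set.subset_univ _))
    ((c.exists_gen 0).imp fun _ h => h.1)
  have key : ∀ S', c.Gen S' → S + S' ⊆ closure S := fun S' hS' => by
    by_contra hne
    have h1 := c.td_lt_td (W' := closure (S + S')) isClosed_closure hS.irr.1.closure
      (hS.add hS').irr.1.closure ⟨closure_mono fun s hs => ⟨s, hs, 0, hS'.irr.2, add_zero s⟩,
        fun h => hne (subset_closure.trans h)⟩
    rw [c.I_closure, c.I_closure] at h1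
    exact h1.not_ge (hmax _ (hS.add hS'))
  have key' : ∀ S', c.Gen S' → S' ⊆ closure S := fun S' hS' s hs =>
    key S' hS' ⟨0, hS.irr.2, s, hs, zero_add s⟩
  obtain ⟨W, hW⟩ := c.exists_closure hS.irr.2 (key S hS) (key' _ hS.neg)
  refine ⟨S, hS, dense_iff_closure_eq.2 (hW ▸ c.eq_top
    ⟨hW ▸ isClosed_closure, hW ▸ hS.irr.1.closure⟩ fun g => ?_)⟩
  obtain ⟨S', h1, n, hn, h2⟩ := c.exists_gen g
  exact ⟨n, hn, show n • g ∈ (W : Set G) from hW ▸ key' S' h1 h2⟩

end Pool.Agent.P.MP_84b56d_ag.Q
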