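import Pool.Agent.P.MP_84b56d_ag.Q.Basic

/-! The calculus of regular maps. -/

open MvPolynomial TopologicalSpace Topology

namespace Pool.Agent.P.MP_84b56d_ag.Q

variable {k : Type*} [Field k] {σ τ υ : Type} {A B G : Type*}

section

variable {r : A → Set (σ → k)} {r' : B → Set (τ → k)} {r'' : G → Set (υ → k)}

theorem Reg.id (r : A → Set (σ → k)) : Reg r r fun x => x := fun x v _ =>
  ⟨1, X, by simp, fun y w hw _ => by simpa using hw⟩

theorem Reg.const (r : A → Set (σ → k)) {a : B} (h : (r' a).Nonempty) : Reg r r' fun _ => a :=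
  fun x v _ => by
    obtain ⟨u, hu⟩ := h
    exact ⟨1, fun l => C (u l), by simp, fun y w _ _ => by simpa using hu⟩

theorem Reg.comp {φ : A → B} {ψ : B → G} (h' : Reg r' r'' ψ) (h : Reg r r' φ) :
    Reg r r'' fun x => ψ (φ x) := by
  intro x v hv
  obtain ⟨D, F, hD, hF⟩ := h x v hv
  obtain ⟨D', F', hD', hF'⟩ := h' _ _ (hF x v hv hD)
  refine ⟨D * aeval F D', fun l => aeval F (F' l), ?_, fun y w hw hne => ?_⟩
  · rw [map_mul, eval_aeval']
    exact mul_ne_zero hD hD'
  · rw [map_mul, eval_aeval'] at hne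
    simp only [eval_aeval']
    exact hF' _ _ (hF y w hw (left_ne_zero_of_mul hne)) (right_ne_zero_of_mul hne)

theorem Reg.mono {φ : A → B} (h : Reg r r' φ) (g : G → A) :
    Reg (fun x => r (g x)) r' fun x => φ (g x) := fun x v hv => by
  obtain ⟨D, F, hD, hF⟩ := h _ v hv
  exact ⟨D, F, hD, fun y w hw => hF _ w hw⟩

theorem Reg.fst (r : A → Set (σ → k)) (r' : B → Set (τ → k)) : Reg (two r r') r Prod.fst :=
  fun x v _ => ⟨1, fun l => X (Sum.inl l), by simp, by
    rintro y _ ⟨v, hv, w, -, rfl⟩ -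
    simpa using hv⟩

theorem Reg.snd (r : A → Set (σ → k)) (r' : B → Set (τ → k)) : Reg (two r r') r' Prod.snd :=
  fun x v _ => ⟨1, fun l => X (Sum.inr l), by simp, by
    rintro y _ ⟨v, -, w, hw, rfl⟩ -
    simpa using hw⟩

theorem Reg.pair {φ : A → B} {ψ : A → G} (h : Reg r r' φ) (h' : Reg r r'' ψ) :
    Reg r (two r' r'') fun x => (φ x, ψ x) := by
  intro x v hv
  obtain ⟨D, F, hD, hF⟩ := h x v hv
  obtain ⟨D', F', hD', hF'⟩ := h' x v hv
  refine ⟨D * D', Sum.elim F F', by rw [map_mul]; exact mul_ne_zero hD hD', fun y w hw hne => ?_⟩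
  rw [map_mul] at hne
  refine ⟨_, hF y w hw (left_ne_zero_of_mul hne), _, hF' y w hw (right_ne_zero_of_mul hne), ?_⟩
  funext l
  cases l <;> rfl

/-- a finite complete family of formulas -/
theorem Reg.exists_fin [Finite σ] (c' : Raw k τ B) {φ : A → B} (h : Reg r c'.rep φ) :
    ∃ (N : ℕ) (L : Fin N → τ → MvPolynomial σ k),
      (∀ α x, ∀ v ∈ r x, ∀ l, eval v (L α l) ≠ 0 → (fun l => eval v (L α l)) ∈ c'.rep (φ x)) ∧
      ∀ x, ∀ v ∈ r x, ∃ α l, eval v (L α l) ≠ 0 := by
  classical
  choose D F hD hF using fun p : {p : A × (σ → k) // p.2 ∈ r p.1} => h p.1.1 p.1.2 p.2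
  obtain ⟨S, hS, hspan⟩ := (Submodule.fg_span_iff_fg_span_finset_subset (Set.range D)).1
    ((isNoetherianRing_iff_ideal_fg _).1 inferInstance (Ideal.span _))
  choose p hp using fun f : S => hS f.2
  refine ⟨S.card, fun α l => D (p (S.equivFin.symm α)) * F (p (S.equivFin.symm α)) l,
    fun α x v hv l hl => ?_, fun x v hv => ?_⟩
  · rw [map_mul] at hl
    have := c'.smul_mem _ _ (hF _ x v hv (left_ne_zero_of_mul hl)) _ (left_ne_zero_of_mul hl)
    simp only [map_mul]
    exact this
  · obtain ⟨f, hf, h2⟩ : ∃ f ∈ S, eval v f ≠ 0 := by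
      by_contra hcon
      push Not at hcon
      refine hD ⟨(x, v), hv⟩ (eval_eq_zero_of_span (T := (S : Set _)) hcon _ ?_)
      change _ ∈ Submodule.span _ _
      rw [← hspan]
      exact Submodule.subset_span ⟨_, rfl⟩
    have h3 : eval v (D (p ⟨f, hf⟩)) ≠ 0 := by rwa [hp]
    obtain ⟨l, hl⟩ := Function.ne_iff.1 (c'.ne_zero _ _ (hF _ x v hv h3))
    refine ⟨S.equivFin ⟨f, hf⟩, l, ?_⟩
    simp only [Equiv.symm_apply_apply, map_mul]
    exact mul_ne_zero h3 hl

/-- a family without common zero on an open set has none modulo almost all primes -/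
theorem exists_unit [IsAlgClosed k] [Finite σ] (r : A → Set (σ → k)) {ι : Type} [Finite ι]
    (L : ι → MvPolynomial σ k) (μ : MvPolynomial σ k)
    (h : ∀ u : σ → k, eval u μ ≠ 0 → (∀ f, (∀ x, ∀ v ∈ r x, eval v f = 0) → eval u f = 0) →
      ∃ α, eval u (L α) ≠ 0) :
    ∃ E : Set k, E.Finite ∧ ∀ O : Subring k, IsLoc O → E ⊆ O → ∀ x, ∀ v ∈ r x, (∀ i, v i ∈ O) →
      Un O (eval v μ) → ∃ α, Un O (eval v (L α)) := by
  classical
  have := Fintype.ofFinite ι
  let Z : Ideal (MvPolynomial σ k) :=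
    { carrier := {f | ∀ x, ∀ v ∈ r x, eval v f = 0}
      zero_mem' := fun _ _ _ => by simp
      add_mem' := fun {a b} ha hb x v hv => by simp [ha x v hv, hb x v hv]
      smul_mem' := fun a b hb x v hv => by simp [hb x v hv] }
  have h1 : μ ∈ (Z ⊔ Ideal.span (Set.range L)).radical := by
    rw [← vanishingIdeal_zeroLocus_eq_radical (K := k), mem_vanishingIdeal_iff]
    intro u hu
    rw [mem_zeroLocus_iff] at hu
    simp only [aeval_eq_eval] at hu ⊢
    by_contra hne
    obtain ⟨α, hα⟩ := h u hne fun f hf => hu _ (Ideal.mem_sup_left hf)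
    exact hα (hu _ (Ideal.mem_sup_right (Ideal.subset_span ⟨α, rfl⟩)))
  obtain ⟨n, hn⟩ := h1
  obtain ⟨z, hz, y, hy, e⟩ := Submodule.mem_sup.mp hn
  obtain ⟨a, rfl⟩ := Ideal.mem_span_range_iff_exists_fun.mp hy
  refine ⟨(⋃ α, Set.range fun m => coeff m (L α)) ∪ ⋃ α, Set.range fun m => coeff m (a α),
    (Set.finite_iUnion fun _ => finite_coeffs _).union (Set.finite_iUnion fun _ => finite_coeffs _),
    fun O hO hE x v hv hvO hu => ?_⟩
  simp only [Set.union_subset_iff, Set.iUnion_subset_iff, Set.range_subset_iff] at hE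
  have e' := congrArg (eval v) e
  rw [map_add, hz x v hv, zero_add, map_sum, map_pow] at e'
  have hu' : Un O (∑ p, eval v (a p * L p)) := e' ▸ CongP.un_pow hu _
  simp only [map_mul] at hu'
  obtain ⟨p, -, hp⟩ := CongP.un_sum hO _ _
    (fun p _ => O.mul_mem (eval_mem (hE.2 p) hvO) (eval_mem (hE.1 p) hvO)) hu'
  rw [mul_comm] at hp
  exact ⟨p, Un.of_mul (eval_mem (hE.1 p) hvO) (eval_mem (hE.2 p) hvO) hp⟩

end

theorem Raw.mem_of_minor (c : Raw k σ A) {x : A} {u v : σ → k} (hu : u ∈ c.rep x) (hv : v ≠ 0)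
    (h : ∀ i j, v i * u j - v j * u i = 0) : v ∈ c.rep x := by
  obtain ⟨j, hj⟩ := Function.ne_iff.1 (c.ne_zero x u hu)
  have hj' : u j ≠ 0 := hj
  have hvw : v = (v j / u j) • u := by
    funext i
    have := h i j
    simp only [Pi.smul_apply, smul_eq_mul]
    field_simp
    linear_combination this
  rw [hvw]
  refine c.smul_mem x u hu _ fun h0 => hv ?_
  rw [hvw, h0, zero_smul]

theorem Raw.minor (c : Raw k σ A) {x : A} {u v : σ → k} (hu : u ∈ c.rep x) (hv : v ∈ c.rep x)
    (i j : σ) : v i * u j - v j * u i = 0 := by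
  obtain ⟨a, rfl⟩ := c.exists_smul x u hu v hv
  simp only [Pi.smul_apply, smul_eq_mul]
  ring

theorem exists_homComp_ne {f : MvPolynomial σ k} {v : σ → k} (h : eval v f ≠ 0) :
    ∃ n, eval v (homogeneousComponent n f) ≠ 0 := by
  by_contra hcon
  push Not at hcon
  refine h ?_
  rw [← sum_homogeneousComponent f, map_sum]
  exact Finset.sum_eq_zero fun n _ => hcon n

/-- regular maps of projective sets are given by forms of positive degree -/
theorem Reg.hom [Infinite k] {c : Raw k σ A} {c' : Raw k τ B} {φ : A → B}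
    (h : Reg c.rep c'.rep φ) (x : A) :
    ∃ (D : MvPolynomial σ k) (F : τ → MvPolynomial σ k) (d e : ℕ), D.IsHomogeneous d ∧
      (∀ l, (F l).IsHomogeneous (e + 1)) ∧ (∀ v ∈ c.rep x, eval v D ≠ 0) ∧
      ∀ y, ∀ w ∈ c.rep y, eval w D ≠ 0 → (fun l => eval w (F l)) ∈ c'.rep (φ y) := by
  obtain ⟨v, hv, i, hi⟩ := c.exists_one x
  obtain ⟨D, F, hD, hF⟩ := h x v hv
  obtain ⟨l, hl⟩ := Function.ne_iff.1 (c'.ne_zero _ _ (hF x v hv hD))
  obtain ⟨d, hd⟩ := exists_homComp_ne hD
  obtain ⟨e, he⟩ := exists_homComp_ne (show eval v (F l) ≠ 0 from hl)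
  have hh := ((homogeneousComponent_isHomogeneous d D).mul
    (homogeneousComponent_isHomogeneous e (F l))).mul (isHomogeneous_X k i)
  refine ⟨_, fun j => homogeneousComponent e (F j) * X i, _, e, hh,
    fun j => (homogeneousComponent_isHomogeneous e _).mul (isHomogeneous_X k i), fun w hw => ?_,
    fun y w hw hne => ?_⟩
  · obtain ⟨a, ha, rfl⟩ := c.exists_smul_ne hv hw
    rw [eval_smul_of_hom hh, map_mul, map_mul, eval_X, hi, mul_one]
    exact mul_ne_zero (pow_ne_zero _ ha) (mul_ne_zero hd he)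
  · rw [map_mul, map_mul] at hne
    obtain ⟨u, hu⟩ := c'.nonempty (φ y)
    refine c'.mem_of_minor hu (fun h0 => ?_) fun a b => ?_
    · have := congrFun h0 l
      rw [map_mul] at this
      exact mul_ne_zero (right_ne_zero_of_mul (left_ne_zero_of_mul hne))
        (right_ne_zero_of_mul hne) this
    have h1 : ray w D ≠ 0 := fun h0 => left_ne_zero_of_mul (left_ne_zero_of_mul hne)
      (eval_homComp_eq_zero D w (fun s _ => by rw [← eval_ray, h0, Polynomial.eval_zero]) d)
    have h2 : ray w D * ray w (F a * C (u b) - F b * C (u a)) = 0 := by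
      refine poly_eq_zero_of_ne _ fun s hs => ?_
      rw [Polynomial.eval_mul, eval_ray, eval_ray]
      by_cases h0 : eval (s • w) D = 0
      · rw [h0, zero_mul]
      · have := c'.minor hu (hF y _ (c.smul_mem y w hw s hs) h0) a b
        simp only [map_sub, map_mul, eval_C]
        rw [this, mul_zero]
    have h3 := eval_homComp_eq_zero (F a * C (u b) - F b * C (u a)) w (fun s _ => by
      rw [← eval_ray, (mul_eq_zero.1 h2).resolve_left h1, Polynomial.eval_zero]) e
    rw [mul_comm (F a), mul_comm (F b), map_sub, homogeneousComponent_C_mul,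
      homogeneousComponent_C_mul] at h3
    simp only [map_sub, map_mul, eval_C] at h3 ⊢
    linear_combination eval w (X i) * h3

/-- pull back along an injective map -/
def Raw.comap (c : Raw k σ A) (g : B → A) (hg : Function.Injective g) : Raw k σ B where
  rep x := c.rep (g x)
  ne_zero _ := c.ne_zero _
  nonempty _ := c.nonempty _
  smul_mem _ := c.smul_mem _
  exists_smul _ := c.exists_smul _
  eq_of_mem _ _ v h h' := hg (c.eq_of_mem _ _ v h h')

/-- the Zariski topology -/
@[reducible] def Raw.top (c : Raw k σ A) : TopologicalSpace A :=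
  TopologicalSpace.ofClosed {Y | ∀ x, (∀ f : MvPolynomial σ k,
      (∀ y ∈ Y, ∀ w ∈ c.rep y, eval w f = 0) → ∀ v ∈ c.rep x, eval v f = 0) → x ∈ Y}
    (fun x hx => by
      obtain ⟨v, hv⟩ := c.nonempty x
      simpa using hx 1 (by simp) v hv)
    (fun S hS x hx Y hY => hS hY x fun f hf => hx f fun y hy => hf y (hy Y hY))
    (fun Y hY Y' hY' x hx => by
      by_contra hcon
      rw [Set.mem_union, not_or] at hcon
      have h1 := mt (hY x) hcon.1
      have h2 := mt (hY' x) hcon.2
      push Not at h1 h2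
      obtain ⟨f, hf, v, hv, hne⟩ := h1
      obtain ⟨f', hf', v', hv', hne'⟩ := h2
      obtain ⟨a, ha, rfl⟩ := c.exists_smul_ne hv hv'
      have := hx (f * scale a f') ?_ v hv
      · rw [map_mul, eval_scale] at this
        exact mul_ne_zero hne hne' this
      · rintro y (hy | hy) w hw
        · rw [map_mul, hf y hy w hw, zero_mul]
        · rw [map_mul, c.scale_mem (Y := Y') hf' ha y hy w hw, mul_zero])

/-- a projective set with its Zariski topology -/
def Raw.toPV (c : Raw k σ A) : @PV k σ A _ c.top :=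
  @PV.mk k σ A _ c.top c fun Y => by
    rw [← @isOpen_compl_iff _ _ c.top]
    change Yᶜᶜ ∈ _ ↔ _
    rw [compl_compl]
    rfl

variable [TopologicalSpace A] [TopologicalSpace B]

theorem Reg.continuous {c : PV k σ A} {c' : PV k τ B} {φ : A → B} (h : Reg c.rep c'.rep φ) :
    Continuous φ := by
  refine continuous_iff_isClosed.2 fun Y hY => c.isClosed_of fun x hx => ?_
  obtain ⟨v, hv⟩ := c.nonempty x
  obtain ⟨D, F, hD, hF⟩ := h x v hv
  obtain ⟨f, hf, hne⟩ := c'.exists_I_ne hY hx (hF x v hv hD)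
  refine ⟨v, hv, D * aeval F f, fun y hy w hw => ?_, ?_⟩
  · rw [map_mul, eval_aeval']
    by_cases h0 : eval w D = 0
    · rw [h0, zero_mul]
    · rw [hf _ hy _ (hF y w hw h0), mul_zero]
  · rw [map_mul, eval_aeval']
    exact mul_ne_zero hD hne

theorem Reg.isClosed_eq {c : PV k σ A} {c' : Raw k τ G} {φ ψ : A → G} (h : Reg c.rep c'.rep φ)
    (h' : Reg c.rep c'.rep ψ) : IsClosed {x | φ x = ψ x} := by
  refine c.isClosed_of fun x hx => ?_
  obtain ⟨v, hv⟩ := c.nonempty x
  obtain ⟨D, F, hD, hF⟩ := h x v hv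
  obtain ⟨D', F', hD', hF'⟩ := h' x v hv
  have := mt (c'.eq_of_minor (hF x v hv hD) (hF' x v hv hD')) hx
  push Not at this
  obtain ⟨i, j, hij⟩ := this
  refine ⟨v, hv, D * D' * (F i * F' j - F j * F' i), fun y hy w hw => ?_, ?_⟩
  · simp only [map_mul, map_sub]
    by_cases h0 : eval w D * eval w D' = 0
    · rw [h0, zero_mul]
    · have h1 := hF' y w hw (right_ne_zero_of_mul h0)
      rw [← show φ y = ψ y from hy] at h1
      rw [c'.minor h1 (hF y w hw (left_ne_zero_of_mul h0)) i j, mul_zero]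
  · simp only [map_mul, map_sub]
    exact mul_ne_zero (mul_ne_zero hD hD') hij

/-- a subspace -/
def PV.comap (c : PV k σ A) (g : B → A) (hg : IsEmbedding g) : PV k σ B where
  toRaw := c.toRaw.comap g hg.injective
  isClosed_iff Y := by
    rw [← closure_subset_iff_isClosed, hg.closure_eq_preimage_closure_image]
    refine forall_congr' fun x => imp_congr_left ?_
    rw [Set.mem_preimage, c.mem_closure]
    refine forall_congr' fun f => imp_congr_left ?_
    rw [c.mem_I, Set.forall_mem_image]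
    rfl

/-- other coordinates on the same variety -/
def PV.transfer (c : PV k σ A) (c' : Raw k τ A) (h : Reg c.rep c'.rep fun x => x)
    (h' : Reg c'.rep c.rep fun x => x) : PV k τ A where
  toRaw := c'
  isClosed_iff Y := by
    refine Iff.trans ?_ (@PV.isClosed_iff _ _ _ _ c'.top c'.toPV Y)
    exact ⟨fun hY => @IsClosed.preimage _ _ c'.top _ _
      (@Reg.continuous _ _ _ _ _ _ c'.top _ c'.toPV c _ h') _ hY,
      fun hY => @IsClosed.preimage _ _ _ c'.top _
        (@Reg.continuous _ _ _ _ _ _ _ c'.top c c'.toPV _ h) _ hY⟩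

/-- a closed subvariety -/
def Var.sub [Mk σ] (c : Var k σ A) (g : B → A) (hg : IsClosedEmbedding g) : Var k σ B where
  toPV := c.toPV.comap g hg.isEmbedding
  mark_ne _ := c.mark_ne _
  cone_closed v i hm hi h := by
    obtain ⟨x, hx⟩ := c.cone_closed v i hm hi fun f hf => h f fun y => hf _
    by_contra hcon
    obtain ⟨f, hf, hne⟩ := c.exists_I_ne hg.isClosed_range (x := x)
      (by rintro ⟨y, rfl⟩; exact hcon ⟨y, hx⟩) hx
    exact hne (h f fun y => hf _ ⟨y, rfl⟩)

end Pool.Agent.P.MP_84b56d_ag.Q
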