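import Pool.Agent.P.MP_84b56d_ag.Q.Reg

/-! The Veronese embedding turns the forms cutting out the boundary into coordinates. -/

open MvPolynomial TopologicalSpace

namespace Pool.Agent.P.MP_84b56d_ag.Q

variable {k : Type*} [Field k] {σ : Type} [Finite σ] {G : Type*} [TopologicalSpace G]

theorem PV.exists_var_aux [IsAlgClosed k] (c : PV k σ G) {ι : Type} [Finite ι] (e : ℕ)
    (β : ι → MvPolynomial σ k) (hβ : ∀ j, (β j).IsHomogeneous (e + 1))
    (h1 : ∀ x, ∀ v ∈ c.rep x, ∃ j, eval v (β j) ≠ 0)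
    (h2 : ∀ v : σ → k, (∀ f ∈ c.I Set.univ, eval v f = 0) → ∀ j, eval v (β j) ≠ 0 →
      ∃ x, v ∈ c.rep x) :
    ∃ (τ : Type) (_ : Finite τ) (_ : Mk τ) (c' : Var k τ G),
      (Reg c.rep c'.rep fun x => x) ∧ Reg c'.rep c.rep fun x => x := by
  classical
  have := Fintype.ofFinite σ
  let M := {m : σ →₀ ℕ // m.degree = e + 1}
  have hM : {m : σ →₀ ℕ | m.degree = e + 1}.Finite :=
    Finsupp.finite_of_degree_eq (e + 1)
  have : Finite M := hM
  have := Fintype.ofFinite M
  let P : M ⊕ ι → MvPolynomial σ k := Sum.elim (fun m => monomial m.1 1) β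
  have hP : ∀ s, (P s).IsHomogeneous (e + 1) := by
    rintro (m | j)
    · exact isHomogeneous_monomial _ m.2
    · exact hβ j
  let μ : σ → σ → M ⊕ ι := fun i j => Sum.inl ⟨Finsupp.single i e + Finsupp.single j 1, by simp⟩
  have hμ : ∀ (v : σ → k) i j, eval v (P (μ i j)) = v i ^ e * v j := fun v i j => by
    change eval v (monomial _ 1) = _
    rw [eval_monomial, Finsupp.prod_add_index' (by simp) (by simp [pow_add])]
    simp
  have hsm : ∀ (a : k) (v : σ → k), (fun s => eval (a • v) (P s)) =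
      a ^ (e + 1) • fun s => eval v (P s) := fun a v => funext fun s => eval_smul_of_hom (hP s) a v
  let R : Raw k (M ⊕ ι) G :=
    { rep := fun x => {u | ∃ v ∈ c.rep x, u = fun s => eval v (P s)}
      ne_zero := by
        rintro x _ ⟨v, hv, rfl⟩ h
        obtain ⟨j, hj⟩ := h1 x v hv
        exact hj (congrFun h (Sum.inr j))
      nonempty := fun x => by
        obtain ⟨v, hv⟩ := c.nonempty x
        exact ⟨_, v, hv, rfl⟩
      smul_mem := by
        rintro x _ ⟨v, hv, rfl⟩ a ha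
        obtain ⟨b, rfl⟩ := IsAlgClosed.exists_pow_nat_eq a (Nat.succ_pos e)
        exact ⟨_, c.smul_mem x v hv b fun h => ha (by simp [h]), (hsm b v).symm⟩
      exists_smul := by
        rintro x _ ⟨v, hv, rfl⟩ _ ⟨w, hw, rfl⟩
        obtain ⟨a, rfl⟩ := c.exists_smul x v hv w hw
        exact ⟨_, hsm a v⟩
      eq_of_mem := by
        rintro x y _ ⟨v, hv, rfl⟩ ⟨w, hw, h⟩
        obtain ⟨i, hi⟩ := Function.ne_iff.1 (c.ne_zero x v hv)
        refine c.eq_of_minor hv hw fun a b => mul_left_cancel₀ (pow_ne_zero e hi) ?_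
        have h3 := congrFun h (μ i a)
        have h4 := congrFun h (μ i b)
        simp only [hμ] at h3 h4
        linear_combination w b * h3 - w a * h4 }
  have hF : ∀ (v : σ → k) i, (fun j => eval (fun s => eval v (P s)) (X (μ i j))) = v i ^ e • v :=
    fun v i => funext fun j => by rw [eval_X, hμ]; rfl
  have r1 : Reg c.rep R.rep fun x => x := fun x v _ =>
    ⟨1, P, by simp, fun y w hw _ => ⟨w, hw, rfl⟩⟩
  have r2 : Reg R.rep c.rep fun x => x := by
    rintro x _ ⟨v, hv, rfl⟩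
    obtain ⟨i, hi⟩ := Function.ne_iff.1 (c.ne_zero x v hv)
    refine ⟨X (μ i i), fun j => X (μ i j), ?_, ?_⟩
    · rw [eval_X, hμ]
      exact mul_ne_zero (pow_ne_zero e hi) hi
    · rintro y _ ⟨w, hw, rfl⟩ h
      rw [eval_X, hμ] at h
      rw [hF]
      exact c.smul_mem y w hw _ (left_ne_zero_of_mul h)
  let _ : Mk (M ⊕ ι) := ⟨fun s => s.isRight⟩
  refine ⟨M ⊕ ι, inferInstance, _, ⟨c.transfer R r1 r2, ?_, ?_⟩, r1, r2⟩
  · rintro x _ ⟨v, hv, rfl⟩
    obtain ⟨j, hj⟩ := h1 x v hv
    exact ⟨Sum.inr j, rfl, hj⟩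
  rintro u (j | j) hj hu h
  · exact absurd hj Bool.false_ne_true
  have h' : ∀ f g : MvPolynomial (M ⊕ ι) k, (∀ x, ∀ v ∈ c.rep x,
      eval (fun s => eval v (P s)) f = eval (fun s => eval v (P s)) g) → eval u f = eval u g := by
    intro f g hfg
    rw [← sub_eq_zero, ← map_sub]
    refine h _ ?_
    rintro x _ ⟨v, hv, rfl⟩
    rw [map_sub, hfg x v hv, sub_self]
  obtain ⟨m, hm⟩ : ∃ m : M, u (Sum.inl m) ≠ 0 := by
    by_contra hcon
    push Not at hcon
    have := h' (X (Sum.inr j)) (∑ m : M, C (coeff m.1 (β j)) * X (Sum.inl m)) fun x v _ => by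
      simp only [map_sum, map_mul, eval_C, eval_X]
      change eval v (β j) = ∑ m : M, coeff m.1 (β j) * eval v (monomial m.1 1)
      refine Eq.trans ?_ (Finset.sum_subtype (p := fun m : σ →₀ ℕ => m.degree = e + 1) hM.toFinset
        (fun m => hM.mem_toFinset) fun m => coeff m (β j) * eval v (monomial m 1))
      rw [← Finset.sum_subset (s₁ := (β j).support)]
      · conv_lhs => rw [(β j).as_sum, map_sum]
        exact Finset.sum_congr rfl fun m _ => by simp [eval_monomial]
      · intro m hm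
        rw [hM.mem_toFinset, Set.mem_ofPred_eq, Finsupp.degree_eq_weight_one]
        exact hβ j (mem_support_iff.1 hm)
      · intro m _ hm
        rw [notMem_support_iff.1 hm, zero_mul]
    simp [hcon, hu] at this
  obtain ⟨i, hi⟩ : ∃ i, u (μ i i) ≠ 0 := by
    by_contra hcon
    push Not at hcon
    have := h' (X (Sum.inl m) ^ (e + 1)) (∏ i, X (μ i i) ^ m.1 i) fun x v _ => by
      simp only [map_pow, map_prod, eval_X, hμ]
      change eval v (monomial m.1 1) ^ _ = _
      rw [eval_monomial, one_mul, Finsupp.prod_fintype _ _ (by simp), ← Finset.prod_pow]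
      exact Finset.prod_congr rfl fun i _ => by ring
    simp only [map_pow, map_prod, eval_X, hcon] at this
    obtain ⟨i, hi⟩ : ∃ i, m.1 i ≠ 0 := by
      by_contra h0
      push Not at h0
      have h3 := m.2
      rw [show m.1 = 0 from Finsupp.ext h0] at h3
      simp at h3
    exact pow_ne_zero _ hm (this.trans (Finset.prod_eq_zero (Finset.mem_univ i) (zero_pow hi)))
  have h3 : ∀ s, eval (fun j => u (μ i j)) (P s) = u (μ i i) ^ e * u s := fun s => by
    have := h' (aeval (fun j => X (μ i j)) (P s)) (X (μ i i) ^ e * X s) fun x v _ => by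
      rw [eval_aeval', hF, eval_smul_of_hom (hP s)]
      simp only [map_mul, map_pow, eval_X, hμ]
      ring
    simpa only [eval_aeval', map_mul, map_pow, eval_X] using this
  obtain ⟨x, hx⟩ := h2 (fun j => u (μ i j)) (fun f hf => by
    have := h' (X (μ i i) * aeval (fun j => X (μ i j)) f) 0 fun x v hv => by
      rw [map_mul, eval_aeval', hF, eval_X, hμ, map_zero]
      by_cases h0 : v i = 0
      · rw [h0, mul_zero, zero_mul]
      · rw [hf x trivial _ (c.smul_mem x v hv _ (pow_ne_zero e h0)), mul_zero]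
    simp only [eval_aeval', map_mul, map_zero, eval_X] at this
    exact (mul_eq_zero.1 this).resolve_left hi) j
    ((h3 (Sum.inr j)).trans_ne (mul_ne_zero (pow_ne_zero _ hi) hu))
  refine ⟨x, ?_⟩
  have := R.smul_mem x _ ⟨_, hx, rfl⟩ _ (inv_ne_zero (pow_ne_zero e hi))
  refine (congrArg (· ∈ R.rep x) (funext fun s => ?_)).mp this
  rw [Pi.smul_apply, h3, smul_eq_mul, inv_mul_cancel_left₀ (pow_ne_zero e hi)]

theorem PV.exists_var [IsAlgClosed k] (c : PV k σ G) (b : Finset (MvPolynomial σ k))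
    (hb : ∀ g ∈ b, ∃ d, g.IsHomogeneous d) (h1 : ∀ x, ∀ v ∈ c.rep x, ∃ g ∈ b, eval v g ≠ 0)
    (h2 : ∀ v : σ → k, v ≠ 0 → (∀ f ∈ c.I Set.univ, eval v f = 0) → ∀ g ∈ b, eval v g ≠ 0 →
      ∃ x, v ∈ c.rep x) :
    ∃ (τ : Type) (_ : Finite τ) (_ : Mk τ) (c' : Var k τ G),
      (Reg c.rep c'.rep fun x => x) ∧ Reg c'.rep c.rep fun x => x := by
  choose! d hd using hb
  have hle : ∀ g ∈ b, d g ≤ b.sup d := fun g hg => Finset.le_sup hg
  refine c.exists_var_aux (b.sup d) (fun p : Fin b.card × σ => (b.equivFin.symm p.1).1 *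
    X p.2 ^ (b.sup d + 1 - d (b.equivFin.symm p.1))) (fun p => ?_) (fun x v hv => ?_)
    fun v hv p h => ?_
  · have := hle _ (b.equivFin.symm p.1).2
    convert (hd _ (b.equivFin.symm p.1).2).mul (isHomogeneous_X_pow p.2 _) using 1
    omega
  · obtain ⟨g, hg, h⟩ := h1 x v hv
    obtain ⟨i, hi⟩ := Function.ne_iff.1 (c.ne_zero x v hv)
    refine ⟨(b.equivFin ⟨g, hg⟩, i), ?_⟩
    simp only [Equiv.symm_apply_apply, map_mul, map_pow, eval_X]
    exact mul_ne_zero h (pow_ne_zero _ hi)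
  · rw [map_mul, map_pow, eval_X] at h
    have := hle _ (b.equivFin.symm p.1).2
    refine h2 v (fun h0 => right_ne_zero_of_mul h ?_) hv _ (b.equivFin.symm p.1).2
      (left_ne_zero_of_mul h)
    rw [h0]
    exact zero_pow (by omega)

end Pool.Agent.P.MP_84b56d_ag.Q
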