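import Pool.Agent.P.MP_84b56d_ag.Q.Final
import Pool.Agent.P.MP_84b56d_ag.Q.Prod
import Pool.Agent.P.MP_84b56d_ag.Q.Contr
import Pool.Agent.P.MP_84b56d_ag.Q.Ver

/-! Varieties with a dense orbit of a connected algebraic group. -/

open MvPolynomial TopologicalSpace Topology Pool.Agent.P.MP_84b56d_ag.Z
open scoped LinearAlgebra.Projectivization

namespace Pool.Agent.P.MP_84b56d_ag.Q

universe v

variable {k : Type*} {σ ρ τ : Type} [Field k]

theorem exists_dominant [IsAlgClosed k] [CharZero k] [Finite σ] [Finite ρ] {G : Type v}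
    [AddGroup G] [TopologicalSpace G] [IrreducibleSpace G] [Mk σ] (c : Ctx k σ G) {Y : Type*}
    [TopologicalSpace Y] (cY : PV k ρ Y) (a : G → Y → Y)
    (ha : Reg (two c.rep cY.rep) cY.rep fun p => a p.1 p.2) (h0 : ∀ y, a 0 y = y)
    (hadd : ∀ g h y, a (g + h) y = a g (a h y)) (y₀ : Y) (hd : DenseRange fun g => a g y₀)
    {Z₀ : Set Y} (hZ₀ : IsClosed Z₀)
    (hcod : ∀ W : IrreducibleCloseds Y, (W : Set Y) ⊆ Z₀ → 2 ≤ Order.coheight W) :
    ∃ (H : Type v) (_ : AddCommGroup H) (_ : TopologicalSpace H) (_ : IrreducibleSpace H)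
      (υ : Type) (_ : Finite υ) (_ : Mk υ) (d : Ctx k υ H) (F : H → Y), Reg d.rep cY.rep F ∧
      DenseRange F ∧ ∀ W, IsClosed W → IsIrreducible W → W ⊆ F ⁻¹' Z₀ →
        td (d.I W) + 2 ≤ td (d.I Set.univ) := by
  have h1 : ∀ y, Reg c.rep cY.rep fun g => a g y := fun y =>
    ha.comp ((Reg.id _).pair (Reg.const _ (cY.nonempty y)))
  have h2 : ∀ g, Reg cY.rep cY.rep (a g) := fun g =>
    ha.comp ((Reg.const _ (c.nonempty g)).pair (Reg.id _))
  have hG := IrreducibleSpace.isIrreducible_univ G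
  have hY : IsIrreducible (Set.univ : Set Y) := by
    have := (hG.image _ (h1 y₀).continuous.continuousOn).closure
    rwa [Set.image_univ, hd.closure_range] at this
  have : PreirreducibleSpace Y := ⟨hY.2⟩
  have : IrreducibleSpace Y := ⟨⟨y₀⟩⟩
  have hl : ∀ g y, a (-g) (a g y) = y := fun g y => by rw [← hadd, neg_add_cancel, h0]
  have hr : ∀ g y, a g (a (-g) y) = y := fun g y => by rw [← hadd, add_neg_cancel, h0]
  have hcod' : ∀ g W, IsIrreducible W → W ⊆ a g ⁻¹' Z₀ →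
      td (cY.I W) + 2 ≤ td (cY.I Set.univ) := by
    intro g W hW hWZ
    obtain ⟨W₁, W₂, h4, h5⟩ := (Order.one_lt_height_iff (α := (IrreducibleCloseds Y)ᵒᵈ)).1
      (lt_of_lt_of_le (by norm_num) (hcod ⟨closure (a g '' W),
        (hW.image _ (h2 g).continuous.continuousOn).closure, isClosed_closure⟩
        (closure_minimal (Set.image_subset_iff.2 hWZ) hZ₀)))
    have hi : ∀ V : IrreducibleCloseds Y, IsIrreducible (a g ⁻¹' V) := fun V => by
      rw [← Set.image_eq_preimage_of_inverse (hr g) (hl g)]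
      exact V.isIrreducible.image _ (h2 _).continuous.continuousOn
    have hlt : ∀ V V' : IrreducibleCloseds Y, V < V' →
        td (cY.I (a g ⁻¹' V)) < td (cY.I (a g ⁻¹' V')) := fun V V' h =>
      cY.td_lt_td (V.isClosed.preimage (h2 g).continuous) (hi V) (hi V')
        ⟨Set.preimage_mono h.le, fun h' => h.not_ge fun y hy => by
          have := h' (show a (-g) y ∈ a g ⁻¹' V' by rwa [Set.mem_preimage, hr])
          rwa [Set.mem_preimage, hr] at this⟩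
    have h6 := hlt _ _ h5
    have h7 := hlt _ _ h4
    have h8 := cY.td_le_td (hi W₂) hY (Set.subset_univ _)
    have h9 := cY.td_le_td hW (hi ⟨closure (a g '' W),
      (hW.image _ (h2 g).continuous.continuousOn).closure, isClosed_closure⟩)
      fun y hy => subset_closure ⟨y, hy, rfl⟩
    exact Nat.succ_le_of_lt (lt_of_lt_of_le (lt_of_le_of_lt
      (Nat.succ_le_of_lt (lt_of_le_of_lt h9 h6)) h7) h8)
  obtain ⟨_, ⟨H, _, _, υ, _, _, d, ψ, _, hψ, -, rfl⟩, hψ'⟩ := c.dominated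
  have h3 : DenseRange fun h => a (ψ h) y₀ := hd.comp hψ' (h1 y₀).continuous
  obtain ⟨T, hT, h4⟩ := contracted d.toPV cY ((h1 y₀).comp hψ) h3
  obtain ⟨g, hg⟩ : ∃ g, ∀ t ∈ T, a g (a (ψ t) y₀) ∉ Z₀ := by
    by_contra hcon
    push Not at hcon
    obtain ⟨_, ⟨t, -, rfl⟩, h5⟩ := GrpP.sub_of_cover
      (hT.image fun t => (fun g => a g (a (ψ t) y₀)) ⁻¹' Z₀)
      (by rintro _ ⟨t, -, rfl⟩; exact hZ₀.preimage (h1 _).continuous) hG fun g _ => by
        obtain ⟨t, ht, h⟩ := hcon g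
        exact ⟨_, ⟨t, ht, rfl⟩, h⟩
    have := hcod' 0 _ hY fun y _ => by
      rw [Set.mem_preimage, h0]
      refine closure_minimal ?_ hZ₀ (hd y)
      rintro _ ⟨g, rfl⟩
      have := h5 (Set.mem_univ (g - ψ t))
      rwa [Set.mem_preimage, ← hadd, sub_add_cancel] at this
    omega
  refine ⟨H, _, _, ‹_›, υ, ‹_›, _, d, fun h => a g (a (ψ h) y₀), (h2 g).comp ((h1 y₀).comp hψ),
    (Function.RightInverse.surjective (hr g)).denseRange.comp h3 (h2 g).continuous,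
    fun W hW hW' h => h4 W hW hW' (hcod' g _
      (hW'.image _ ((h1 y₀).comp hψ).continuous.continuousOn) (Set.image_subset_iff.2 h))
      (Set.disjoint_left.2 fun t ht ht' => hg t ht (h ht'))⟩

theorem top [IsAlgClosed k] [CharZero k] [Finite σ] [Finite ρ] [Finite τ] {G : Type*}
    [AddGroup G] [TopologicalSpace G] [IrreducibleSpace G] [Mk σ] (c : Ctx k σ G) {Y : Type*}
    [TopologicalSpace Y] (cY : PV k ρ Y) (a : G → Y → Y)
    (ha : Reg (two c.rep cY.rep) cY.rep fun p => a p.1 p.2) (h0 : ∀ y, a 0 y = y)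
    (hadd : ∀ g h y, a (g + h) y = a g (a h y)) (y₀ : Y) (hd : DenseRange fun g => a g y₀)
    {Z₀ : Set Y} (hZ₀ : IsClosed Z₀)
    (hcod : ∀ W : IrreducibleCloseds Y, (W : Set Y) ⊆ Z₀ → 2 ≤ Order.coheight W)
    {t : TopologicalSpace (ℙ k (τ → k))}
    (ht : t = generateFrom {U | ∃ (f : MvPolynomial τ k) (d : ℕ), f.IsHomogeneous d ∧
      U = {x | eval x.rep f ≠ 0}}) (X Z : Set (ℙ k (τ → k))) (hZ : IsClosed Z)
    (φ : Y → ℙ k (τ → k))
    (hφ : Reg (fun x : (Z₀ᶜ : Set Y) => cY.rep x) (projRaw k τ).rep fun x => φ x)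
    (hmap : ∀ x, x ∉ Z₀ → φ x ∈ X \ Z) (hdom : X \ Z ⊆ closure (φ '' Z₀ᶜ)) :
    ∃ R : Subring k, (∃ s : Finset k, R = Subring.closure (s : Set k)) ∧
      ∃ a b : Finset (MvPolynomial τ R), (∀ f ∈ a, ∃ d, f.IsHomogeneous d) ∧
        (∀ g ∈ b, ∃ d, g.IsHomogeneous d) ∧
        Ideal.span (map R.subtype '' (a : Set (MvPolynomial τ R))) =
          vanishingIdeal k {v | ∃ h : v ≠ 0, Projectivization.mk k v h ∈ X} ∧
        (∀ x ∈ X, x ∈ Z ↔ ∀ g ∈ b, eval x.rep (map R.subtype g) = 0) ∧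
        X \ Z ⊆ closure {P | P ∈ X \ Z ∧
          (∃ (v : τ → R) (h : (fun i => (v i : k)) ≠ 0), Projectivization.mk k _ h = P) ∧
          ∀ s : Ideal R, s.IsPrime → s.height = 1 →
            ∃ (v : τ → R) (h : (fun i => (v i : k)) ≠ 0), Projectivization.mk k _ h = P ∧
              (∃ i, v i ∉ s) ∧ ∃ g ∈ b, eval v g ∉ s} := by
  obtain ⟨H, _, _, _, υ, _, _, d, F, h1, h2, h3⟩ :=
    exists_dominant c cY a ha h0 hadd y₀ hd hZ₀ hcod
  have h4 : ContinuousOn φ Z₀ᶜ := continuousOn_iff_continuous_domRestrict.2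
    (Reg.continuous (c := cY.comap _ IsEmbedding.subtypeVal) (c' := projPV ht) hφ)
  refine final d (hZ₀.preimage h1.continuous) h3 ht X Z hZ (fun h => φ (F h))
    (hφ.comp (φ := fun x : ((F ⁻¹' Z₀)ᶜ : Set H) => ⟨F x, x.2⟩) (h1.mono _))
    (fun x hx => hmap _ hx) (hdom.trans (closure_minimal ?_ isClosed_closure))
  rintro _ ⟨y, hy, rfl⟩
  refine closure_mono ?_ (((h4 y hy).mono Set.inter_subset_left).mem_closure_image
    (h2.open_subset_closure_inter hZ₀.isOpen_compl hy))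
  rintro _ ⟨_, ⟨h5, x, rfl⟩, rfl⟩
  exact ⟨x, h5, rfl⟩

theorem eval_smul_bihom' {f : MvPolynomial (σ ⊕ τ) k} {d : ℕ × ℕ}
    (hf : f.IsWeightedHomogeneous (Sum.elim (fun _ => ((1, 0) : ℕ × ℕ)) fun _ => (0, 1)) d)
    (a b : k) (v : σ → k) (w : τ → k) :
    eval (Sum.elim (a • v) (b • w)) f = a ^ d.1 * b ^ d.2 * eval (Sum.elim v w) f := by
  classical
  rw [eval_eq, eval_eq, Finset.mul_sum]
  refine Finset.sum_congr rfl fun m hm => ?_
  rw [← hf (mem_support_iff.1 hm), Finsupp.weight_apply, Finsupp.sum, Prod.fst_sum, Prod.snd_sum,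
    ← Finset.prod_pow_eq_pow_sum, ← Finset.prod_pow_eq_pow_sum, mul_left_comm,
    ← Finset.prod_mul_distrib, ← Finset.prod_mul_distrib]
  congr 1
  refine Finset.prod_congr rfl ?_
  rintro (i | i) - <;> simp [mul_pow]

theorem reg_of_forms {A : Type*} (ι : A → ℙ k (σ → k)) (φ : A → ℙ k (τ → k))
    (h : ∀ x, ∃ (D : MvPolynomial σ k) (F : τ → MvPolynomial σ k) (d e : ℕ),
      D.IsHomogeneous d ∧ (∀ l, (F l).IsHomogeneous e) ∧ eval (ι x).rep D ≠ 0 ∧
      ∀ y, eval (ι y).rep D ≠ 0 →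
        ∃ h : (fun l => eval (ι y).rep (F l)) ≠ 0, Projectivization.mk k _ h = φ y) :
    Reg (fun x => (projRaw k σ).rep (ι x)) (projRaw k τ).rep φ := by
  intro x v hv
  obtain ⟨D, F, d, e, h1, h2, h3, h4⟩ := h x
  refine ⟨D, F, fun h => h3 ((eval_mk_zero h1 hv.2).1 h), fun y w hw h => ?_⟩
  have h5 := h4 y fun h0 => h ((eval_mk_zero h1 hw.2).2 h0)
  obtain ⟨a, ha, rfl⟩ := rep_smul hw.2
  simp only [eval_smul_of_hom (h2 _)]
  exact (projRaw k τ).smul_mem _ _ h5 _ (pow_ne_zero e ha)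

theorem reg_of_forms₂ {A B : Type*} (ι : A → ℙ k (σ → k)) (κ : B → ℙ k (ρ → k))
    (φ : A → B → ℙ k (τ → k))
    (h : ∀ x y, ∃ (D : MvPolynomial (σ ⊕ ρ) k) (F : τ → MvPolynomial (σ ⊕ ρ) k) (d e : ℕ × ℕ),
      D.IsWeightedHomogeneous (Sum.elim (fun _ => ((1, 0) : ℕ × ℕ)) fun _ => (0, 1)) d ∧
      (∀ l, (F l).IsWeightedHomogeneous (Sum.elim (fun _ => ((1, 0) : ℕ × ℕ)) fun _ => (0, 1)) e) ∧
      eval (Sum.elim (ι x).rep (κ y).rep) D ≠ 0 ∧
      ∀ x' y', eval (Sum.elim (ι x').rep (κ y').rep) D ≠ 0 →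
        ∃ h : (fun l => eval (Sum.elim (ι x').rep (κ y').rep) (F l)) ≠ 0,
          Projectivization.mk k _ h = φ x' y') :
    Reg (two (fun x => (projRaw k σ).rep (ι x)) fun y => (projRaw k ρ).rep (κ y))
      (projRaw k τ).rep fun p => φ p.1 p.2 := by
  rintro p _ ⟨v, hv, w, hw, rfl⟩
  obtain ⟨D, F, d, e, h1, h2, h3, h4⟩ := h p.1 p.2
  refine ⟨D, F, ?_, ?_⟩
  · obtain ⟨a, ha, rfl⟩ := rep_smul hv.2
    obtain ⟨b, hb, rfl⟩ := rep_smul hw.2
    rw [eval_smul_bihom' h1]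
    exact mul_ne_zero (mul_ne_zero (pow_ne_zero _ ha) (pow_ne_zero _ hb)) h3
  · rintro q _ ⟨v', hv', w', hw', rfl⟩ h
    obtain ⟨a, ha, rfl⟩ := rep_smul hv'.2
    obtain ⟨b, hb, rfl⟩ := rep_smul hw'.2
    rw [eval_smul_bihom' h1] at h
    simp only [eval_smul_bihom' (h2 _)]
    exact (projRaw k τ).smul_mem _ _ (h4 _ _ (right_ne_zero_of_mul h)) _
      (mul_ne_zero (pow_ne_zero _ ha) (pow_ne_zero _ hb))

theorem exists_ctx [IsAlgClosed k] [Finite σ] {t : TopologicalSpace (ℙ k (σ → k))}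
    (ht : t = generateFrom {U | ∃ (f : MvPolynomial σ k) (d : ℕ), f.IsHomogeneous d ∧
      U = {x | eval x.rep f ≠ 0}}) (G : Set (ℙ k (σ → k))) [AddGroup G] (hG : IsLocallyClosed G)
    (hadd : Reg (two (fun x : G => (projRaw k σ).rep x) fun x : G => (projRaw k σ).rep x)
      (projRaw k σ).rep fun p => (p.1 + p.2 : G))
    (hneg : Reg (fun x : G => (projRaw k σ).rep x) (projRaw k σ).rep fun x => (-x : G)) :
    ∃ (τ : Type) (_ : Finite τ) (_ : Mk τ) (c : Ctx k τ G),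
      Reg c.rep (fun x : G => (projRaw k σ).rep x) fun x => x := by
  obtain ⟨U, C, hU, hC, hUC⟩ := hG
  obtain ⟨b, hb, hb'⟩ := (projRaw k σ).exists_gens Uᶜ
  obtain ⟨τ, _, _, c, h1, h2⟩ := ((projPV ht).comap (Subtype.val : G → _)
    IsEmbedding.subtypeVal).exists_var b hb (fun x v hv => by
      by_contra h
      push Not at h
      exact (projPV ht).mem_of_gens hU.isClosed_compl hb hb' hv h (hUC.le x.2).1)
    fun v hv h g hg hne => by
      have h3 : v ∈ (projRaw k σ).rep (Projectivization.mk k v hv) := ⟨hv, rfl⟩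
      refine ⟨⟨Projectivization.mk k v hv,
        hUC.ge ⟨by_contra fun h' => hne ?_, by_contra fun h' => ?_⟩⟩, h3⟩
      · exact (hb' ▸ Ideal.subset_span hg : g ∈ (projRaw k σ).I Uᶜ) _ h' v h3
      · obtain ⟨f, hf, hne⟩ := (projPV ht).exists_I_ne hC h' h3
        exact hne (h f fun y _ => hf _ (hUC.le y.2).2)
  obtain ⟨c', hc'⟩ := c.exists_ctx
    (h1.comp (Reg.comp (r'' := fun x : G => (projRaw k σ).rep x) (ψ := fun p : G × G => p.1 + p.2)
      hadd ((h2.comp (Reg.fst _ _)).pair (h2.comp (Reg.snd _ _)))))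
    (h1.comp (Reg.comp (r'' := fun x : G => (projRaw k σ).rep x) (ψ := fun p => -p) hneg h2))
  exact ⟨τ, ‹_›, _, c', by rw [hc']; exact h2⟩

end Pool.Agent.P.MP_84b56d_ag.Q
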